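import Pool.Agent.Y728.FinalK
import Pool.Agent.Y515.LowK
import Pool.Agent.Y492.FamK

/-!
**Points of all heights with radical at most `X` over a number field: the exponent `2 / 3`**
(helper728; `low_partK` by helper515, `fam_lightK` by helper492).
-/

set_option autoImplicit false

namespace Pool.Agent.Y728

open Finset NumberField IsDedekindDomain Pool.Agent.H691R3 Pool.Agent.TH876.Loc

/-- the number of points of all heights -/
theorem mainK (K : Type) [Field K] [NumberField K] (ε : ℝ) (hε : 0 < ε) : ∃ D : ℝ, 0 < D ∧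
    ∀ X : ℝ, 1 ≤ X → ∀ F : Finset K, (∀ x ∈ F, Pt x ∧ nn (sp x) ≤ X) →
    (F.card : ℝ) ≤ D * X ^ (2 / 3 + ε) :=
  all_heightsK K (fun _ κh hk => Pool.Agent.Y492.fam_lightK K hk κh)
    (fun _ _ _ hk hC hη => Pool.Agent.Y515.low_partK K hk hC hη) ε hε

end Pool.Agent.Y728
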