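import Pool.Agent.Y728.HighH
import Pool.Agent.TH876.KR.Scale

/-!
Only boundedly many points of bounded radical have a very large height: the conclusion
(helper728).
-/

set_option autoImplicit false

namespace Pool.Agent.Y728

open Finset NumberField IsDedekindDomain Pool.Agent.H691R3 Pool.Agent.TH876.Loc
open Pool.Agent.TH876.KR (fv_pos fv_pv_lt_one fv_pv_pos side mem_side side_uniq df_eq_zero qt qt_ne
  lg_qt lg_qt_sub df_arch InP aw log_Nv_pos' side_sub mem_sp_iff gd_eq card_log_le)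

theorem num_high (κ h D : ℕ) {L Λ : ℝ} (hL : 16 ≤ L)
    (hQ : 729 * (κ : ℝ) * (h + 1) ^ 3 + 30 * κ + 24 * D + 24 ≤ L) (hΛ : L ^ 8 ≤ Λ) :
    κ * ((3 * L) * ((h + 1) * (3 * L))) ^ 3 + κ * (3 * L) * Real.log (4 * Λ) +
      (24 * D + 24) * L ^ 2 ≤ Λ := by
  have hL0 : 0 < L := by linarith
  have hΛ0 : 0 < Λ := lt_of_lt_of_le (by positivity) hΛ
  obtain ⟨s, hs⟩ : ∃ s : ℝ, s = Λ ^ ((1 : ℝ) / 8) := ⟨_, rfl⟩
  have hs0 : 0 < s := by rw [hs]; positivity
  have hs8 : s ^ 8 = Λ := by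
    rw [hs, ← Real.rpow_natCast (Λ ^ ((1 : ℝ) / 8)) 8, ← Real.rpow_mul hΛ0.le]
    norm_num
  have hLs : L ≤ s := by
    by_contra hcon
    rw [not_le] at hcon
    have := pow_lt_pow_left₀ hcon hs0.le (n := 8) (by norm_num)
    rw [hs8] at this
    linarith
  have hs16 : 16 ≤ s := hL.trans hLs
  have hlog : Real.log (4 * Λ) ≤ 10 * s := by
    rw [← hs8, Real.log_mul (by norm_num) (by positivity), Real.log_pow]
    have h1 := Real.log_le_self hs0.le
    have h2 : Real.log 4 ≤ 4 := Real.log_le_self (by norm_num)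
    push_cast
    linarith
  have e1 : κ * ((3 * L) * ((h + 1) * (3 * L))) ^ 3 = (729 * (κ : ℝ) * (h + 1) ^ 3) * L ^ 6 := by
    ring
  rw [e1]
  have f1 : (729 * (κ : ℝ) * (h + 1) ^ 3) * L ^ 6 ≤ (729 * (κ : ℝ) * (h + 1) ^ 3) * s ^ 6 :=
    mul_le_mul_of_nonneg_left (pow_le_pow_left₀ hL0.le hLs 6) (by positivity)
  have f2 : κ * (3 * L) * Real.log (4 * Λ) ≤ κ * (3 * s) * (10 * s) := by
    refine mul_le_mul (mul_le_mul_of_nonneg_left (by linarith) (Nat.cast_nonneg _)) hlog ?_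
      (by positivity)
    refine Real.log_nonneg ?_
    have : (1 : ℝ) ≤ L ^ 8 := one_le_pow₀ (by linarith)
    linarith
  have hs1 : s ^ 2 ≤ s ^ 6 := pow_le_pow_right₀ (by linarith) (by norm_num)
  have f3 : κ * (3 * s) * (10 * s) ≤ 30 * κ * s ^ 6 := by
    have : κ * (3 * s) * (10 * s) = 30 * κ * s ^ 2 := by ring
    rw [this]
    exact mul_le_mul_of_nonneg_left hs1 (by positivity)
  have f4 : (24 * (D : ℝ) + 24) * L ^ 2 ≤ (24 * D + 24) * s ^ 6 :=
    mul_le_mul_of_nonneg_left ((pow_le_pow_left₀ hL0.le hLs 2).trans hs1) (by positivity)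
  have f5 : (729 * (κ : ℝ) * (h + 1) ^ 3 + 30 * κ + 24 * D + 24) * s ^ 6 ≤ s ^ 2 * s ^ 6 := by
    refine mul_le_mul_of_nonneg_right ?_ (by positivity)
    nlinarith
  have f6 : s ^ 2 * s ^ 6 = Λ := by rw [← hs8]; ring
  linarith

variable {K : Type} [Field K] [NumberField K] {h r : ℕ} {Cc : ℝ} {ε : Fin r → 𝓞 K} {g : Pr K → 𝓞 K}

/-- for large heights every prime has a small share of the height -/
theorem small_share (G : GD K h r Cc ε g) : ∃ X0 : ℝ, 16 ≤ X0 ∧ ∀ X : ℝ, X0 ≤ X → ∀ x : K,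
    Pt x → nn (sp x) ≤ X → Real.exp (Real.log X ^ 8) < hgt x → ∀ i : Fin 3, ∀ u ∈ side i x,
    (6 * (sp x).card : ℝ) * df (Sum.inr u : Pl K) i x ≤ hgt x := by
  classical
  obtain ⟨κ, hκ⟩ := single_P G
  obtain ⟨D, hD⟩ : ∃ D, D = Module.finrank ℚ K := ⟨_, rfl⟩
  have hD1 : 1 ≤ D := by rw [hD]; exact Module.finrank_pos
  obtain ⟨L0, hL0⟩ : ∃ L0 : ℝ, L0 = 16 + (729 * (κ : ℝ) * (h + 1) ^ 3 + 30 * κ + 24 * D + 24) +
    r + |Cc| + |dK K * Real.log 2| := ⟨_, rfl⟩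
  refine ⟨max 16 (Real.exp L0), le_max_left _ _, fun X hX x hx hnn hbig i u hu => ?_⟩
  have hX16 : 16 ≤ X := (le_max_left _ _).trans hX
  have hX0 : 0 < X := by linarith
  obtain ⟨L, hL⟩ : ∃ L, L = Real.log X := ⟨_, rfl⟩
  have hLL : L0 ≤ L := by
    rw [hL, Real.le_log_iff_exp_le hX0]
    exact (le_max_right _ _).trans hX
  rw [← hL] at hbig
  have a1 : (0 : ℝ) ≤ 729 * (κ : ℝ) * (h + 1) ^ 3 + 30 * κ + 24 * D + 24 := by positivity
  have a2 : (0 : ℝ) ≤ r := Nat.cast_nonneg _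
  have a3 := abs_nonneg Cc
  have a4 := abs_nonneg (dK K * Real.log 2)
  have a5 := le_abs_self Cc
  have a6 := le_abs_self (dK K * Real.log 2)
  have hL16 : 16 ≤ L := by linarith
  have hLr : (r : ℝ) ≤ L := by linarith
  have hLC : Cc ≤ L := by linarith
  have hLd : dK K * Real.log 2 ≤ L := by linarith
  have hLQ : 729 * (κ : ℝ) * (h + 1) ^ 3 + 30 * κ + 24 * D + 24 ≤ L := by linarith
  have hLpos : 0 < L := by linarith
  obtain ⟨H, hH⟩ : ∃ H, H = hgt x := ⟨_, rfl⟩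
  rw [← hH] at hbig ⊢
  have hHpos : 0 < H := lt_trans (Real.exp_pos _) hbig
  obtain ⟨Λ, hΛ⟩ : ∃ Λ, Λ = Real.log H := ⟨_, rfl⟩
  have hHexp : H = Real.exp Λ := by rw [hΛ, Real.exp_log hHpos]
  have hΛL : L ^ 8 ≤ Λ := by
    rw [hΛ, Real.le_log_iff_exp_le hHpos]
    exact hbig.le
  have hΛLL : L ≤ Λ := by
    refine le_trans ?_ hΛL
    have : L ^ 1 ≤ L ^ 8 := pow_le_pow_right₀ (by linarith) (by norm_num)
    rwa [pow_one] at this
  have hΛ16 : 16 ≤ Λ := hL16.trans hΛLL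
  have g1 : (0.6931 : ℝ) < Real.log 2 := by linarith [Real.log_two_gt_d9]
  have g2 : Real.log 2 < 0.6932 := by linarith [Real.log_two_lt_d9]
  -- cardinality
  have hs1 : ((sp x).card : ℝ) ≤ 2 * L := by
    have h1 := card_log_le hnn
    rw [← hL] at h1
    have h2 : ((sp x).card : ℝ) * 0.6931 ≤ (sp x).card * Real.log 2 :=
      mul_le_mul_of_nonneg_left g1.le (Nat.cast_nonneg _)
    linarith
  -- parameters
  obtain ⟨B0, hB0⟩ : ∃ B0 : ℕ, B0 = ⌈2 * L⌉₊ := ⟨_, rfl⟩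
  have hB1 : 2 * L ≤ B0 := by rw [hB0]; exact Nat.le_ceil _
  have hB2 : (B0 : ℝ) ≤ 3 * L := by
    have : (B0 : ℝ) < 2 * L + 1 := by rw [hB0]; exact Nat.ceil_lt_add_one (by positivity)
    linarith
  obtain ⟨E, hE⟩ : ∃ E : ℕ, E = ⌈3 * Λ⌉₊ := ⟨_, rfl⟩
  have hE1 : 3 * Λ ≤ E := by rw [hE]; exact Nat.le_ceil _
  have hE2 : (E : ℝ) + 1 ≤ 4 * Λ := by
    have : (E : ℝ) < 3 * Λ + 1 := by rw [hE]; exact Nat.ceil_lt_add_one (by positivity)
    linarith
  have hB01 : 1 ≤ B0 := by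
    have : (1 : ℝ) ≤ B0 := by linarith
    exact_mod_cast this
  have hE01 : 1 ≤ E := by
    have : (1 : ℝ) ≤ E := by linarith
    exact_mod_cast this
  have hXB : X ≤ 2 ^ B0 := by
    have h1 : X = Real.exp L := by rw [hL, Real.exp_log hX0]
    rw [h1, ← Real.le_log_iff_exp_le (by positivity), Real.log_pow]
    have : (2 * L) * 0.6931 ≤ (B0 : ℝ) * Real.log 2 :=
      mul_le_mul hB1 g1.le (by norm_num) (by positivity)
    linarith
  have hCB : Cc ≤ 2 ^ B0 := by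
    have h1 : (B0 : ℝ) ≤ 2 ^ B0 := by exact_mod_cast Nat.lt_two_pow_self.le
    linarith
  have hHE : Cc * (2 * H + 1) ≤ 2 ^ E := by
    have h1 : (2 : ℝ) ^ E = Real.exp (E * Real.log 2) := by
      rw [Real.exp_nat_mul, Real.exp_log (by norm_num)]
    have h2 : Real.exp (2 * Λ) ≤ 2 ^ E := by
      rw [h1]
      apply Real.exp_le_exp.2
      have : (3 * Λ) * 0.6931 ≤ (E : ℝ) * Real.log 2 :=
        mul_le_mul hE1 g1.le (by norm_num) (by positivity)
      linarith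
    refine le_trans ?_ h2
    have h2' : Real.exp (2 * Λ) = H * H := by
      rw [hHexp, ← Real.exp_add]
      congr 1
      ring
    rw [h2']
    have h3 : 1 ≤ H := by
      rw [hHexp]
      exact Real.one_le_exp (by linarith)
    have h4 : Cc ≤ Λ := hLC.trans hΛLL
    have h5 : 3 * Λ ≤ H := by
      have e0 : H = Real.exp (Λ / 2) * Real.exp (Λ / 2) := by
        rw [← Real.exp_add, hHexp]
        congr 1
        ring
      have e1 := Real.add_one_le_exp (Λ / 2)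
      rw [e0]
      nlinarith
    have h6 : Cc * (2 * H + 1) ≤ Λ * (3 * H) :=
      mul_le_mul h4 (by linarith) (by linarith) (by linarith)
    nlinarith
  have hdK : dK K * Real.log 2 < H := by
    have e1 := Real.add_one_le_exp Λ
    rw [← hHexp] at e1
    linarith
  -- the share
  by_contra hcon
  rw [not_le] at hcon
  have hu' : u ∈ sp x := side_sub i x hu
  have hcard1 : (1 : ℝ) ≤ (sp x).card := by
    exact_mod_cast Finset.card_pos.2 ⟨u, hu'⟩
  have hNvu : Nv u ≤ X := (Nv_le_nn hu').trans hnn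
  have hlogNv : Real.log (Nv u) ≤ L := by
    rw [hL]
    exact Real.log_le_log (Nv_pos u) hNvu
  have hlogNv0 := log_Nv_pos' u
  obtain ⟨M, hM⟩ : ∃ M : ℕ, M = ⌊df (Sum.inr u : Pl K) i x / ((D : ℝ) * Real.log (Nv u))⌋₊ :=
    ⟨_, rfl⟩
  have hDpos : (0 : ℝ) < D := by exact_mod_cast hD1
  have hDN : 0 < (D : ℝ) * Real.log (Nv u) := by positivity
  have hdf0 : 0 ≤ df (Sum.inr u : Pl K) i x := df_nonneg _ _ hx
  have hM1 : M * ((D : ℝ) * Real.log (Nv u)) ≤ df (Sum.inr u : Pl K) i x := by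
    have h1 : (M : ℝ) ≤ df (Sum.inr u : Pl K) i x / ((D : ℝ) * Real.log (Nv u)) := by
      rw [hM]
      exact Nat.floor_le (by positivity)
    rwa [le_div_iff₀ hDN] at h1
  have hM2 : df (Sum.inr u : Pl K) i x < (M + 1) * ((D : ℝ) * L) := by
    have h1 : df (Sum.inr u : Pl K) i x / ((D : ℝ) * Real.log (Nv u)) < M + 1 := by
      rw [hM]
      exact Nat.lt_floor_add_one _
    rw [div_lt_iff₀ hDN] at h1
    refine lt_of_lt_of_le h1 ?_
    exact mul_le_mul_of_nonneg_left (mul_le_mul_of_nonneg_left hlogNv hDpos.le) (by positivity)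
  have hMbound : M ≤ 2 ^ (κ * ((r + (sp x).card) * ((h + 1) * B0)) ^ 3) *
      (E + 1) ^ (κ * (r + (sp x).card)) := by
    rw [hD] at hM1
    have hsp : ∀ v ∈ sp x, Nv v ≤ 2 ^ B0 := fun v hv => ((Nv_le_nn hv).trans hnn).trans hXB
    obtain ⟨A, B, C', hAB, hBC, hAC, rfl⟩ : ∃ A B C' : Fin 3, A ≠ B ∧ B ≠ C' ∧ A ≠ C' ∧ A = i := by
      fin_cases i
      · exact ⟨0, 1, 2, by decide, by decide, by decide, rfl⟩
      · exact ⟨1, 0, 2, by decide, by decide, by decide, rfl⟩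
      · exact ⟨2, 0, 1, by decide, by decide, by decide, rfl⟩
    exact hκ hx hAB hBC hAC hu hB01 hCB hsp hE01 (by rw [← hH]; exact hHE)
      (by rw [← hH]; exact hdK) hM1
  have hN : ((r + (sp x).card : ℕ) : ℝ) ≤ 3 * L := by
    push_cast
    linarith
  have hMexp : (M : ℝ) ≤ Real.exp (κ * ((3 * L) * ((h + 1) * (3 * L))) ^ 3 +
      κ * (3 * L) * Real.log (4 * Λ)) := by
    have h1 : (M : ℝ) ≤ 2 ^ (κ * ((r + (sp x).card) * ((h + 1) * B0)) ^ 3) *
      ((E : ℝ) + 1) ^ (κ * (r + (sp x).card)) := by exact_mod_cast hMbound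
    refine h1.trans ?_
    rw [Real.exp_add]
    refine mul_le_mul ?_ ?_ (by positivity) (Real.exp_pos _).le
    · have e1 : (2 : ℝ) ^ (κ * ((r + (sp x).card) * ((h + 1) * B0)) ^ 3) =
          Real.exp (((κ * ((r + (sp x).card) * ((h + 1) * B0)) ^ 3 : ℕ) : ℝ) * Real.log 2) := by
        rw [Real.exp_nat_mul, Real.exp_log (by norm_num)]
      rw [e1]
      apply Real.exp_le_exp.2
      have e2 : ((κ * ((r + (sp x).card) * ((h + 1) * B0)) ^ 3 : ℕ) : ℝ) ≤
          κ * ((3 * L) * ((h + 1) * (3 * L))) ^ 3 := by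
        rw [Nat.cast_mul, Nat.cast_pow, Nat.cast_mul, Nat.cast_mul]
        refine mul_le_mul_of_nonneg_left ?_ (Nat.cast_nonneg _)
        have i0 : (0 : ℝ) ≤ 3 * L := by linarith only [hLpos]
        have i1 : (0 : ℝ) ≤ ((h + 1 : ℕ) : ℝ) := Nat.cast_nonneg _
        have i2 : (0 : ℝ) ≤ (B0 : ℝ) := Nat.cast_nonneg _
        have i3 : (0 : ℝ) ≤ ((r + (sp x).card : ℕ) : ℝ) := Nat.cast_nonneg _
        have i4 : ((h + 1 : ℕ) : ℝ) * B0 ≤ (h + 1) * (3 * L) := by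
          rw [Nat.cast_add, Nat.cast_one]
          exact mul_le_mul_of_nonneg_left hB2 (by rwa [Nat.cast_add, Nat.cast_one] at i1)
        exact pow_le_pow_left₀ (mul_nonneg i3 (mul_nonneg i1 i2))
          (mul_le_mul hN i4 (mul_nonneg i1 i2) i0) 3
      calc _ ≤ (κ * ((3 * L) * ((h + 1) * (3 * L))) ^ 3) * 1 :=
            mul_le_mul e2 (by linarith) (by linarith) (by positivity)
        _ = _ := mul_one _
    · have e1 : ((E : ℝ) + 1) ^ (κ * (r + (sp x).card)) ≤ (4 * Λ) ^ (κ * (r + (sp x).card)) :=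
        pow_le_pow_left₀ (by positivity) hE2 _
      refine e1.trans ?_
      have e2 : (4 * Λ) ^ (κ * (r + (sp x).card)) =
          Real.exp (((κ * (r + (sp x).card) : ℕ) : ℝ) * Real.log (4 * Λ)) := by
        rw [Real.exp_nat_mul, Real.exp_log (by positivity)]
      rw [e2]
      apply Real.exp_le_exp.2
      refine mul_le_mul_of_nonneg_right ?_ (Real.log_nonneg (by linarith))
      rw [Nat.cast_mul]
      exact mul_le_mul_of_nonneg_left hN (Nat.cast_nonneg _)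
  have hnum := num_high κ h D hL16 hLQ hΛL
  have h24 : (24 * (D : ℝ) + 24) * L ^ 2 < Real.exp ((24 * D + 24) * L ^ 2) := by
    have := Real.add_one_le_exp ((24 * (D : ℝ) + 24) * L ^ 2)
    linarith
  -- contradiction
  have q1 : H < (12 * L) * ((M + 1) * ((D : ℝ) * L)) := by
    calc H < (6 * (sp x).card : ℝ) * df (Sum.inr u : Pl K) i x := hcon
      _ ≤ (12 * L) * df (Sum.inr u : Pl K) i x :=
          mul_le_mul_of_nonneg_right (by linarith) hdf0
      _ ≤ (12 * L) * ((M + 1) * ((D : ℝ) * L)) := mul_le_mul_of_nonneg_left hM2.le (by positivity)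
  have q2 : (M : ℝ) + 1 ≤ 2 * Real.exp (κ * ((3 * L) * ((h + 1) * (3 * L))) ^ 3 +
      κ * (3 * L) * Real.log (4 * Λ)) := by
    have h1 : 1 ≤ Real.exp (κ * ((3 * L) * ((h + 1) * (3 * L))) ^ 3 +
        κ * (3 * L) * Real.log (4 * Λ)) := by
      refine Real.one_le_exp ?_
      have : 0 ≤ Real.log (4 * Λ) := Real.log_nonneg (by linarith)
      positivity
    linarith
  obtain ⟨Z, hZ⟩ : ∃ Z, Z = κ * ((3 * L) * ((h + 1) * (3 * L))) ^ 3 +
      κ * (3 * L) * Real.log (4 * Λ) := ⟨_, rfl⟩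
  rw [← hZ] at q2 hnum
  have q3 : H < (24 * D + 24) * L ^ 2 * Real.exp Z := by
    refine lt_of_lt_of_le q1 ?_
    have e1 : (12 * L) * ((M + 1) * ((D : ℝ) * L)) = (12 * D * L ^ 2) * (M + 1) := by ring
    rw [e1]
    have e2 : (12 * (D : ℝ) * L ^ 2) * (M + 1) ≤ (12 * D * L ^ 2) * (2 * Real.exp Z) :=
      mul_le_mul_of_nonneg_left q2 (by positivity)
    have e3 : 0 < L ^ 2 * Real.exp Z := by positivity
    nlinarith
  have q4 : H ≤ Real.exp ((24 * D + 24) * L ^ 2) * Real.exp Z :=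
    (q3.trans_le (mul_le_mul_of_nonneg_right h24.le (Real.exp_pos _).le)).le
  have q5 : (24 * (D : ℝ) + 24) * L ^ 2 * Real.exp Z < Real.exp ((24 * D + 24) * L ^ 2) * Real.exp Z :=
    mul_lt_mul_of_pos_right h24 (Real.exp_pos _)
  have q6 : H < Real.exp ((24 * D + 24) * L ^ 2) * Real.exp Z := q3.trans q5
  rw [← Real.exp_add, hHexp] at q6
  have q7 := Real.exp_lt_exp.1 q6
  linarith

/-- **few points of very large height** -/
theorem few_high (G : GD K h r Cc ε g) : ∃ C : ℝ, 0 < C ∧ ∃ X0 : ℝ, 16 ≤ X0 ∧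
    ∀ X : ℝ, X0 ≤ X → ∀ F : Finset K, (∀ x ∈ F, Pt x ∧ nn (sp x) ≤ X ∧
      Real.exp (Real.log X ^ 8) < hgt x) → (F.card : ℝ) ≤ C := by
  classical
  obtain ⟨C, hC, hlight⟩ := light_count (Module.finrank ℚ K) (1 / 3) (by norm_num)
  obtain ⟨X0, hX0, hsmall⟩ := small_share G
  refine ⟨C, by linarith, X0, hX0, fun X hX F hF => ?_⟩
  have h1 := hlight K rfl ∅ F (by
    intro x hx
    obtain ⟨a1, a2, a3⟩ := hF x hx
    refine ⟨a1, ?_⟩
    have hs := hsmall X hX x a1 a2 a3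
    have hh0 := hgt_nonneg x
    have h2 : ∀ v ∈ sp x \ ∅, (6 * (sp x).card : ℝ) * gd (Sum.inr v : Pl K) x ≤ hgt x := by
      intro v hv
      rw [Finset.sdiff_empty] at hv
      obtain ⟨i, hi⟩ := (mem_sp_iff a1 v).1 hv
      rw [gd_eq a1 hi]
      exact hs i v hi
    have h3 := Finset.sum_le_sum h2
    rw [← Finset.mul_sum, Finset.sum_const, nsmul_eq_mul, Finset.sdiff_empty] at h3
    have h4 : out ∅ x = ∑ v ∈ sp x, gd (Sum.inr v : Pl K) x := by
      unfold out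
      rw [Finset.sdiff_empty]
    rw [h4]
    rcases Nat.eq_zero_or_pos (sp x).card with h5 | h5
    · rw [Finset.card_eq_zero] at h5
      rw [h5, Finset.sum_empty]
      positivity
    · have h6 : (0 : ℝ) < (sp x).card := by exact_mod_cast h5
      have h7 : (sp x).card * (6 * ∑ v ∈ sp x, gd (Sum.inr v : Pl K) x) ≤ (sp x).card * hgt x := by
        linarith
      have h8 := le_of_mul_le_mul_left h7 h6
      linarith)
  rw [Finset.card_empty, zero_add, pow_one] at h1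
  exact h1

end Pool.Agent.Y728
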