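import Pool.Agent.Y728.HighK
import Pool.Agent.Y728.HighH2
import Pool.Agent.Y496.GensC

/-!
**Points of all heights with radical at most `X` over a number field: the exponent `2 / 3`**
(helper728).
-/

set_option autoImplicit false

namespace Pool.Agent.Y728

open Finset NumberField IsDedekindDomain Pool.Agent.H691R3 Pool.Agent.TH876.Loc
open Pool.Agent.TH876.KR (InP aw log_Nv_pos' log_nn side mem_side df_eq_zero Light Sc rho rho_gt
  scales small_total fiber_small all_heights choice rr_sum' side_sub)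

/-- the bound at one scale, small heights -/
def LowL (K : Type) [Field K] [NumberField K] (k : ℕ) (C η : ℝ) : Prop :=
  ∃ D : ℝ, 0 < D ∧ ∃ X0 : ℝ, 16 ≤ X0 ∧ ∀ X : ℝ, X0 ≤ X →
    ∀ l : ℝ, Real.log X ^ (2 + η) ≤ l → ∀ F : Finset K, (∀ x ∈ F, Pt x ∧ Sc k l x ∧
      ∃ (S : Finset (Pr K)) (A B E : Fin 3) (p : Pr K), nn S ≤ X ^ (2 / 3 + 1 / (k : ℝ)) ∧
        A ≠ B ∧ B ≠ E ∧ A ≠ E ∧ InP k S A B E x p ∧ Nv p ≤ X ∧
        l ≤ (C * Real.log X) ^ S.card * X ^ (1 / (k : ℝ))) →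
    (F.card : ℝ) ≤ D * X ^ (2 / 3 + 5 / (k : ℝ))

/-- the generators -/
theorem exists_GD (K : Type) [Field K] [NumberField K] :
    ∃ (h r : ℕ) (C : ℝ) (ε : Fin r → 𝓞 K) (g : Pr K → 𝓞 K), GD K h r C ε g := by
  obtain ⟨h, r, C, ε, g, h1, h2, h3, h4, h5, h6, h7, h8, h9⟩ := Pool.Agent.Y496.gensC K
  exact ⟨h, r, C, ε, g, h1, h2, h3, h4, h5, h6, h7, h8, h9⟩

theorem log_pow_leK (m : ℕ) {δ : ℝ} (hδ : 0 < δ) : ∃ D : ℝ, 0 < D ∧ ∀ X : ℝ, 1 ≤ X →
    1 + Real.log X ^ m ≤ D * X ^ δ := by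
  refine ⟨1 + (m / δ) ^ m + 1, by positivity, fun X hX => ?_⟩
  have hX0 : 0 < X := by linarith
  have h0 : 1 ≤ X ^ δ := Real.one_le_rpow hX hδ.le
  rcases Nat.eq_zero_or_pos m with hm | hm
  · subst hm
    simp only [pow_zero]
    linarith
  · have hm0 : (0 : ℝ) < m := by exact_mod_cast hm
    have h1 : Real.log X ≤ X ^ (δ / m) / (δ / m) := Real.log_le_rpow_div hX0.le (by positivity)
    have h2 : X ^ (δ / m) / (δ / m) = m / δ * X ^ (δ / m) := by field_simp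
    rw [h2] at h1
    have h3 := pow_le_pow_left₀ (Real.log_nonneg hX) h1 m
    have h4 : (m / δ * X ^ (δ / m)) ^ m = (m / δ) ^ m * X ^ δ := by
      rw [mul_pow, ← Real.rpow_natCast (X ^ (δ / m)), ← Real.rpow_mul hX0.le]
      congr 2
      field_simp
    rw [h4] at h3
    linarith

theorem all_heightsK (K : Type) [Field K] [NumberField K]
    (hfam : ∀ k κh : ℕ, 3 ≤ k → FamL K k κh)
    (hlow : ∀ (k : ℕ) (C η : ℝ), 9 ≤ k → 1 ≤ C → 0 < η → LowL K k C η)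
    (ε : ℝ) (hε : 0 < ε) : ∃ D : ℝ, 0 < D ∧ ∀ X : ℝ, 1 ≤ X →
    ∀ F : Finset K, (∀ x ∈ F, Pt x ∧ nn (sp x) ≤ X) →
    (F.card : ℝ) ≤ D * X ^ (2 / 3 + ε) := by
  classical
  obtain ⟨h, r, Cc, εu, g, G⟩ := exists_GD K
  obtain ⟨k0, hk0⟩ : ∃ k0 : ℕ, 6 / ε ≤ k0 := exists_nat_ge _
  obtain ⟨k, hk⟩ : ∃ k, k = k0 + 9 := ⟨_, rfl⟩
  have hk9 : 9 ≤ k := by omega
  have hk1 : 1 ≤ k := by omega
  have hkp : (0 : ℝ) < k := by exact_mod_cast hk1
  have h1k : 0 < 1 / (k : ℝ) := by positivity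
  have hkε : 6 / (k : ℝ) ≤ ε := by
    have h1 : 6 / ε ≤ (k : ℝ) := hk0.trans (by rw [hk]; push_cast; linarith)
    rw [div_le_iff₀ hε] at h1
    rw [div_le_iff₀ hkp]
    linarith
  obtain ⟨η, hη, L1, hL1, C1, hC1, hsmall⟩ := small_total K (fiber_small K) ε hε
  obtain ⟨Ch, hCh, Xh, hXh, hhuge⟩ := few_high G
  obtain ⟨C, hC, D1, hD1, X1, hX1, hhigh⟩ := high_partK G hk9 8 (hfam k 8 (by omega))
  obtain ⟨D2, hD2, X2, hX2, hlow'⟩ := hlow k C η hk9 hC hη
  obtain ⟨D3, hD3, X3, hX3, hfam'⟩ := hfam k 8 (by omega)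
  obtain ⟨X4, hX4, hsets⟩ := card_sets K hk9
  obtain ⟨D4, hD4, hlog⟩ := log_pow_leK 8 h1k
  obtain ⟨C5, hC5, hall⟩ := all_heights K 1 one_pos
  have hρ := rho_gt hk1
  have hlρ : 0 < Real.log (rho k) := Real.log_pos hρ
  obtain ⟨X0, hX0e⟩ : ∃ X0, X0 = max (max (max X1 X2) (max X3 X4)) (max Xh (Real.exp (L1 + 1))) :=
    ⟨_, rfl⟩
  have hX016 : 16 ≤ X0 := by
    rw [hX0e]
    exact hX1.trans ((le_max_left _ _).trans ((le_max_left _ _).trans (le_max_left _ _)))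
  have hX0p : 0 < X0 := by linarith
  obtain ⟨DD, hDD⟩ : ∃ DD, DD = C1 + Ch + D3 + D1 + (1 + 1 / Real.log (rho k)) * D4 * D2 := ⟨_, rfl⟩
  have hDD0 : 0 < DD := by rw [hDD]; positivity
  refine ⟨C5 * X0 ^ ((1 : ℝ) + 1) + DD, by positivity, fun X hX F hF => ?_⟩
  have hXp : 0 < X := by linarith
  have hXe1 : 1 ≤ X ^ (2 / 3 + ε) := Real.one_le_rpow hX (by positivity)
  rcases lt_or_ge X X0 with hsm | hlarge
  · -- small `X`
    have h1 := hall X0 hX016 F fun x hx => ⟨(hF x hx).1, (hF x hx).2.trans hsm.le⟩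
    have h2 : 0 ≤ C5 * X0 ^ ((1 : ℝ) + 1) := by positivity
    calc (F.card : ℝ) ≤ C5 * X0 ^ ((1 : ℝ) + 1) := h1
      _ ≤ (C5 * X0 ^ ((1 : ℝ) + 1) + DD) * 1 := by linarith
      _ ≤ _ := mul_le_mul_of_nonneg_left hXe1 (by positivity)
  have hXX : max (max X1 X2) (max X3 X4) ≤ X := by
    rw [hX0e] at hlarge
    exact (le_max_left _ _).trans hlarge
  have hXX1 : X1 ≤ X := ((le_max_left _ _).trans (le_max_left _ _)).trans hXX
  have hXX2 : X2 ≤ X := ((le_max_right _ _).trans (le_max_left _ _)).trans hXX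
  have hXX3 : X3 ≤ X := ((le_max_left _ _).trans (le_max_right _ _)).trans hXX
  have hXX4 : X4 ≤ X := ((le_max_right _ _).trans (le_max_right _ _)).trans hXX
  have hXX5 : Xh ≤ X := by
    rw [hX0e] at hlarge
    exact ((le_max_left _ _).trans (le_max_right _ _)).trans hlarge
  have hXL1 : Real.exp (L1 + 1) ≤ X := by
    rw [hX0e] at hlarge
    exact ((le_max_right _ _).trans (le_max_right _ _)).trans hlarge
  obtain ⟨L, hL⟩ : ∃ L, L = Real.log X := ⟨_, rfl⟩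
  have hLL2 : L1 + 1 ≤ L := by rw [hL, Real.le_log_iff_exp_le hXp]; exact hXL1
  have hLL1 : L1 ≤ L := by linarith
  have hL1' : 1 ≤ L := hL1.trans hLL1
  have hL2' : 2 ≤ L := by linarith
  have hL0 : 0 < L := by linarith
  obtain ⟨l0, hl0⟩ : ∃ l0, l0 = L ^ (2 + η) := ⟨_, rfl⟩
  have hl0L : L ≤ l0 := by
    have h1 : L ^ (1 : ℝ) ≤ L ^ (2 + η) := Real.rpow_le_rpow_of_exponent_le hL1' (by linarith)
    rw [Real.rpow_one] at h1
    rw [hl0]
    exact h1
  have hl01 : 1 ≤ l0 := by linarith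
  have hl00 : 0 < l0 := by linarith
  obtain ⟨H, hH⟩ : ∃ H, H = Real.exp (L ^ 8) := ⟨_, rfl⟩
  have hlH : Real.log H = L ^ 8 := by rw [hH, Real.log_exp]
  have hH1 : 1 ≤ H := by
    rw [hH]
    exact Real.one_le_exp (by positivity)
  have hlogH : 1 + Real.log H ≤ D4 * X ^ (1 / (k : ℝ)) := by
    rw [hlH, hL]
    exact hlog X hX
  -- the four parts
  obtain ⟨F1, hF1⟩ : ∃ F1, F1 = F.filter fun x => hgt x ≤ l0 := ⟨_, rfl⟩
  obtain ⟨F2, hF2⟩ : ∃ F2, F2 = F.filter fun x => H < hgt x := ⟨_, rfl⟩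
  obtain ⟨FL, hFL⟩ : ∃ FL, FL = F.filter fun x => (l0 ≤ hgt x ∧ hgt x ≤ H) ∧
    ∃ S : Finset (Pr K), nn S ≤ X ^ (2 / 3 + 1 / (k : ℝ)) ∧ Light k S x := ⟨_, rfl⟩
  obtain ⟨FH, hFH⟩ : ∃ FH, FH = F.filter fun x => (l0 ≤ hgt x ∧ hgt x ≤ H) ∧
    ∃ (S : Finset (Pr K)) (A B E : Fin 3) (p : Pr K), nn S ≤ X ^ (2 / 3 + 1 / (k : ℝ)) ∧
        A ≠ B ∧ B ≠ E ∧ A ≠ E ∧ InP k S A B E x p ∧ Nv p ≤ X ∧
        (C * L) ^ S.card * X ^ (1 / (k : ℝ)) < hgt x := ⟨_, rfl⟩
  obtain ⟨FW, hFW⟩ : ∃ FW, FW = F.filter fun x => (l0 ≤ hgt x ∧ hgt x ≤ H) ∧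
    ∃ (S : Finset (Pr K)) (A B E : Fin 3) (p : Pr K), nn S ≤ X ^ (2 / 3 + 1 / (k : ℝ)) ∧
        A ≠ B ∧ B ≠ E ∧ A ≠ E ∧ InP k S A B E x p ∧ Nv p ≤ X ∧
        hgt x ≤ (C * L) ^ S.card * X ^ (1 / (k : ℝ)) := ⟨_, rfl⟩
  have hcov : F ⊆ F1 ∪ (F2 ∪ (FL ∪ (FH ∪ FW))) := by
    intro x hx
    obtain ⟨a1, a2⟩ := hF x hx
    rcases le_or_gt (hgt x) l0 with h1 | h1
    · refine Finset.mem_union_left _ ?_
      rw [hF1]
      exact Finset.mem_filter.2 ⟨hx, h1⟩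
    refine Finset.mem_union_right _ ?_
    rcases lt_or_ge H (hgt x) with h2 | h2
    · refine Finset.mem_union_left _ ?_
      rw [hF2]
      exact Finset.mem_filter.2 ⟨hx, h2⟩
    refine Finset.mem_union_right _ ?_
    have hh0 : 0 < hgt x := by linarith
    obtain ⟨S, hgood, hsum⟩ := choice (k := k) (by omega) a1 hh0
    have hnnS : nn S ≤ X ^ (2 / 3 + 1 / (k : ℝ)) := by
      rw [← Real.log_le_log_iff (nn_pos S) (Real.rpow_pos_of_pos hXp _), Real.log_rpow hXp,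
        log_nn]
      refine hsum.trans (mul_le_mul_of_nonneg_left ?_ (by positivity))
      rw [rr_sum' a1]
      exact Real.log_le_log (nn_pos _) a2
    rcases hgood with hg | ⟨A, B, E, p, hAB, hBE, hAE, hP⟩
    · refine Finset.mem_union_left _ ?_
      rw [hFL]
      exact Finset.mem_filter.2 ⟨hx, ⟨h1.le, h2⟩, S, hnnS, hg⟩
    · refine Finset.mem_union_right _ ?_
      have hpX : Nv p ≤ X := (Nv_le_nn (side_sub B x hP.pB)).trans a2
      rcases lt_or_ge ((C * L) ^ S.card * X ^ (1 / (k : ℝ))) (hgt x) with h3 | h3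
      · refine Finset.mem_union_left _ ?_
        rw [hFH]
        exact Finset.mem_filter.2 ⟨hx, ⟨h1.le, h2⟩, S, A, B, E, p, hnnS, hAB, hBE, hAE, hP, hpX, h3⟩
      · refine Finset.mem_union_right _ ?_
        rw [hFW]
        exact Finset.mem_filter.2 ⟨hx, ⟨h1.le, h2⟩, S, A, B, E, p, hnnS, hAB, hBE, hAE, hP, hpX, h3⟩
  have d1 : (F1.card : ℝ) ≤ C1 * X ^ (2 / 3 + ε) := hsmall X hX (by rw [← hL]; exact hLL1) F1
    (fun x hx => by
      rw [hF1, mem_filter] at hx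
      exact ⟨(hF x hx.1).1, (hF x hx.1).2, by rw [← hL, ← hl0]; exact hx.2⟩)
  have d2 : (F2.card : ℝ) ≤ Ch := hhuge X hXX5 F2 (fun x hx => by
      rw [hF2, mem_filter] at hx
      exact ⟨(hF x hx.1).1, (hF x hx.1).2, by rw [← hL, ← hH]; exact hx.2⟩)
  have hexp : ∀ a : ℝ, a ≤ 6 → X ^ (2 / 3 + a / (k : ℝ)) ≤ X ^ (2 / 3 + ε) := by
    intro a ha
    refine Real.rpow_le_rpow_of_exponent_le hX ?_
    have : a / (k : ℝ) ≤ 6 / k := div_le_div_of_nonneg_right ha hkp.le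
    linarith
  -- light points
  have dL : (FL.card : ℝ) ≤ D3 * X ^ (2 / 3 + ε) := by
    have hex : ∀ x : K, ∃ S : Finset (Pr K), x ∈ FL → nn S ≤ X ^ (2 / 3 + 1 / (k : ℝ)) ∧
        Light k S x := by
      intro x
      by_cases hx : x ∈ FL
      · rw [hFL, mem_filter] at hx
        obtain ⟨_, _, S, hS⟩ := hx
        exact ⟨S, fun _ => hS⟩
      · exact ⟨∅, fun hh => absurd hh hx⟩
    choose Sx hSx using hex
    obtain ⟨W, hW⟩ : ∃ W, W = FL.image Sx := ⟨_, rfl⟩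
    have hWc : (W.card : ℝ) ≤ X ^ (2 / 3 + 2 / (k : ℝ)) := by
      refine hsets X hXX4 W fun S hS => ?_
      rw [hW, Finset.mem_image] at hS
      obtain ⟨x, hx, rfl⟩ := hS
      exact (hSx x hx).1
    have h1 := hfam' X hXX3 W (by
        intro S hS
        rw [hW, Finset.mem_image] at hS
        obtain ⟨x, hx, rfl⟩ := hS
        refine (hSx x hx).1.trans ?_
        refine le_trans (Real.rpow_le_rpow_of_exponent_le hX ?_) (le_trans (rpow_M_le hk9 hX) ?_)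
        · have : 1 / (k : ℝ) ≤ 3 / k := div_le_div_of_nonneg_right (by norm_num) hkp.le
          linarith
        · nlinarith) FL (by
        intro x hx
        have h2 := hSx x hx
        have hx' := hx
        rw [hFL, mem_filter] at hx'
        obtain ⟨b1, ⟨b2, b3⟩, _⟩ := hx'
        refine ⟨(hF x b1).1, ?_, ?_, Sx x, ?_, h2.2⟩
        · rw [← hL]
          exact hl0L.trans b2
        · rw [← hL, ← hH]
          exact b3
        · rw [hW]
          exact Finset.mem_image_of_mem _ hx)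
    calc (FL.card : ℝ) ≤ D3 * W.card * X ^ (2 / (k : ℝ)) := h1
      _ ≤ D3 * X ^ (2 / 3 + 2 / (k : ℝ)) * X ^ (2 / (k : ℝ)) :=
          mul_le_mul_of_nonneg_right (mul_le_mul_of_nonneg_left hWc hD3.le) (by positivity)
      _ = D3 * (X ^ (2 / 3 + 2 / (k : ℝ)) * X ^ (2 / (k : ℝ))) := by ring
      _ = D3 * X ^ (2 / 3 + 4 / (k : ℝ)) := by
          rw [← Real.rpow_add hXp]
          congr 2
          ring
      _ ≤ D3 * X ^ (2 / 3 + ε) := mul_le_mul_of_nonneg_left (hexp 4 (by norm_num)) hD3.le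
  -- large heights
  have dH : (FH.card : ℝ) ≤ D1 * X ^ (2 / 3 + ε) := by
    have h1 := hhigh X hXX1 FH (fun x hx => by
      rw [hFH, mem_filter] at hx
      obtain ⟨b1, ⟨b2, b3⟩, b4⟩ := hx
      rw [← hL]
      exact ⟨(hF x b1).1, by rw [← hH]; exact b3, b4⟩)
    exact h1.trans (mul_le_mul_of_nonneg_left (hexp 5 (by norm_num)) hD1.le)
  -- small heights
  have dW : (FW.card : ℝ) ≤ (1 + 1 / Real.log (rho k)) * D4 * D2 * X ^ (2 / 3 + ε) := by
    rcases lt_or_ge H l0 with hHl | hHl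
    · have : FW = ∅ := by
        rw [Finset.eq_empty_iff_forall_notMem]
        intro x hx
        rw [hFW, mem_filter] at hx
        obtain ⟨b1, ⟨b2, b3⟩, b4⟩ := hx
        linarith
      rw [this, Finset.card_empty, Nat.cast_zero]
      positivity
    obtain ⟨J, hJ, hcard⟩ := scales hk1 hl00 hHl FW (by
      intro x hx
      rw [hFW, mem_filter] at hx
      exact hx.2.1)
    have h1 : ∀ j ∈ Finset.range (J + 1), ((FW.filter fun x => Sc k (l0 * rho k ^ j) x).card : ℝ) ≤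
        D2 * X ^ (2 / 3 + 5 / (k : ℝ)) := by
      intro j _
      have p1 : 1 ≤ rho k ^ j := one_le_pow₀ hρ.le
      have p2 : l0 ≤ l0 * rho k ^ j := le_mul_of_one_le_right hl00.le p1
      refine hlow' X hXX2 (l0 * rho k ^ j) (by rw [← hL, ← hl0]; exact p2) _ ?_
      intro x hx
      obtain ⟨h2, h3⟩ := Finset.mem_filter.1 hx
      rw [hFW, mem_filter] at h2
      obtain ⟨b1, _, S, A, B, E, p, c1, c2, c3, c4, c5, c6, c7⟩ := h2
      refine ⟨(hF x b1).1, h3, S, A, B, E, p, c1, c2, c3, c4, c5, c6, ?_⟩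
      rw [← hL]
      exact h3.1.trans c7
    have h2 : (FW.card : ℝ) ≤ ∑ j ∈ Finset.range (J + 1),
        ((FW.filter fun x => Sc k (l0 * rho k ^ j) x).card : ℝ) := by exact_mod_cast hcard
    have h4 := h2.trans (Finset.sum_le_sum h1)
    rw [Finset.sum_const, Finset.card_range, nsmul_eq_mul] at h4
    have hJ1 : ((J + 1 : ℕ) : ℝ) ≤ (1 + 1 / Real.log (rho k)) * D4 * X ^ (1 / (k : ℝ)) := by
      have e1 : rho k ^ J ≤ H := by
        refine le_trans ?_ hJ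
        exact le_mul_of_one_le_left (by positivity) hl01
      have e2 := Real.log_le_log (by positivity) e1
      rw [Real.log_pow] at e2
      have e3 : (J : ℝ) ≤ 1 / Real.log (rho k) * Real.log H := by
        rw [one_div, ← div_eq_inv_mul, le_div_iff₀ hlρ]
        exact e2
      have e4 : 0 ≤ Real.log H := Real.log_nonneg hH1
      have e5 : 0 < 1 / Real.log (rho k) := by positivity
      calc ((J + 1 : ℕ) : ℝ) = (J : ℝ) + 1 := by push_cast; ring
        _ ≤ (1 + 1 / Real.log (rho k)) * (1 + Real.log H) := by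
            have : (1 + 1 / Real.log (rho k)) * (1 + Real.log H) =
              1 + Real.log H + 1 / Real.log (rho k) + 1 / Real.log (rho k) * Real.log H := by ring
            rw [this]
            linarith only [e3, e4, e5]
        _ ≤ (1 + 1 / Real.log (rho k)) * (D4 * X ^ (1 / (k : ℝ))) :=
            mul_le_mul_of_nonneg_left hlogH (by positivity)
        _ = _ := by ring
    have c0 : 0 ≤ (1 + 1 / Real.log (rho k)) * D4 * D2 := by
      have : 0 < 1 / Real.log (rho k) := by positivity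
      positivity
    calc (FW.card : ℝ) ≤ ((J + 1 : ℕ) : ℝ) * (D2 * X ^ (2 / 3 + 5 / (k : ℝ))) := h4
      _ ≤ ((1 + 1 / Real.log (rho k)) * D4 * X ^ (1 / (k : ℝ))) *
            (D2 * X ^ (2 / 3 + 5 / (k : ℝ))) := mul_le_mul_of_nonneg_right hJ1 (by positivity)
      _ = (1 + 1 / Real.log (rho k)) * D4 * D2 *
          (X ^ (1 / (k : ℝ)) * X ^ (2 / 3 + 5 / (k : ℝ))) := by ring
      _ = (1 + 1 / Real.log (rho k)) * D4 * D2 * X ^ (2 / 3 + 6 / (k : ℝ)) := by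
          rw [← Real.rpow_add hXp]
          congr 2
          ring
      _ ≤ _ := mul_le_mul_of_nonneg_left (hexp 6 le_rfl) c0
  have hcard : (F.card : ℝ) ≤ F1.card + (F2.card + (FL.card + (FH.card + FW.card))) := by
    have h1 := Finset.card_le_card hcov
    have h2 := Finset.card_union_le F1 (F2 ∪ (FL ∪ (FH ∪ FW)))
    have h3 := Finset.card_union_le F2 (FL ∪ (FH ∪ FW))
    have h4 := Finset.card_union_le FL (FH ∪ FW)
    have h5 := Finset.card_union_le FH FW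
    have h6 : F.card ≤ F1.card + (F2.card + (FL.card + (FH.card + FW.card))) := by omega
    exact_mod_cast h6
  have hCh' : Ch ≤ Ch * X ^ (2 / 3 + ε) := le_mul_of_one_le_right hCh.le hXe1
  have hP : 0 ≤ C5 * X0 ^ ((1 : ℝ) + 1) * X ^ (2 / 3 + ε) := by positivity
  calc (F.card : ℝ) ≤ C1 * X ^ (2 / 3 + ε) + (Ch * X ^ (2 / 3 + ε) + (D3 * X ^ (2 / 3 + ε) +
        (D1 * X ^ (2 / 3 + ε) + (1 + 1 / Real.log (rho k)) * D4 * D2 * X ^ (2 / 3 + ε)))) := by
        linarith only [hcard, d1, d2, dL, dH, dW, hCh']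
    _ = DD * X ^ (2 / 3 + ε) := by rw [hDD]; ring
    _ ≤ (C5 * X0 ^ ((1 : ℝ) + 1) + DD) * X ^ (2 / 3 + ε) := by
        rw [add_mul]
        linarith only [hP]

end Pool.Agent.Y728
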