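import Pool.Agent.Y728.MainK
import Pool.Agent.TH876.KR.Fin

/-!
The points of the projective line of all heights with a small truncated counting function
(helper728, after helper876).
-/

set_option autoImplicit false

namespace Pool.Agent.Y728

open NumberField IsDedekindDomain Finset
open Pool.Agent.TH876.KR (form counting bad_finite good_index tt tri Pt_tt tri_ne tt_inj)
open Pool.Agent.H691R3 Pool.Agent.TH876.Loc

/-- the points off the divisor with bounded counting function -/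
def PtsQ {K : Type} [Field K] [NumberField K] (S : Set (HeightOneSpectrum (𝓞 K))) {q : ℕ}
    (a : Fin q → Fin 2 → K) (X : ℝ) : Set (Projectivization K (Fin 2 → K)) :=
  {P | ∃ (x : Fin 2 → K) (hx : x ≠ 0), P = Projectivization.mk K x hx ∧
    (∀ i, form (a i) x ≠ 0) ∧ Real.exp (counting S a x) ≤ X}

theorem line_final (K : Type) [Field K] [NumberField K]
    (S : Set (HeightOneSpectrum (𝓞 K))) (hS : S.Finite) (q : ℕ) (hq : 3 ≤ q)
    (a : Fin q → Fin 2 → K) (ha : ∀ i j, i ≠ j → form (a i) (a j) ≠ 0)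
    (ε : ℝ) (hε : 0 < ε) :
    ∃ C : ℝ, ∀ X : ℝ, 1 ≤ X → (PtsQ S a X).Finite ∧
      ((PtsQ S a X).ncard : ℝ) ≤ C * X ^ (2 / (q : ℝ) + ε) := by
  classical
  obtain ⟨T, hT⟩ := bad_finite hq S hS ha
  obtain ⟨C, hC0, hC⟩ := mainK K ε hε
  have hq0 : (3 : ℝ) ≤ q := by exact_mod_cast hq
  refine ⟨q * (C * nn T ^ (2 / 3 + ε)), ?_⟩
  intro X hX
  have hX0 : 0 < X := by linarith
  set X' : ℝ := nn T * X ^ (3 / (q : ℝ)) with hX'
  have hXq : 1 ≤ X ^ (3 / (q : ℝ)) := Real.one_le_rpow hX (by positivity)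
  have hX'1 : 1 ≤ X' := by
    rw [hX']
    nlinarith [one_le_nn T]
  -- choose representatives
  have hex : ∀ p : Projectivization K (Fin 2 → K), ∃ (x : Fin 2 → K) (s : Fin q),
      p ∈ PtsQ S a X → (∃ hx : x ≠ 0, p = Projectivization.mk K x hx) ∧
        (∀ i, form (a i) x ≠ 0) ∧ nn (sp (tt (tri a s) x)) ≤ X' := by
    intro p
    by_cases hp : p ∈ PtsQ S a X
    · obtain ⟨x, hx0, e, hx, h1⟩ := hp
      obtain ⟨s, hs⟩ := good_index hq S ha T hT hx0 hx hX h1
      exact ⟨x, s, fun _ => ⟨⟨hx0, e⟩, hx, hs⟩⟩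
    · exact ⟨0, ⟨0, by omega⟩, fun h => absurd h hp⟩
  choose f g hfg using hex
  set B : ℝ := C * X' ^ (2 / 3 + ε) with hB
  have hB0 : 0 ≤ B := by positivity
  have hbound : ∀ G : Finset (Projectivization K (Fin 2 → K)), (G : Set _) ⊆ PtsQ S a X →
      (G.card : ℝ) ≤ q * B := by
    intro G hG
    have h1 : ∀ s : Fin q, ((G.filter fun p => g p = s).card : ℝ) ≤ B := by
      intro s
      have hinj : Set.InjOn (fun p => tt (tri a s) (f p)) (G.filter fun p => g p = s) := by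
        intro p hp r hr hpr
        have hp' := Finset.mem_filter.1 (Finset.mem_coe.1 hp)
        have hr' := Finset.mem_filter.1 (Finset.mem_coe.1 hr)
        obtain ⟨⟨hp0, ep⟩, hpx, _⟩ := hfg p (hG hp'.1)
        obtain ⟨⟨hr0, er⟩, hrx, _⟩ := hfg r (hG hr'.1)
        obtain ⟨k, hk⟩ := tt_inj (tri_ne hq ha s) (x := f p) (y := f r) (fun i => hpx _)
          (fun i => hrx _) hpr
        rw [ep, er, Projectivization.mk_eq_mk_iff']
        exact ⟨k, hk⟩
      rw [← Finset.card_image_of_injOn hinj]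
      refine hC X' hX'1 _ ?_
      intro t ht
      obtain ⟨p, hp, rfl⟩ := Finset.mem_image.1 ht
      have hp' := Finset.mem_filter.1 hp
      obtain ⟨_, hpx, h2⟩ := hfg p (hG hp'.1)
      rw [hp'.2] at h2
      exact ⟨Pt_tt (tri_ne hq ha s) fun i => hpx _, h2⟩
    have h2 : G.card = ∑ s : Fin q, (G.filter fun p => g p = s).card :=
      Finset.card_eq_sum_card_fiberwise fun p _ => Finset.mem_univ (g p)
    rw [h2]
    push_cast
    calc ∑ s : Fin q, ((G.filter fun p => g p = s).card : ℝ) ≤ ∑ _s : Fin q, B :=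
          Finset.sum_le_sum fun s _ => h1 s
      _ = q * B := by rw [Finset.sum_const, Finset.card_univ, Fintype.card_fin, nsmul_eq_mul]
  have hfinal : q * B ≤ q * (C * nn T ^ (2 / 3 + ε)) * X ^ (2 / (q : ℝ) + ε) := by
    have h1 : X' ^ (2 / 3 + ε) ≤ nn T ^ (2 / 3 + ε) * X ^ (2 / (q : ℝ) + ε) := by
      rw [hX', Real.mul_rpow (nn_pos T).le (Real.rpow_nonneg hX0.le _), ← Real.rpow_mul hX0.le]
      refine mul_le_mul_of_nonneg_left ?_ (Real.rpow_nonneg (nn_pos T).le _)
      refine Real.rpow_le_rpow_of_exponent_le hX ?_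
      have h3 : 3 / (q : ℝ) * (2 / 3 + ε) = 2 / q + 3 / q * ε := by ring
      rw [h3]
      have h4 : 3 / (q : ℝ) ≤ 1 := (div_le_one (by linarith)).2 hq0
      nlinarith
    have h2 : B ≤ C * (nn T ^ (2 / 3 + ε) * X ^ (2 / (q : ℝ) + ε)) :=
      mul_le_mul_of_nonneg_left h1 (by positivity)
    calc q * B ≤ q * (C * (nn T ^ (2 / 3 + ε) * X ^ (2 / (q : ℝ) + ε))) :=
          mul_le_mul_of_nonneg_left h2 (by linarith)
      _ = _ := by ring
  have hfin : (PtsQ S a X).Finite := by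
    by_contra hinf
    obtain ⟨G, hGV, hGc⟩ := Set.Infinite.exists_subset_card_eq hinf (⌊q * B⌋₊ + 1)
    have h1 := hbound G hGV
    have h2 := Nat.lt_floor_add_one (q * B)
    rw [hGc] at h1
    push_cast at h1
    linarith
  refine ⟨hfin, ?_⟩
  rw [Set.ncard_eq_toFinset_card _ hfin]
  exact (hbound hfin.toFinset (by rw [Set.Finite.coe_toFinset])).trans hfinal

end Pool.Agent.Y728
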