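import Pool.Agent.Y728.MainK

/-!
The counts of the points with a set of prescribed primes of norm at most `M` (helper728, from
`low_partK` of helper515 and `high_partK`).
-/

set_option autoImplicit false

namespace Pool.Agent.Y728

open Finset NumberField IsDedekindDomain Pool.Agent.H691R3 Pool.Agent.TH876.Loc
open Pool.Agent.TH876.KR (InP aw log_Nv_pos' log_nn side mem_side df_eq_zero Light Sc rho rho_gt
  scales choice rr_sum' side_sub PigStmt card_P card_log_le numericK pigK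
  sum_sets dK_nn df_int)
open Pool.Agent.Y515 (low_scaleK)

theorem low_genK (K : Type) [Field K] [NumberField K] {k : ℕ} (hk : 9 ≤ k) {C η : ℝ}
    (hC : 1 ≤ C) (hη : 0 < η) : ∃ D : ℝ, 0 < D ∧ ∃ X0 : ℝ, 16 ≤ X0 ∧ ∀ X : ℝ, X0 ≤ X →
    ∀ M : ℝ, 1 ≤ M → M ≤ X ^ (2 / 3 + 1 / (k : ℝ)) →
    ∀ l : ℝ, Real.log X ^ (2 + η) ≤ l → ∀ F : Finset K, (∀ x ∈ F, Pt x ∧ Sc k l x ∧
      ∃ (S : Finset (Pr K)) (A B E : Fin 3) (p : Pr K), nn S ≤ M ∧
        A ≠ B ∧ B ≠ E ∧ A ≠ E ∧ InP k S A B E x p ∧ Nv p ≤ X ∧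
        l ≤ (C * Real.log X) ^ S.card * X ^ (1 / (k : ℝ))) →
    (F.card : ℝ) ≤ D * (M * X ^ (3 / (k : ℝ))) := by
  classical
  have hk1 : 1 ≤ k := by omega
  have hk9 : (9 : ℝ) ≤ k := by exact_mod_cast hk
  have hk0 : (0 : ℝ) < k := by linarith
  have h1k : 0 < 1 / (k : ℝ) := by positivity
  have h1k9 : 1 / (k : ℝ) ≤ 1 / 9 := one_div_le_one_div_of_le (by norm_num) hk9
  obtain ⟨C2, hC2⟩ : ∃ C2 : ℝ, C2 = C * 2 ^ (99 * k) := ⟨_, rfl⟩
  have h2k : (1 : ℝ) ≤ 2 ^ (99 * k) := one_le_pow₀ (by norm_num)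
  have hC2C : C ≤ C2 := by
    rw [hC2]
    exact le_mul_of_one_le_right (by linarith) h2k
  have hC21 : 1 ≤ C2 := hC.trans hC2C
  obtain ⟨Xs, hXs1, hsum⟩ := Pool.Agent.Y96.sum_bigK K C2 (1 / (k : ℝ)) hC21 h1k
  obtain ⟨D1, hD1, L0, hL0, hlow⟩ := low_scaleK K (k := k) (by omega) hη
  obtain ⟨hfinU, -⟩ := sum_sets K 1 le_rfl 1 one_pos
  refine ⟨D1, hD1, max Xs (Real.exp L0), hXs1.trans (le_max_left _ _),
    fun X hX M hM1 hMX' l hl F hF => ?_⟩
  have hXs : Xs ≤ X := (le_max_left _ _).trans hX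
  have hXL : Real.exp L0 ≤ X := (le_max_right _ _).trans hX
  have hX16 : 16 ≤ X := hXs1.trans hXs
  have hX1 : 1 ≤ X := by linarith
  have hX0 : 0 < X := by linarith
  obtain ⟨L, hL⟩ : ∃ L, L = Real.log X := ⟨_, rfl⟩
  have hLL : L0 ≤ L := by rw [hL, Real.le_log_iff_exp_le hX0]; exact hXL
  have hL3 : 3 ≤ L := hL0.trans hLL
  have hMX : M ≤ X := by
    refine hMX'.trans ?_
    calc X ^ (2 / 3 + 1 / (k : ℝ)) ≤ X ^ (1 : ℝ) :=
          Real.rpow_le_rpow_of_exponent_le hX1 (by linarith)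
      _ = X := Real.rpow_one X
  set U := (hfinU M).toFinset with hU
  have hUm : ∀ S : Finset (Pr K), S ∈ U ↔ nn S ≤ M := by
    intro S
    rw [hU, Set.Finite.mem_toFinset]
    rfl
  have hsumM := hsum X hXs M hM1 hMX U (fun S hS => (hUm S).1 hS)
  rw [← hL] at hl hsumM hF
  have hsumM' : ∑ S ∈ U, (C2 * L) ^ S.card ≤ X ^ (2 / 3 + 2 / (k : ℝ)) := by
    refine hsumM.trans ((mul_le_mul_of_nonneg_right hMX' (by positivity)).trans (le_of_eq ?_))
    rw [← Real.rpow_add hX0]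
    congr 1
    ring
  -- a single term
  have hterm : ∀ S ∈ U, (C * L) ^ S.card * X ^ (1 / (k : ℝ)) ≤ X := by
    intro S hS
    have e1 : (C * L) ^ S.card ≤ (C2 * L) ^ S.card :=
      pow_le_pow_left₀ (by positivity) (mul_le_mul_of_nonneg_right hC2C (by linarith)) _
    have e2 : (C2 * L) ^ S.card ≤ ∑ S ∈ U, (C2 * L) ^ S.card :=
      Finset.single_le_sum (f := fun S : Finset (Pr K) => (C2 * L) ^ S.card)
        (fun _ _ => by positivity) hS
    calc (C * L) ^ S.card * X ^ (1 / (k : ℝ)) ≤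
        X ^ (2 / 3 + 2 / (k : ℝ)) * X ^ (1 / (k : ℝ)) :=
          mul_le_mul_of_nonneg_right (e1.trans (e2.trans hsumM')) (by positivity)
      _ = X ^ (2 / 3 + 3 / (k : ℝ)) := by
          rw [← Real.rpow_add hX0]
          congr 1
          ring
      _ ≤ X ^ (1 : ℝ) := by
          refine Real.rpow_le_rpow_of_exponent_le hX1 ?_
          have : 3 / (k : ℝ) = 3 * (1 / k) := by ring
          linarith
      _ = X := Real.rpow_one X
  obtain ⟨Fm, hFm⟩ : ∃ Fm : Finset (Pr K) → Finset K, Fm = fun S => F.filter fun x =>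
      (∃ (A B E : Fin 3) (p : Pr K), A ≠ B ∧ B ≠ E ∧ A ≠ E ∧ InP k S A B E x p ∧ Nv p ≤ X) ∧
      l ≤ (C * L) ^ S.card * X ^ (1 / (k : ℝ)) := ⟨_, rfl⟩
  have hsub : F ⊆ U.biUnion Fm := by
    intro x hx
    obtain ⟨a1, a2, S, A, B, E, p, hSM, hAB, hBE, hAE, hP, hpX, hlS⟩ := hF x hx
    rw [mem_biUnion]
    refine ⟨S, (hUm S).2 hSM, ?_⟩
    rw [hFm, mem_filter]
    exact ⟨hx, ⟨A, B, E, p, hAB, hBE, hAE, hP, hpX⟩, hlS⟩
  have hFmc : ∀ S ∈ U, ((Fm S).card : ℝ) ≤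
      D1 * X ^ (1 / (k : ℝ)) * X ^ (1 / (k : ℝ)) * (C2 * L) ^ S.card := by
    intro S hS
    rcases (Fm S).eq_empty_or_nonempty with he | ⟨t0, ht0⟩
    · rw [he, Finset.card_empty, Nat.cast_zero]
      positivity
    · have hSM := (hUm S).1 hS
      have hlthr : l ≤ (C * L) ^ S.card * X ^ (1 / (k : ℝ)) := by
        rw [hFm, mem_filter] at ht0
        exact ht0.2.2
      have h1 := hlow X hX1 (by rw [← hL]; exact hLL) l (by rw [← hL]; exact hl)
        (hlthr.trans (hterm S hS)) S (hSM.trans hMX) (Fm S) (by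
          intro t ht
          rw [hFm, mem_filter] at ht
          obtain ⟨b1, b2, -⟩ := ht
          exact ⟨(hF t b1).1, (hF t b1).2.1, b2⟩)
      refine h1.trans ?_
      calc D1 * X ^ (1 / (k : ℝ)) * l * ((2 : ℝ) ^ (99 * k)) ^ S.card ≤
          D1 * X ^ (1 / (k : ℝ)) * ((C * L) ^ S.card * X ^ (1 / (k : ℝ))) *
            ((2 : ℝ) ^ (99 * k)) ^ S.card :=
            mul_le_mul_of_nonneg_right (mul_le_mul_of_nonneg_left hlthr (by positivity))
              (by positivity)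
        _ = D1 * X ^ (1 / (k : ℝ)) * X ^ (1 / (k : ℝ)) * ((C * L) ^ S.card *
            ((2 : ℝ) ^ (99 * k)) ^ S.card) := by ring
        _ = D1 * X ^ (1 / (k : ℝ)) * X ^ (1 / (k : ℝ)) * (C2 * L) ^ S.card := by
            rw [← mul_pow, hC2]
            congr 2
            ring
  have h3 : (F.card : ℝ) ≤ ∑ S ∈ U, ((Fm S).card : ℝ) := by
    have := (Finset.card_le_card hsub).trans Finset.card_biUnion_le
    exact_mod_cast this
  refine (h3.trans (Finset.sum_le_sum hFmc)).trans ?_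
  rw [← Finset.mul_sum]
  calc D1 * X ^ (1 / (k : ℝ)) * X ^ (1 / (k : ℝ)) * ∑ S ∈ U, (C2 * L) ^ S.card ≤
      D1 * X ^ (1 / (k : ℝ)) * X ^ (1 / (k : ℝ)) * (M * X ^ (1 / (k : ℝ))) :=
        mul_le_mul_of_nonneg_left hsumM (by positivity)
    _ = D1 * (M * (X ^ (1 / (k : ℝ)) * X ^ (1 / (k : ℝ)) * X ^ (1 / (k : ℝ)))) := by ring
    _ = D1 * (M * X ^ (3 / (k : ℝ))) := by
        rw [← Real.rpow_add hX0, ← Real.rpow_add hX0]
        congr 3
        ring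

/-- the number of sets of primes -/
theorem card_setsM (K : Type) [Field K] [NumberField K] {k : ℕ} (hk : 9 ≤ k) :
    ∃ X0 : ℝ, 16 ≤ X0 ∧ ∀ X : ℝ, X0 ≤ X → ∀ M : ℝ, 1 ≤ M → M ≤ X ^ (2 / 3 + 1 / (k : ℝ)) →
      ∀ U : Finset (Finset (Pr K)),
      (∀ S ∈ U, nn S ≤ M) → (U.card : ℝ) ≤ M * X ^ (1 / (k : ℝ)) := by
  classical
  have hk0 : (0 : ℝ) < k := by
    have : 0 < k := by omega
    exact_mod_cast this
  have h1k : 0 < 1 / (k : ℝ) := by positivity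
  obtain ⟨X0, hX0, h⟩ := Pool.Agent.Y96.sum_bigK K 1 (1 / (k : ℝ)) le_rfl h1k
  refine ⟨X0, hX0, fun X hX M hM1 hMX' U hU => ?_⟩
  have hX16 : 16 ≤ X := hX0.trans hX
  have hX1 : 1 ≤ X := by linarith
  have hXpos : 0 < X := by linarith
  have hMX : M ≤ X := by
    refine le_trans (hMX'.trans (Real.rpow_le_rpow_of_exponent_le hX1 ?_)) (rpow_M_le hk hX1)
    have : 1 / (k : ℝ) ≤ 3 / k := div_le_div_of_nonneg_right (by norm_num) hk0.le
    linarith
  have h1 := h X hX _ hM1 hMX U hU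
  have hlog : 1 ≤ Real.log X := by
    have := Pool.Agent.TH876.Loc.log_facts hX16
    have := Real.exp_one_gt_d9
    linarith
  have h2 : (U.card : ℝ) ≤ ∑ S ∈ U, (1 * Real.log X) ^ S.card := by
    have h3 : ∑ S ∈ U, (1 : ℝ) ≤ ∑ S ∈ U, (1 * Real.log X) ^ S.card :=
      Finset.sum_le_sum fun S _ => one_le_pow₀ (by linarith)
    rw [Finset.sum_const, nsmul_eq_mul, mul_one] at h3
    exact h3
  exact h2.trans h1


variable {K : Type} [Field K] [NumberField K] {h r : ℕ} {Cc : ℝ} {ε : Fin r → 𝓞 K} {g : Pr K → 𝓞 K}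

/-- large heights -/
theorem high_genK (G : GD K h r Cc ε g) {k : ℕ} (hk : 9 ≤ k) (κh : ℕ) (hfam : FamL K k κh) :
    ∃ C : ℝ, 1 ≤ C ∧ ∃ D : ℝ, 0 < D ∧ ∃ X0 : ℝ, 16 ≤ X0 ∧
    ∀ X : ℝ, X0 ≤ X → ∀ M : ℝ, 1 ≤ M → M ≤ X ^ (2 / 3 + 1 / (k : ℝ)) →
    ∀ F : Finset K, (∀ x ∈ F, Pt x ∧ hgt x ≤ Real.exp (Real.log X ^ κh) ∧
      ∃ (S : Finset (Pr K)) (A B E : Fin 3) (p : Pr K), nn S ≤ M ∧
        A ≠ B ∧ B ≠ E ∧ A ≠ E ∧ InP k S A B E x p ∧ Nv p ≤ X ∧
        (C * Real.log X) ^ S.card * X ^ (1 / (k : ℝ)) < hgt x) →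
    (F.card : ℝ) ≤ D * (M * X ^ (4 / (k : ℝ))) := by
  classical
  have hk1 : 1 ≤ k := by omega
  have hk0 : (0 : ℝ) < k := by exact_mod_cast hk1
  have h1k : 0 < 1 / (k : ℝ) := by positivity
  obtain ⟨C, hC, Xf, hXf, hfew⟩ := few_primesK G hk1 h1k κh
  obtain ⟨D, hD, Xg, hXg, hF'⟩ := hfam
  obtain ⟨Xs, hXs, hsets⟩ := card_setsM K hk
  obtain ⟨Q, hQ⟩ : ∃ Q : ℝ, Q = (2 * k) ^ (2 * (k : ℝ)) := ⟨_, rfl⟩
  refine ⟨C, hC, D, hD, max (max Xf Xg) (max Xs Q), hXf.trans ((le_max_left _ _).trans (le_max_left _ _)),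
    fun X hX M hM1 hMX' F hF => ?_⟩
  have e1 : Xf ≤ X := ((le_max_left _ _).trans (le_max_left _ _)).trans hX
  have e2 : Xg ≤ X := ((le_max_right _ _).trans (le_max_left _ _)).trans hX
  have e3 : Xs ≤ X := ((le_max_left _ _).trans (le_max_right _ _)).trans hX
  have e4 : Q ≤ X := ((le_max_right _ _).trans (le_max_right _ _)).trans hX
  have hX16 : 16 ≤ X := hXf.trans e1
  have hX1 : 1 ≤ X := by linarith
  have hXpos : 0 < X := by linarith
  have hlog : 1 ≤ Real.log X := by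
    have := Pool.Agent.TH876.Loc.log_facts hX16
    have := Real.exp_one_gt_d9
    linarith
  -- `log X ≤ X ^ (1/k)`
  have hlogX : Real.log X ≤ X ^ (1 / (k : ℝ)) := by
    have h1 : Real.log X ≤ X ^ (1 / (2 * (k : ℝ))) / (1 / (2 * (k : ℝ))) :=
      Real.log_le_rpow_div hXpos.le (by positivity)
    have h2 : X ^ (1 / (2 * (k : ℝ))) / (1 / (2 * (k : ℝ))) = 2 * k * X ^ (1 / (2 * (k : ℝ))) := by
      field_simp
    have h3 : 2 * (k : ℝ) ≤ X ^ (1 / (2 * (k : ℝ))) := by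
      have h4 : Q ^ (1 / (2 * (k : ℝ))) ≤ X ^ (1 / (2 * (k : ℝ))) :=
        Real.rpow_le_rpow (by rw [hQ]; positivity) e4 (by positivity)
      have h5 : Q ^ (1 / (2 * (k : ℝ))) = 2 * k := by
        rw [hQ, ← Real.rpow_mul (by positivity)]
        have : 2 * (k : ℝ) * (1 / (2 * (k : ℝ))) = 1 := by field_simp
        rw [this, Real.rpow_one]
      linarith
    have h6 : X ^ (1 / (k : ℝ)) = X ^ (1 / (2 * (k : ℝ))) * X ^ (1 / (2 * (k : ℝ))) := by
      rw [← Real.rpow_add hXpos]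
      congr 1
      field_simp
      norm_num
    rw [h6]
    rw [h2] at h1
    exact h1.trans (mul_le_mul_of_nonneg_right h3 (by positivity))
  rcases F.eq_empty_or_nonempty with hFe | ⟨x0, hx0⟩
  · rw [hFe, Finset.card_empty, Nat.cast_zero]
    positivity
  obtain ⟨_, _, _, _, _, _, p0, _⟩ := hF x0 hx0
  have hexF : ∀ x : K, ∃ (S : Finset (Pr K)) (A B E : Fin 3) (p : Pr K), x ∈ F →
      nn S ≤ M ∧
        A ≠ B ∧ B ≠ E ∧ A ≠ E ∧ InP k S A B E x p ∧ Nv p ≤ X ∧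
        (C * Real.log X) ^ S.card * X ^ (1 / (k : ℝ)) < hgt x := by
    intro x
    by_cases hx : x ∈ F
    · obtain ⟨_, _, S, A, B, E, p, hh⟩ := hF x hx
      exact ⟨S, A, B, E, p, fun _ => hh⟩
    · exact ⟨∅, 0, 0, 0, p0, fun h => absurd h hx⟩
  choose Sx Ax Bx Ex px hx using hexF
  obtain ⟨U, hU⟩ : ∃ U, U = F.image Sx := ⟨_, rfl⟩
  obtain ⟨R, hR⟩ : ∃ R : Finset (Pr K) → Finset (Pr K), R = fun S =>
    (F.filter fun x => Sx x = S).image px := ⟨_, rfl⟩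
  obtain ⟨W, hW⟩ : ∃ W, W = F.image fun x => insert (px x) (Sx x) := ⟨_, rfl⟩
  have hUc : (U.card : ℝ) ≤ M * X ^ (1 / (k : ℝ)) := by
    refine hsets X e3 M hM1 hMX' U fun S hS => ?_
    rw [hU, Finset.mem_image] at hS
    obtain ⟨x, hxF, rfl⟩ := hS
    exact (hx x hxF).1
  have hRc : ∀ S ∈ U, ((R S).card : ℝ) ≤ X ^ (1 / (k : ℝ)) := by
    intro S hS
    refine hfew X e1 S (R S) ?_ ?_ ?_
    · rw [hU, Finset.mem_image] at hS
      obtain ⟨x, hxF, rfl⟩ := hS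
      refine (hx x hxF).1.trans (hMX'.trans ?_)
      refine le_trans (Real.rpow_le_rpow_of_exponent_le hX1 ?_) (rpow_M_le hk hX1)
      have : 1 / (k : ℝ) ≤ 3 / k := div_le_div_of_nonneg_right (by norm_num) hk0.le
      linarith
    · intro p hp
      rw [hR, Finset.mem_image] at hp
      obtain ⟨x, hx1, rfl⟩ := hp
      obtain ⟨hxF, rfl⟩ := Finset.mem_filter.1 hx1
      obtain ⟨a1, a2, a3, a4, a5, a6, a7⟩ := hx x hxF
      exact ⟨a5.pS, a6⟩
    · intro p hp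
      rw [hR, Finset.mem_image] at hp
      obtain ⟨x, hx1, rfl⟩ := hp
      obtain ⟨hxF, rfl⟩ := Finset.mem_filter.1 hx1
      obtain ⟨a1, a2, a3, a4, a5, a6, a7⟩ := hx x hxF
      exact ⟨Ax x, Bx x, Ex x, x, a2, a3, a4, (hF x hxF).1, a5, a7, (hF x hxF).2.1⟩
  have hWc : (W.card : ℝ) ≤ M * X ^ (2 / (k : ℝ)) := by
    have h1 : W ⊆ U.biUnion fun S => (R S).image fun p => insert p S := by
      intro T hT
      rw [hW, Finset.mem_image] at hT
      obtain ⟨x, hxF, rfl⟩ := hT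
      rw [Finset.mem_biUnion]
      refine ⟨Sx x, by rw [hU]; exact Finset.mem_image_of_mem _ hxF, ?_⟩
      rw [Finset.mem_image]
      refine ⟨px x, ?_, rfl⟩
      rw [hR, Finset.mem_image]
      exact ⟨x, Finset.mem_filter.2 ⟨hxF, rfl⟩, rfl⟩
    have h2 : W.card ≤ ∑ S ∈ U, (R S).card := by
      refine (Finset.card_le_card h1).trans (Finset.card_biUnion_le.trans ?_)
      exact Finset.sum_le_sum fun S _ => Finset.card_image_le
    have h3 : (W.card : ℝ) ≤ ∑ S ∈ U, ((R S).card : ℝ) := by exact_mod_cast h2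
    refine h3.trans ((Finset.sum_le_sum hRc).trans ?_)
    rw [Finset.sum_const, nsmul_eq_mul]
    refine (mul_le_mul_of_nonneg_right hUc (by positivity)).trans (le_of_eq ?_)
    rw [mul_assoc, ← Real.rpow_add hXpos]
    congr 2
    ring
  have hmain := hF' X e2 W (by
      intro T hT
      rw [hW, Finset.mem_image] at hT
      obtain ⟨x, hxF, rfl⟩ := hT
      obtain ⟨a1, a2, a3, a4, a5, a6, a7⟩ := hx x hxF
      rw [nn_insert a5.pS, sq]
      refine mul_le_mul a6 (a1.trans (hMX'.trans ?_)) (nn_pos _).le hXpos.le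
      refine le_trans (Real.rpow_le_rpow_of_exponent_le hX1 ?_) (rpow_M_le hk hX1)
      have : 1 / (k : ℝ) ≤ 3 / k := div_le_div_of_nonneg_right (by norm_num) hk0.le
      linarith) F (by
      intro x hxF
      obtain ⟨a1, a2, a3, a4, a5, a6, a7⟩ := hx x hxF
      obtain ⟨b1, b2, _⟩ := hF x hxF
      refine ⟨b1, ?_, b2, insert (px x) (Sx x), ?_, InP_light b1 a2 a3 a4 a5⟩
      · have h1 : 1 ≤ (C * Real.log X) ^ (Sx x).card := one_le_pow₀ (by nlinarith)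
        have h2 : 0 ≤ X ^ (1 / (k : ℝ)) := by positivity
        nlinarith
      · rw [hW]
        exact Finset.mem_image_of_mem _ hxF)
  refine hmain.trans ?_
  calc D * W.card * X ^ (2 / (k : ℝ)) ≤ D * (M * X ^ (2 / (k : ℝ))) * X ^ (2 / (k : ℝ)) :=
        mul_le_mul_of_nonneg_right (mul_le_mul_of_nonneg_left hWc hD.le) (by positivity)
    _ = D * (M * (X ^ (2 / (k : ℝ)) * X ^ (2 / (k : ℝ)))) := by ring
    _ = D * (M * X ^ (4 / (k : ℝ))) := by
        rw [← Real.rpow_add hXpos]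
        congr 3
        ring


end Pool.Agent.Y728
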