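import Pool.Agent.Y728.Cheap

/-!
The points with a cheap set of prescribed primes (helper728).
-/

set_option autoImplicit false

namespace Pool.Agent.Y728

open Finset NumberField IsDedekindDomain Pool.Agent.H691R3 Pool.Agent.TH876.Loc
open Pool.Agent.TH876.KR (InP aw log_Nv_pos' log_nn side mem_side df_eq_zero Light Sc rho rho_gt
  scales small_total fiber_small all_heights choice rr_sum' side_sub)

/-- **points with a cheap set**: `S` of norm at most `M` -/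
theorem cheapK (K : Type) [Field K] [NumberField K] {k : ℕ} (hk9 : 9 ≤ k) {η : ℝ} (hη : 0 < η) :
    ∃ D : ℝ, 0 < D ∧ ∃ X0 : ℝ, 16 ≤ X0 ∧ ∀ X : ℝ, X0 ≤ X → ∀ M : ℝ, 1 ≤ M →
    M ≤ X ^ (2 / 3 + 1 / (k : ℝ)) → ∀ F : Finset K, (∀ x ∈ F, Pt x ∧ nn (sp x) ≤ X ∧
      ∃ S : Finset (Pr K), nn S ≤ M ∧ ((Real.log X ≤ hgt x ∧ Light k S x) ∨
        (Real.log X ^ (2 + η) ≤ hgt x ∧ ∃ (A B E : Fin 3) (p : Pr K), A ≠ B ∧ B ≠ E ∧ A ≠ E ∧
          InP k S A B E x p))) →
    (F.card : ℝ) ≤ D * (M * X ^ (5 / (k : ℝ))) := by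
  classical
  obtain ⟨h, r, Cc, εu, g, G⟩ := exists_GD K
  have hk1 : 1 ≤ k := by omega
  have hkp : (0 : ℝ) < k := by exact_mod_cast hk1
  have h1k : 0 < 1 / (k : ℝ) := by positivity
  obtain ⟨Ch, hCh, Xh, hXh, hhuge⟩ := few_high G
  have hfamL : FamL K k 8 := Pool.Agent.Y492.fam_lightK K (by omega) 8
  obtain ⟨C, hC, D1, hD1, X1, hX1, hhigh⟩ := high_genK G hk9 8 hfamL
  obtain ⟨D2, hD2, X2, hX2, hlow'⟩ := low_genK K hk9 hC hη
  obtain ⟨D3, hD3, X3, hX3, hfam'⟩ := hfamL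
  obtain ⟨X4, hX4, hsets⟩ := card_setsM K hk9
  obtain ⟨D4, hD4, hlog⟩ := log_pow_leK 8 h1k
  have hρ := rho_gt hk1
  have hlρ : 0 < Real.log (rho k) := Real.log_pos hρ
  obtain ⟨X0, hX0e⟩ : ∃ X0, X0 = max (max (max X1 X2) (max X3 X4)) Xh := ⟨_, rfl⟩
  have hX016 : 16 ≤ X0 := by
    rw [hX0e]
    exact hX1.trans ((le_max_left _ _).trans ((le_max_left _ _).trans (le_max_left _ _)))
  obtain ⟨DD, hDD⟩ : ∃ DD, DD = Ch + D3 + D1 + (1 + 1 / Real.log (rho k)) * D4 * D2 := ⟨_, rfl⟩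
  have hDD0 : 0 < DD := by rw [hDD]; positivity
  refine ⟨DD, hDD0, X0, hX016, fun X hX0X M hM1 hMX F hF => ?_⟩
  have hX16 : 16 ≤ X := hX016.trans hX0X
  have hX : 1 ≤ X := by linarith
  have hXp : 0 < X := by linarith
  have hXX : max (max X1 X2) (max X3 X4) ≤ X := by
    rw [hX0e] at hX0X
    exact (le_max_left _ _).trans hX0X
  have hXX1 : X1 ≤ X := ((le_max_left _ _).trans (le_max_left _ _)).trans hXX
  have hXX2 : X2 ≤ X := ((le_max_right _ _).trans (le_max_left _ _)).trans hXX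
  have hXX3 : X3 ≤ X := ((le_max_left _ _).trans (le_max_right _ _)).trans hXX
  have hXX4 : X4 ≤ X := ((le_max_right _ _).trans (le_max_right _ _)).trans hXX
  have hXX5 : Xh ≤ X := by
    rw [hX0e] at hX0X
    exact (le_max_right _ _).trans hX0X
  have hM0 : 0 < M := by linarith
  have hMle : M ≤ X := by
    refine hMX.trans (le_trans (Real.rpow_le_rpow_of_exponent_le hX ?_) (rpow_M_le hk9 hX))
    have : 1 / (k : ℝ) ≤ 3 / k := div_le_div_of_nonneg_right (by norm_num) hkp.le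
    linarith
  obtain ⟨L, hL⟩ : ∃ L, L = Real.log X := ⟨_, rfl⟩
  have hL1' : 1 ≤ L := by
    have := Pool.Agent.TH876.Loc.log_facts hX16
    have := Real.exp_one_gt_d9
    rw [hL]
    linarith
  have hL0 : 0 < L := by linarith
  obtain ⟨l0, hl0⟩ : ∃ l0, l0 = L ^ (2 + η) := ⟨_, rfl⟩
  have hl0L : L ≤ l0 := by
    have h1 : L ^ (1 : ℝ) ≤ L ^ (2 + η) := Real.rpow_le_rpow_of_exponent_le hL1' (by linarith)
    rw [Real.rpow_one] at h1
    rw [hl0]
    exact h1
  have hl01 : 1 ≤ l0 := by linarith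
  have hl00 : 0 < l0 := by linarith
  obtain ⟨H, hH⟩ : ∃ H, H = Real.exp (L ^ 8) := ⟨_, rfl⟩
  have hlH : Real.log H = L ^ 8 := by rw [hH, Real.log_exp]
  have hH1 : 1 ≤ H := by
    rw [hH]
    exact Real.one_le_exp (by positivity)
  have hlogH : 1 + Real.log H ≤ D4 * X ^ (1 / (k : ℝ)) := by
    rw [hlH, hL]
    exact hlog X hX
  -- the four parts
  obtain ⟨F2, hF2⟩ : ∃ F2, F2 = F.filter fun x => H < hgt x := ⟨_, rfl⟩
  obtain ⟨FL, hFL⟩ : ∃ FL, FL = F.filter fun x => (L ≤ hgt x ∧ hgt x ≤ H) ∧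
    ∃ S : Finset (Pr K), nn S ≤ M ∧ Light k S x := ⟨_, rfl⟩
  obtain ⟨FH, hFH⟩ : ∃ FH, FH = F.filter fun x => (l0 ≤ hgt x ∧ hgt x ≤ H) ∧
    ∃ (S : Finset (Pr K)) (A B E : Fin 3) (p : Pr K), nn S ≤ M ∧
        A ≠ B ∧ B ≠ E ∧ A ≠ E ∧ InP k S A B E x p ∧ Nv p ≤ X ∧
        (C * L) ^ S.card * X ^ (1 / (k : ℝ)) < hgt x := ⟨_, rfl⟩
  obtain ⟨FW, hFW⟩ : ∃ FW, FW = F.filter fun x => (l0 ≤ hgt x ∧ hgt x ≤ H) ∧
    ∃ (S : Finset (Pr K)) (A B E : Fin 3) (p : Pr K), nn S ≤ M ∧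
        A ≠ B ∧ B ≠ E ∧ A ≠ E ∧ InP k S A B E x p ∧ Nv p ≤ X ∧
        hgt x ≤ (C * L) ^ S.card * X ^ (1 / (k : ℝ)) := ⟨_, rfl⟩
  have hcov : F ⊆ F2 ∪ (FL ∪ (FH ∪ FW)) := by
    intro x hx
    obtain ⟨a1, a2, S, hnnS, hgood⟩ := hF x hx
    rcases lt_or_ge H (hgt x) with h2 | h2
    · refine Finset.mem_union_left _ ?_
      rw [hF2]
      exact Finset.mem_filter.2 ⟨hx, h2⟩
    refine Finset.mem_union_right _ ?_
    rcases hgood with ⟨h1, hg⟩ | ⟨h1, A, B, E, p, hAB, hBE, hAE, hP⟩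
    · refine Finset.mem_union_left _ ?_
      rw [hFL]
      rw [← hL] at h1
      exact Finset.mem_filter.2 ⟨hx, ⟨h1, h2⟩, S, hnnS, hg⟩
    · refine Finset.mem_union_right _ ?_
      rw [← hL, ← hl0] at h1
      have hpX : Nv p ≤ X := (Nv_le_nn (side_sub B x hP.pB)).trans a2
      rcases lt_or_ge ((C * L) ^ S.card * X ^ (1 / (k : ℝ))) (hgt x) with h3 | h3
      · refine Finset.mem_union_left _ ?_
        rw [hFH]
        exact Finset.mem_filter.2 ⟨hx, ⟨h1, h2⟩, S, A, B, E, p, hnnS, hAB, hBE, hAE, hP, hpX, h3⟩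
      · refine Finset.mem_union_right _ ?_
        rw [hFW]
        exact Finset.mem_filter.2 ⟨hx, ⟨h1, h2⟩, S, A, B, E, p, hnnS, hAB, hBE, hAE, hP, hpX, h3⟩
  have d2 : (F2.card : ℝ) ≤ Ch := hhuge X hXX5 F2 (fun x hx => by
      rw [hF2, mem_filter] at hx
      exact ⟨(hF x hx.1).1, (hF x hx.1).2.1, by rw [← hL, ← hH]; exact hx.2⟩)
  have hexp : ∀ a : ℝ, a ≤ 5 → M * X ^ (a / (k : ℝ)) ≤ M * X ^ (5 / (k : ℝ)) := by
    intro a ha
    refine mul_le_mul_of_nonneg_left (Real.rpow_le_rpow_of_exponent_le hX ?_) hM0.le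
    exact div_le_div_of_nonneg_right ha hkp.le
  obtain ⟨Q, hQ⟩ : ∃ Q, Q = M * X ^ (5 / (k : ℝ)) := ⟨_, rfl⟩
  have hQ1 : 1 ≤ Q := by
    rw [hQ]
    have : 1 ≤ X ^ (5 / (k : ℝ)) := Real.one_le_rpow hX (by positivity)
    nlinarith
  rw [← hQ] at hexp ⊢
  -- light points
  have dL : (FL.card : ℝ) ≤ D3 * Q := by
    have hex : ∀ x : K, ∃ S : Finset (Pr K), x ∈ FL → nn S ≤ M ∧ Light k S x := by
      intro x
      by_cases hx : x ∈ FL
      · rw [hFL, mem_filter] at hx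
        obtain ⟨_, _, S, hS⟩ := hx
        exact ⟨S, fun _ => hS⟩
      · exact ⟨∅, fun hh => absurd hh hx⟩
    choose Sx hSx using hex
    obtain ⟨W, hW⟩ : ∃ W, W = FL.image Sx := ⟨_, rfl⟩
    have hWc : (W.card : ℝ) ≤ M * X ^ (1 / (k : ℝ)) := by
      refine hsets X hXX4 M hM1 hMX W fun S hS => ?_
      rw [hW, Finset.mem_image] at hS
      obtain ⟨x, hx, rfl⟩ := hS
      exact (hSx x hx).1
    have h1 := hfam' X hXX3 W (by
        intro S hS
        rw [hW, Finset.mem_image] at hS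
        obtain ⟨x, hx, rfl⟩ := hS
        refine (hSx x hx).1.trans (hMle.trans ?_)
        nlinarith) FL (by
        intro x hx
        have h2 := hSx x hx
        have hx' := hx
        rw [hFL, mem_filter] at hx'
        obtain ⟨b1, ⟨b2, b3⟩, _⟩ := hx'
        refine ⟨(hF x b1).1, ?_, ?_, Sx x, ?_, h2.2⟩
        · rw [← hL]
          exact b2
        · rw [← hL, ← hH]
          exact b3
        · rw [hW]
          exact Finset.mem_image_of_mem _ hx)
    calc (FL.card : ℝ) ≤ D3 * W.card * X ^ (2 / (k : ℝ)) := h1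
      _ ≤ D3 * (M * X ^ (1 / (k : ℝ))) * X ^ (2 / (k : ℝ)) :=
          mul_le_mul_of_nonneg_right (mul_le_mul_of_nonneg_left hWc hD3.le) (by positivity)
      _ = D3 * (M * (X ^ (1 / (k : ℝ)) * X ^ (2 / (k : ℝ)))) := by ring
      _ = D3 * (M * X ^ (3 / (k : ℝ))) := by
          rw [← Real.rpow_add hXp]
          congr 3
          ring
      _ ≤ D3 * Q := mul_le_mul_of_nonneg_left (hexp 3 (by norm_num)) hD3.le
  -- large heights
  have dH : (FH.card : ℝ) ≤ D1 * Q := by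
    have h1 := hhigh X hXX1 M hM1 hMX FH (fun x hx => by
      rw [hFH, mem_filter] at hx
      obtain ⟨b1, ⟨b2, b3⟩, b4⟩ := hx
      rw [← hL]
      exact ⟨(hF x b1).1, by rw [← hH]; exact b3, b4⟩)
    exact h1.trans (mul_le_mul_of_nonneg_left (hexp 4 (by norm_num)) hD1.le)
  -- small heights
  have dW : (FW.card : ℝ) ≤ (1 + 1 / Real.log (rho k)) * D4 * D2 * Q := by
    rcases lt_or_ge H l0 with hHl | hHl
    · have : FW = ∅ := by
        rw [Finset.eq_empty_iff_forall_notMem]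
        intro x hx
        rw [hFW, mem_filter] at hx
        obtain ⟨b1, ⟨b2, b3⟩, b4⟩ := hx
        linarith
      rw [this, Finset.card_empty, Nat.cast_zero]
      positivity
    obtain ⟨J, hJ, hcard⟩ := scales hk1 hl00 hHl FW (by
      intro x hx
      rw [hFW, mem_filter] at hx
      exact hx.2.1)
    have h1 : ∀ j ∈ Finset.range (J + 1), ((FW.filter fun x => Sc k (l0 * rho k ^ j) x).card : ℝ) ≤
        D2 * (M * X ^ (3 / (k : ℝ))) := by
      intro j _
      have p1 : 1 ≤ rho k ^ j := one_le_pow₀ hρ.le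
      have p2 : l0 ≤ l0 * rho k ^ j := le_mul_of_one_le_right hl00.le p1
      refine hlow' X hXX2 M hM1 hMX (l0 * rho k ^ j) (by rw [← hL, ← hl0]; exact p2) _ ?_
      intro x hx
      obtain ⟨h2, h3⟩ := Finset.mem_filter.1 hx
      rw [hFW, mem_filter] at h2
      obtain ⟨b1, _, S, A, B, E, p, c1, c2, c3, c4, c5, c6, c7⟩ := h2
      refine ⟨(hF x b1).1, h3, S, A, B, E, p, c1, c2, c3, c4, c5, c6, ?_⟩
      rw [← hL]
      exact h3.1.trans c7
    have h2 : (FW.card : ℝ) ≤ ∑ j ∈ Finset.range (J + 1),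
        ((FW.filter fun x => Sc k (l0 * rho k ^ j) x).card : ℝ) := by exact_mod_cast hcard
    have h4 := h2.trans (Finset.sum_le_sum h1)
    rw [Finset.sum_const, Finset.card_range, nsmul_eq_mul] at h4
    have hJ1 : ((J + 1 : ℕ) : ℝ) ≤ (1 + 1 / Real.log (rho k)) * D4 * X ^ (1 / (k : ℝ)) := by
      have e1 : rho k ^ J ≤ H := by
        refine le_trans ?_ hJ
        exact le_mul_of_one_le_left (by positivity) hl01
      have e2 := Real.log_le_log (by positivity) e1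
      rw [Real.log_pow] at e2
      have e3 : (J : ℝ) ≤ 1 / Real.log (rho k) * Real.log H := by
        rw [one_div, ← div_eq_inv_mul, le_div_iff₀ hlρ]
        exact e2
      have e4 : 0 ≤ Real.log H := Real.log_nonneg hH1
      have e5 : 0 < 1 / Real.log (rho k) := by positivity
      calc ((J + 1 : ℕ) : ℝ) = (J : ℝ) + 1 := by push_cast; ring
        _ ≤ (1 + 1 / Real.log (rho k)) * (1 + Real.log H) := by
            have : (1 + 1 / Real.log (rho k)) * (1 + Real.log H) =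
              1 + Real.log H + 1 / Real.log (rho k) + 1 / Real.log (rho k) * Real.log H := by ring
            rw [this]
            linarith only [e3, e4, e5]
        _ ≤ (1 + 1 / Real.log (rho k)) * (D4 * X ^ (1 / (k : ℝ))) :=
            mul_le_mul_of_nonneg_left hlogH (by positivity)
        _ = _ := by ring
    have c0 : 0 ≤ (1 + 1 / Real.log (rho k)) * D4 * D2 := by
      have : 0 < 1 / Real.log (rho k) := by positivity
      positivity
    calc (FW.card : ℝ) ≤ ((J + 1 : ℕ) : ℝ) * (D2 * (M * X ^ (3 / (k : ℝ)))) := h4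
      _ ≤ ((1 + 1 / Real.log (rho k)) * D4 * X ^ (1 / (k : ℝ))) *
            (D2 * (M * X ^ (3 / (k : ℝ)))) := mul_le_mul_of_nonneg_right hJ1 (by positivity)
      _ = (1 + 1 / Real.log (rho k)) * D4 * D2 *
          (M * (X ^ (1 / (k : ℝ)) * X ^ (3 / (k : ℝ)))) := by ring
      _ = (1 + 1 / Real.log (rho k)) * D4 * D2 * (M * X ^ (4 / (k : ℝ))) := by
          rw [← Real.rpow_add hXp]
          congr 3
          ring
      _ ≤ _ := mul_le_mul_of_nonneg_left (hexp 4 (by norm_num)) c0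
  have hcard : (F.card : ℝ) ≤ F2.card + (FL.card + (FH.card + FW.card)) := by
    have h1 := Finset.card_le_card hcov
    have h3 := Finset.card_union_le F2 (FL ∪ (FH ∪ FW))
    have h4 := Finset.card_union_le FL (FH ∪ FW)
    have h5 := Finset.card_union_le FH FW
    have h6 : F.card ≤ F2.card + (FL.card + (FH.card + FW.card)) := by omega
    exact_mod_cast h6
  have hCh' : Ch ≤ Ch * Q := le_mul_of_one_le_right hCh.le hQ1
  calc (F.card : ℝ) ≤ Ch * Q + (D3 * Q +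
        (D1 * Q + (1 + 1 / Real.log (rho k)) * D4 * D2 * Q)) := by
        linarith only [hcard, d2, dL, dH, dW, hCh']
    _ = DD * Q := by rw [hDD]; ring

end Pool.Agent.Y728
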