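import Pool.Agent.Y728.Schw

/-!
The extrapolation step in a local domain (helper728, after helper867).
-/

set_option autoImplicit false
set_option linter.unusedSectionVars false

namespace Pool.Agent.Y728

open Finset Polynomial

section GG

variable {C : Type*} [CommRing C] {ι : Type*} [Fintype ι] {k : ℕ}

/-- the values of the auxiliary functions -/
def GG (P : ι → C) (δ : ι → Fin k → ℤ) (x : ι → C) (m : Fin k → ℕ) (z : ℕ) : C :=
  ∑ l, P l * (∏ j, (δ l j : C) ^ m j) * x l ^ z

/-- the same with a polynomial -/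
noncomputable def GQ (P : ι → C) (δ : ι → Fin k → ℤ) (x : ι → C) (Q : MvPolynomial (Fin k) C)
    (z : ℕ) : C :=
  ∑ l, P l * MvPolynomial.eval (fun j => (δ l j : C)) Q * x l ^ z

theorem GQ_zero (P : ι → C) (δ : ι → Fin k → ℤ) (x : ι → C) {T z : ℕ}
    (h : ∀ m : Fin k → ℕ, ∑ j, m j < T → GG P δ x m z = 0)
    (Q : MvPolynomial (Fin k) C) (hQ : Q.totalDegree < T) : GQ P δ x Q z = 0 := by
  have h1 : GQ P δ x Q z = ∑ m ∈ Q.support, Q.coeff m * GG P δ x m z := by
    rw [GQ]
    simp_rw [GG, Finset.mul_sum]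
    rw [Finset.sum_comm]
    apply Finset.sum_congr rfl
    intro l _
    rw [MvPolynomial.eval_eq', Finset.mul_sum, Finset.sum_mul]
    apply Finset.sum_congr rfl
    intro m _
    ring
  rw [h1]
  apply Finset.sum_eq_zero
  intro m hm
  rw [h m, mul_zero]
  refine lt_of_le_of_lt ?_ hQ
  have h2 := MvPolynomial.le_totalDegree hm
  rw [Finsupp.sum_fintype _ _ (fun _ => rfl)] at h2
  exact h2

theorem GG_map {D : Type*} [CommRing D] (f : C →+* D) (P : ι → C) (δ : ι → Fin k → ℤ) (x : ι → C)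
    (m : Fin k → ℕ) (z : ℕ) :
    f (GG P δ x m z) = GG (fun l => f (P l)) δ (fun l => f (x l)) m z := by
  unfold GG
  rw [map_sum]
  refine Finset.sum_congr rfl fun l _ => ?_
  rw [map_mul, map_mul, map_prod, map_pow]
  congr 2
  refine Finset.prod_congr rfl fun j _ => ?_
  rw [map_pow, map_intCast]

theorem GG_scale (P : ι → C) (δ : ι → Fin k → ℤ) (x y : ι → C) (c : C) (h : ∀ l, x l = c * y l)
    (m : Fin k → ℕ) (z : ℕ) : GG P δ x m z = c ^ z * GG P δ y m z := by
  unfold GG
  rw [Finset.mul_sum]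
  refine Finset.sum_congr rfl fun l _ => ?_
  rw [h l, mul_pow]
  ring

/-- the linear form as a polynomial -/
noncomputable def LF (a0 : C) (a : Fin k → C) : MvPolynomial (Fin k) C :=
  MvPolynomial.C a0 + ∑ j, MvPolynomial.C (a j) * MvPolynomial.X j

theorem LF_deg (a0 : C) (a : Fin k → C) : (LF a0 a).totalDegree ≤ 1 := by
  unfold LF
  refine (MvPolynomial.totalDegree_add _ _).trans (max_le ?_ ?_)
  · rw [MvPolynomial.totalDegree_C]
    omega
  · apply MvPolynomial.totalDegree_finsetSum_le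
    intro j _
    refine (MvPolynomial.totalDegree_mul _ _).trans ?_
    rw [MvPolynomial.totalDegree_C, zero_add]
    by_cases h : Nontrivial C
    · exact (MvPolynomial.totalDegree_X j).le
    · have : Subsingleton C := not_nontrivial_iff_subsingleton.1 h
      have e : (MvPolynomial.X j : MvPolynomial (Fin k) C) = 0 := Subsingleton.elim _ _
      rw [e, MvPolynomial.totalDegree_zero]
      omega

theorem LF_eval (a0 : C) (a : Fin k → C) (d : Fin k → C) :
    MvPolynomial.eval d (LF a0 a) = a0 + ∑ j, a j * d j := by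
  unfold LF
  simp

theorem mon_deg (m : Fin k → ℕ) :
    (MvPolynomial.monomial (Finsupp.equivFunOnFinite.symm m) (1 : C)).totalDegree ≤ ∑ j, m j := by
  refine (MvPolynomial.totalDegree_monomial_le _ _).trans ?_
  rw [Finsupp.sum_fintype _ _ (fun _ => rfl)]
  exact le_of_eq (Finset.sum_congr rfl fun _ _ => rfl)

theorem mon_eval (m : Fin k → ℕ) (d : Fin k → C) :
    MvPolynomial.eval d (MvPolynomial.monomial (Finsupp.equivFunOnFinite.symm m) (1 : C)) =
      ∏ j, d j ^ m j := by
  rw [MvPolynomial.eval_monomial, one_mul, Finsupp.prod_fintype _ _ (fun i => pow_zero _)]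
  rfl

/-- the sums with powers of a linear form vanish -/
theorem GL_zero (P : ι → C) (δ : ι → Fin k → ℤ) (x : ι → C) {T τ z : ℕ}
    (h : ∀ m : Fin k → ℕ, ∑ j, m j < T + τ → GG P δ x m z = 0)
    (m : Fin k → ℕ) (hm : ∑ j, m j < T) (a0 : C) (a : Fin k → C) {i : ℕ} (hi : i < τ) :
    ∑ l, P l * (∏ j, (δ l j : C) ^ m j) * (a0 + ∑ j, a j * (δ l j : C)) ^ i * x l ^ z = 0 := by
  have h1 := GQ_zero P δ x (z := z) (T := T + τ) h
    (MvPolynomial.monomial (Finsupp.equivFunOnFinite.symm m) (1 : C) * LF a0 a ^ i) (by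
      have h2 := MvPolynomial.totalDegree_mul
        (MvPolynomial.monomial (Finsupp.equivFunOnFinite.symm m) (1 : C)) (LF a0 a ^ i)
      have h3 := MvPolynomial.totalDegree_pow (LF a0 a) i
      have h4 : i * (LF a0 a).totalDegree ≤ i * 1 := Nat.mul_le_mul_left _ (LF_deg a0 a)
      have h5 := mon_deg (C := C) m
      omega)
  rw [GQ] at h1
  rw [← h1]
  refine Finset.sum_congr rfl fun l _ => ?_
  rw [map_mul, map_pow, mon_eval, LF_eval]
  ring

end GG

variable {R : Type*} [CommRing R] [IsDomain R] [CharZero R] {p : ℕ}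
variable {ι : Type*} [Fintype ι] {k : ℕ}

theorem qm_EE (hR : RP R p) {K E : ℕ} (hK : E ≤ K) (hK0 : 0 < K) (A : R) (n : ℕ) :
    qm R p E (EE p K (A * n)) = qm R p E (EE p K A) ^ n := by
  have h := EE_nsmul (p := p) hR hK0 n A
  have h2 : (p : R) ^ E ∣ EE p K (A * n) - (EE p K A) ^ n := by
    rw [mul_comm A]
    exact (pow_dvd_pow _ (by omega)).trans h
  rw [← qm_eq_zero, map_sub, sub_eq_zero, map_pow] at h2
  exact h2

theorem extraR (hR : RP R p) {K E T τ Z d ν : ℕ} (P : ι → R) (δ : ι → Fin k → ℤ) (x : ι → R)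
    (A : ι → R) (a0 : R) (a : Fin k → R) (β : ℕ) (hβ0 : β ≠ 0) (hβ : padicValNat p β ≤ ν)
    (hK : E ≤ K) (hK0 : 0 < K)
    (hx : ∀ l, (p : R) ^ E ∣ x l - EE p K (A l))
    (hA : ∀ l, (p : R) ^ E ∣ (β : R) * A l - (a0 + ∑ i, a i * (δ l i : R)))
    (H : ∀ m : Fin k → ℕ, ∑ j, m j < T + τ → ∀ z < Z, GG P δ x m z = 0)
    (hd : d ≤ τ * Z) (hE : d + τ ^ 2 * Z + ν * τ ≤ E) (m : Fin k → ℕ)
    (hm : ∑ j, m j < T) (n : ℕ) : (p : R) ^ d ∣ GG P δ x m n := by
  obtain ⟨π, hπ⟩ : ∃ π : R →+* R ⧸ Ideal.span {(p : R) ^ E}, π = qm R p E := ⟨_, rfl⟩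
  obtain ⟨c, hc⟩ : ∃ c : ι → R, c = fun l => P l * ∏ j, (δ l j : R) ^ m j := ⟨_, rfl⟩
  obtain ⟨F, hFdef⟩ : ∃ F : R[X], F = ∑ l, C (c l) * EP p K (A l) := ⟨_, rfl⟩
  have hF : ∀ j, (p : R) ^ j ∣ F.coeff j := by
    intro j
    rw [hFdef, Polynomial.finsetSum_coeff]
    apply Finset.dvd_sum
    intro l _
    rw [Polynomial.coeff_C_mul]
    exact Dvd.dvd.mul_left (EP_coeff_dvd hR _ _ _) _
  have hAl : ∀ l, (β : R ⧸ Ideal.span {(p : R) ^ E}) * π (A l)
      = π (a0 + ∑ i, a i * (δ l i : R)) := by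
    intro l
    have h1 := hA l
    rw [← qm_eq_zero, ← hπ, map_sub, sub_eq_zero, map_mul, map_natCast] at h1
    exact h1
  have hxl : ∀ l, π (EE p K (A l)) = π (x l) := by
    intro l
    have h1 := hx l
    rw [← qm_eq_zero, ← hπ, map_sub, sub_eq_zero] at h1
    exact h1.symm
  have hZ : ∀ z < Z, ∀ i < τ, (p : R) ^ (E - ν * τ) ∣ (F.comp (X + C (z : R))).coeff i := by
    intro z hz i hi
    -- the coefficient times `β ^ i`
    have h0 : π (((β ^ i : ℕ) : R) * (F.comp (X + C (z : R))).coeff i) = 0 := by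
      rw [map_mul, map_natCast, hFdef, Polynomial.sum_comp, Polynomial.finsetSum_coeff, map_sum]
      have h2 : ∀ l ∈ (univ : Finset ι),
          π (((C (c l) * EP p K (A l)).comp (X + C (z : R))).coeff i)
          = π (c l) * (π (ee R p i) * (π (A l)) ^ i * π (x l) ^ z) := by
        intro l _
        rw [Polynomial.mul_comp, Polynomial.C_comp, Polynomial.coeff_C_mul, map_mul]
        congr 1
        have h3 := EP_taylor hR K (A l) (z : R) i
        have h4 : (p : R) ^ E ∣ ((EP p K (A l)).comp (X + C (z : R))).coeff i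
            - ee R p i * (A l) ^ i * EE p K ((A l) * z) :=
          (pow_dvd_pow _ (by omega)).trans h3
        rw [← qm_eq_zero, ← hπ, map_sub, sub_eq_zero] at h4
        rw [h4, map_mul, map_mul, map_pow, hπ, qm_EE hR hK hK0, ← hπ, hxl l]
      rw [Finset.sum_congr rfl h2, Finset.mul_sum]
      have h9 := GL_zero P δ x (T := T) (τ := τ) (z := z) (fun m hm => H m hm z hz) m hm a0 a hi
      have h10 := congrArg (fun t => π (ee R p i) * π t) h9
      simp only [map_zero, mul_zero] at h10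
      rw [← h10, map_sum, Finset.mul_sum]
      refine Finset.sum_congr rfl fun l _ => ?_
      have h11 := hAl l
      rw [hc]
      simp only [map_mul, map_pow]
      rw [← h11]
      push_cast
      ring
    rw [hπ, qm_eq_zero] at h0
    have : Fact p.Prime := ⟨hR.pp⟩
    have h11 := hR.dvd_of_natCast_mul (pow_ne_zero i hβ0) (v := i * ν) (by
      rw [padicValNat.pow]
      exact Nat.mul_le_mul_left _ hβ) h0
    refine (pow_dvd_pow _ ?_).trans h11
    have h12 : i * ν ≤ ν * τ := by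
      rw [mul_comm ν τ]
      exact Nat.mul_le_mul_right _ hi.le
    omega
  have hS := schwarz hR hF hZ hd (by omega)
  -- evaluate
  have h11 : (p : R) ^ d ∣ F.eval (n : R) := by
    rw [Polynomial.eval_eq_sum_range]
    apply Finset.dvd_sum
    intro j _
    exact Dvd.dvd.mul_right (hS j) _
  have h12 : (p : R) ^ E ∣ F.eval (n : R) - GG P δ x m n := by
    rw [← qm_eq_zero, map_sub, sub_eq_zero, hFdef, Polynomial.eval_finsetSum, map_sum, GG, map_sum]
    apply Finset.sum_congr rfl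
    intro l _
    rw [Polynomial.eval_mul, Polynomial.eval_C, EP_eval, map_mul, qm_EE hR hK hK0, ← hπ, hxl l, hc,
      map_mul, map_mul, map_pow, map_mul]
  have h15 := (pow_dvd_pow (p : R) (show d ≤ E by omega)).trans h12
  have h16 := dvd_sub h11 h15
  simpa using h16

end Pool.Agent.Y728
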