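import Pool.Agent.Y728.FewRel

/-!
Few primes have a relation at a given place (helper728).
-/

set_option autoImplicit false

namespace Pool.Agent.Y728

open Finset NumberField IsDedekindDomain Pool.Agent.H691R3 Pool.Agent.TH876.Loc
open Pool.Agent.TH876.KR (fv_pos fv_pv_lt_one fv_pv_pos)

variable {K : Type} [Field K] [NumberField K] {h r : ℕ} {C : ℝ} {ε : Fin r → 𝓞 K} {g : Pr K → 𝓞 K}

theorem GD.house_g (G : GD K h r C ε g) {hc B : ℕ} (hhc : h + 1 ≤ hc) (hC : C ≤ 2 ^ B) {v : Pr K}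
    (hv : Nv v ≤ 2 ^ B) : house (g v : K) ≤ 2 ^ (hc * B) := by
  refine (G.hg v).trans ?_
  have h0 : 0 ≤ Nv v := (Nv_pos v).le
  calc C * Nv v ^ h ≤ 2 ^ B * (2 ^ B) ^ h :=
        mul_le_mul hC (pow_le_pow_left₀ h0 hv h) (pow_nonneg h0 _) (by positivity)
    _ = 2 ^ ((h + 1) * B) := by rw [← pow_mul, ← pow_add]; congr 1; ring
    _ ≤ 2 ^ (hc * B) := pow_le_pow_right₀ (by norm_num) (Nat.mul_le_mul_right _ hhc)

theorem GD.house_eps (G : GD K h r C ε g) {hc B : ℕ} (hhc : 1 ≤ hc) (hC : C ≤ 2 ^ B) (j : Fin r) :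
    house (ε j : K) ≤ 2 ^ (hc * B) := by
  refine ((G.heps j).trans hC).trans ?_
  refine pow_le_pow_right₀ (by norm_num) (Nat.le_mul_of_pos_left _ hhc)

theorem few_P (G : GD K h r C ε g) : ∃ c0' : ℕ,
    ∀ {D hc e0 c0 B b g' v a c w n J z d h' tl M S' G' T0 τ : ℕ},
    Par D hc e0 c0 B b g' v a c w n J z d h' tl M S' G' T0 τ → c0' ≤ c0 →
    Module.finrank ℚ K ≤ D → h + 1 ≤ hc → C ≤ 2 ^ B →
    ∀ (S : Finset (Pr K)), S.card + r + 1 = n → ∀ (u : Pr K), u ∈ S → Nv u ≤ 2 ^ B →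
    ∀ p : Fin (2 ^ a) → Pr K, Function.Injective p → (∀ i, p i ∉ S) → (∀ i, Nv (p i) ≤ 2 ^ B) →
    (∀ i, RelAt ε g (Sum.inr u) S S' M (p i)) → False := by
  classical
  obtain ⟨c0', hsim⟩ := simulP_par K
  refine ⟨c0', ?_⟩
  intro D hc e0 c0 B b g' v a c w n J z d h' tl M S' G' T0 τ hp hc0 hD hhc hC S hn u huS huB p hpi
    hpS hpB hrel
  choose ee aa bb he0 heE haE hbE hau hnear using hrel
  have hpv : pv u ≤ 2 ^ B := by
    have := (pv_le_Nv u).trans huB
    exact_mod_cast this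
  have hpu : ∀ i, p i ≠ u := fun i hi => hpS i (by rw [hi]; exact huS)
  refine hsim hp hc0 hD u hpv (Option (Fin r ⊕ {w // w ∈ S})) ?_
    (fun j => j.elim 1 (Sum.elim ε fun w => if w.1 = u then 1 else g w.1)) (fun i => g (p i)) ee
    (fun i j => j.elim 0 (Sum.elim (bb i) fun w => aa i w.1)) ?_ ?_ ?_ he0 heE ?_ ?_
    (G.prod_inj p hpi)
  · rw [Fintype.card_option, Fintype.card_sum, Fintype.card_fin, Fintype.card_coe]
    omega
  · intro j
    rcases j with _ | (j | j)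
    · show fv u ((1 : 𝓞 K) : K) = 1
      have e : ((1 : 𝓞 K) : K) = 1 := rfl
      rw [e, map_one]
    · exact G.eps_fv u j
    · show fv u ((if j.1 = u then 1 else g j.1 : 𝓞 K) : K) = 1
      split_ifs with hj
      · have e : ((1 : 𝓞 K) : K) = 1 := rfl
        rw [e, map_one]
      · exact G.ne _ _ (Ne.symm hj)
  · intro i
    exact G.ne _ _ (Ne.symm (hpu i))
  · intro i
    exact G.house_g hhc hC (hpB i)
  · intro i j
    rcases j with _ | (j | j)
    · show |(0 : ℤ)| ≤ 2 ^ S'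
      rw [abs_zero]
      positivity
    · exact hbE i j
    · exact haE i _
  · intro i
    have h1 := hnear i
    unfold near at h1
    simp only [Sum.elim_inr] at h1
    refine le_trans (le_of_eq ?_) h1
    congr 2
    congr 1
    rw [Fintype.prod_option, Fintype.prod_sum_type]
    simp only [Option.elim, Sum.elim_inl, Sum.elim_inr, zpow_zero, one_mul]
    congr 1
    rw [← Finset.prod_coe_sort S (fun w => (g w : K) ^ (aa i w))]
    refine Finset.prod_congr rfl fun w _ => ?_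
    split_ifs with hw
    · rw [hw, hau i u rfl, zpow_zero, zpow_zero]
    · rfl

theorem few_A (G : GD K h r C ε g) : ∃ c0' : ℕ,
    ∀ {D hc e0 c0 B b g' v a c w n J z d h' tl M S' G' T0 τ : ℕ},
    Par D hc e0 c0 B b g' v a c w n J z d h' tl M S' G' T0 τ → c0' ≤ c0 →
    Module.finrank ℚ K ≤ D → h + 1 ≤ hc → C ≤ 2 ^ B → ∀ (E s' : ℕ), E + s' = S' →
    (D + 4) * (hc * B) * (n + 1) ≤ 2 ^ s' →
    ∀ (S : Finset (Pr K)), S.card + r + 1 = n → (∀ w ∈ S, Nv w ≤ 2 ^ B) →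
    ∀ (w : InfinitePlace K) (p : Fin (2 ^ a) → Pr K), Function.Injective p →
    (∀ i, p i ∉ S) → (∀ i, Nv (p i) ≤ 2 ^ B) →
    (∀ i, RelAt ε g (Sum.inl w) S E M (p i)) → False := by
  classical
  obtain ⟨c0', hsim⟩ := simulA_par K
  refine ⟨c0', ?_⟩
  intro D hc e0 c0 B b g' v a c w n J z d h' tl M S' G' T0 τ hp hc0 hD hhc hC E s' hE hs' S hn hSB
    wp p hpi _ hpB hrel
  obtain ⟨n', rfl⟩ : ∃ n', n = n' + 1 := ⟨n - 1, by omega⟩
  choose ee aa bb he0 heE haE hbE hau hnear using hrel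
  refine hsim hp hc0 hD E s' hE hs' wp (Fin r ⊕ {w // w ∈ S}) ?_
    (Sum.elim ε fun w => g w.1) (fun i => g (p i)) ee
    (fun i => Sum.elim (bb i) fun w => aa i w.1) ?_ (fun i => G.g_ne _) ?_ ?_ he0 heE ?_ ?_
    (G.prod_inj p hpi)
  · rw [Fintype.card_sum, Fintype.card_fin, Fintype.card_coe]
    omega
  · intro j
    rcases j with j | j
    · exact G.eps_ne j
    · exact G.g_ne _
  · intro j
    rcases j with j | j
    · exact G.house_eps (by omega) hC j
    · exact G.house_g hhc hC (hSB _ j.2)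
  · intro i
    exact G.house_g hhc hC (hpB i)
  · intro i j
    rcases j with j | j
    · exact hbE i j
    · exact haE i _
  · intro i
    have h1 := hnear i
    unfold near at h1
    simp only [Sum.elim_inl] at h1
    refine le_trans (le_of_eq ?_) h1
    congr 2
    congr 1
    rw [Fintype.prod_sum_type]
    simp only [Sum.elim_inl, Sum.elim_inr]
    congr 1
    rw [← Finset.prod_coe_sort S (fun w => (g w : K) ^ (aa i w))]

theorem relAt_mono {v : Pl K} {S : Finset (Pr K)} {E E' M : ℕ} (hE : E ≤ E') {p : Pr K}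
    (hR : RelAt ε g v S E M p) : RelAt ε g v S E' M p := by
  obtain ⟨e, a, b, h1, h2, h3, h4, h5, h6⟩ := hR
  have hn : (2 : ℕ) ^ E ≤ 2 ^ E' := Nat.pow_le_pow_right (by norm_num) hE
  have hz : (2 : ℤ) ^ E ≤ 2 ^ E' := pow_le_pow_right₀ (by norm_num) hE
  exact ⟨e, a, b, h1, h2.trans hn, fun w => (h3 w).trans hz, fun j => (h4 j).trans hz, h5, h6⟩

/-- **few primes have a relation at a given place** -/
theorem few_rel (G : GD K h r C ε g) : ∃ c0' : ℕ,
    ∀ {D hc e0 c0 B b g' v a c w n J z d h' tl M S' G' T0 τ : ℕ},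
    Par D hc e0 c0 B b g' v a c w n J z d h' tl M S' G' T0 τ → c0' ≤ c0 →
    Module.finrank ℚ K ≤ D → h + 1 ≤ hc → C ≤ 2 ^ B → ∀ (E s' : ℕ), E + s' = S' →
    (D + 4) * (hc * B) * (n + 1) ≤ 2 ^ s' →
    ∀ (S : Finset (Pr K)), S.card + r + 1 = n → (∀ w ∈ S, Nv w ≤ 2 ^ B) →
    ∀ (v : Pl K), v ∈ Spl S → ∀ R : Finset (Pr K), (∀ p ∈ R, p ∉ S ∧ Nv p ≤ 2 ^ B ∧
      RelAt ε g v S E M p) → R.card < 2 ^ a := by
  classical
  obtain ⟨c1, hP⟩ := few_P G
  obtain ⟨c2, hA⟩ := few_A G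
  refine ⟨max c1 c2, ?_⟩
  intro D hc e0 c0 B b g' v a c w n J z d h' tl M S' G' T0 τ hp hc0 hD hhc hC E s' hE hs' S hn hSB
    vp hvp R hR
  by_contra hcon
  rw [not_lt] at hcon
  obtain ⟨R', hR'sub, hR'card⟩ := Finset.exists_subset_card_eq hcon
  obtain ⟨p, hp'⟩ : ∃ p : Fin (2 ^ a) → Pr K, p = fun i => ((R'.equivFinOfCardEq hR'card).symm i : Pr K) :=
    ⟨_, rfl⟩
  have hpR : ∀ i, p i ∈ R := fun i => by
    rw [hp']
    exact hR'sub ((R'.equivFinOfCardEq hR'card).symm i).2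
  have hpi : Function.Injective p := by
    rw [hp']
    exact Subtype.val_injective.comp (R'.equivFinOfCardEq hR'card).symm.injective
  rcases vp with wp | u
  · exact hA hp ((le_max_right _ _).trans hc0) hD hhc hC E s' hE hs' S hn hSB wp p hpi
      (fun i => (hR _ (hpR i)).1) (fun i => (hR _ (hpR i)).2.1) (fun i => (hR _ (hpR i)).2.2)
  · rw [inr_mem_Spl] at hvp
    exact hP hp ((le_max_left _ _).trans hc0) hD hhc hC S hn u hvp (hSB u hvp) p hpi
      (fun i => (hR _ (hpR i)).1) (fun i => (hR _ (hpR i)).2.1)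
      (fun i => relAt_mono (by omega) (hR _ (hpR i)).2.2)

end Pool.Agent.Y728
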