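import Pool.Agent.Y728.ParN
import Pool.Agent.TH876.KR.NearOne
import Pool.Agent.TH876.KR.Def

/-!
Generators, relations at a place, few primes with a relation (helper728).
-/

set_option autoImplicit false

namespace Pool.Agent.Y728

open Finset NumberField IsDedekindDomain Pool.Agent.H691R3 Pool.Agent.TH876.Loc
open Pool.Agent.TH876.KR (fv_pos fv_pv_lt_one fv_pv_pos)

/-- units and generators of powers of primes, with sizes -/
structure GD (K : Type) [Field K] [NumberField K] (h r : ℕ) (C : ℝ) (ε : Fin r → 𝓞 K)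
    (g : Pr K → 𝓞 K) : Prop where
  h1 : 1 ≤ h
  C1 : 1 ≤ C
  unit : ∀ j, IsUnit (ε j)
  self : ∀ v : Pr K, fv v (g v : K) = (Nv v)⁻¹ ^ h
  ne : ∀ u v : Pr K, u ≠ v → fv u (g v : K) = 1
  heps : ∀ j, house (ε j : K) ≤ C
  hg : ∀ v : Pr K, house (g v : K) ≤ C * Nv v ^ h
  indep : ∀ b : Fin r → ℤ, ∏ j, (ε j : K) ^ (b j) = 1 → b = 0
  rel : ∀ (S : Finset (Pr K)) (a : Pr K → ℤ) (y : K) (H : ℝ), y ≠ 0 →
    (∀ v, v ∉ S → fv v y = 1) → (∀ v ∈ S, fv v y = (Nv v)⁻¹ ^ (a v)) →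
    (∀ w : InfinitePlace K, |Real.log (w y)| ≤ H) →
    ∑ v ∈ S, |(a v : ℝ)| * Real.log (Nv v) ≤ H →
    ∃ b : Fin r → ℤ, (∀ j, |(b j : ℝ)| ≤ C * (H + 1)) ∧
      y ^ h = (∏ j, (ε j : K) ^ (b j)) * ∏ v ∈ S, (g v : K) ^ (a v)

variable {K : Type} [Field K] [NumberField K] {h r : ℕ} {C : ℝ} {ε : Fin r → 𝓞 K} {g : Pr K → 𝓞 K}

theorem int_ne {z : 𝓞 K} {v : Pr K} (hz : fv v (z : K) ≠ 0) : z ≠ 0 := by
  rintro rfl
  apply hz
  have e : ((0 : 𝓞 K) : K) = 0 := rfl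
  rw [e, map_zero]

theorem GD.g_ne (G : GD K h r C ε g) (v : Pr K) : g v ≠ 0 := by
  refine int_ne (v := v) ?_
  rw [G.self v]
  exact pow_ne_zero _ (inv_ne_zero (Nv_pos v).ne')

theorem GD.eps_fv (G : GD K h r C ε g) (v : Pr K) (j : Fin r) : fv v (ε j : K) = 1 := by
  obtain ⟨y, hy⟩ := (G.unit j).exists_right_inv
  have h1 : (ε j : K) * (y : K) = 1 := by
    have := congrArg (algebraMap (𝓞 K) K) hy
    rw [map_mul, map_one] at this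
    exact this
  have h2 := congrArg (fv v) h1
  rw [map_mul, map_one] at h2
  have hx := fv_int_le v (ε j)
  have hy := fv_int_le v y
  have hx0 := (fv v).nonneg (ε j : K)
  have hy0 := (fv v).nonneg (y : K)
  refine le_antisymm hx ?_
  nlinarith

theorem GD.eps_ne (G : GD K h r C ε g) (j : Fin r) : ε j ≠ 0 := (G.unit j).ne_zero

/-- close to zero at a place -/
def near (v : Pl K) (z : K) (M : ℕ) : Prop :=
  Sum.elim (fun w : InfinitePlace K => w z ≤ (1 / 2) ^ M)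
    (fun u : Pr K => fv u z ≤ fv u ((pv u : ℕ) : K) ^ M) v

/-- a relation for the prime `p` at the place `v` -/
def RelAt (ε : Fin r → 𝓞 K) (g : Pr K → 𝓞 K) (v : Pl K) (S : Finset (Pr K)) (E M : ℕ)
    (p : Pr K) : Prop :=
  ∃ (e : ℕ) (a : Pr K → ℤ) (b : Fin r → ℤ), 0 < e ∧ e ≤ 2 ^ E ∧ (∀ w, |a w| ≤ 2 ^ E) ∧
    (∀ j, |b j| ≤ 2 ^ E) ∧ (∀ u, v = Sum.inr u → a u = 0) ∧
    near v ((g p : K) ^ e * ((∏ j, (ε j : K) ^ (b j)) * ∏ w ∈ S, (g w : K) ^ (a w)) - 1) M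

/-- distinct subset products -/
theorem GD.prod_inj (G : GD K h r C ε g) {k : ℕ} (f : Fin k → Pr K) (hf : Function.Injective f) :
    Function.Injective fun A : Finset (Fin k) => ∏ i ∈ A, g (f i) := by
  classical
  have key : ∀ (A : Finset (Fin k)) (i0 : Fin k),
      fv (f i0) ((∏ i ∈ A, g (f i) : 𝓞 K) : K) = if i0 ∈ A then (Nv (f i0))⁻¹ ^ h else 1 := by
    intro A i0
    have e : ((∏ i ∈ A, g (f i) : 𝓞 K) : K) = ∏ i ∈ A, (g (f i) : K) :=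
      map_prod (algebraMap (𝓞 K) K) _ _
    rw [e, map_prod]
    split_ifs with hi
    · rw [← Finset.mul_prod_erase A _ hi, G.self, Finset.prod_eq_one, mul_one]
      intro i hi'
      exact G.ne _ _ fun hp => (Finset.ne_of_mem_erase hi') (hf hp).symm
    · refine Finset.prod_eq_one fun i hi' => ?_
      exact G.ne _ _ fun hp => hi (by rw [hf hp]; exact hi')
  have hlt : ∀ i0, (Nv (f i0))⁻¹ ^ h ≠ (1 : ℝ) := by
    intro i0
    have h2 := two_le_Nv (f i0)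
    have : (Nv (f i0))⁻¹ ^ h < 1 := by
      refine pow_lt_one₀ (inv_nonneg.2 (by linarith)) ?_ (by have := G.h1; omega)
      rw [inv_lt_one_iff₀]
      right
      linarith
    exact this.ne
  intro A A' hAA
  ext i0
  have h1 := congrArg (fun z : 𝓞 K => fv (f i0) (z : K)) hAA
  simp only at h1
  rw [key, key] at h1
  by_cases ha : i0 ∈ A <;> by_cases ha' : i0 ∈ A'
  · simp [ha, ha']
  · rw [if_pos ha, if_neg ha'] at h1
    exact absurd h1 (hlt i0)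
  · rw [if_neg ha, if_pos ha'] at h1
    exact absurd h1.symm (hlt i0)
  · simp [ha, ha']

/-- transport of `Fin n`-indexed data -/
theorem prod_equiv {κ : Type} [Fintype κ] {n : ℕ} (e : κ ≃ Fin n) (q : κ → K) (c : κ → ℤ) :
    ∏ j : Fin n, q (e.symm j) ^ c (e.symm j) = ∏ j, q j ^ c j :=
  Equiv.prod_comp e.symm fun j => q j ^ c j

/-- the hypotheses on the parameters -/
structure Par (D hc e0 c0 B b g v a c w n J z d h' tl M S' G T0 τ : ℕ) : Prop where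
  hB : 1 ≤ B
  hb : B ≤ 2 ^ b
  hg : 1 ≤ g
  hw1 : 1 ≤ w
  hwB : w ≤ B
  hwc : w ≤ 2 ^ c
  hca : c + 1 ≤ a
  hd : D + 2 ≤ 2 ^ d
  hh' : hc ≤ 2 ^ h'
  hhc : 1 ≤ hc
  hS' : S' ≤ 2 ^ (e0 * b)
  hJ : J = 1 + (2 * v + g * n)
  hJB : J + 1 ≤ 8 * B
  hgv : 1024 * ((D + 2) * hc * w * B ^ 2) ≤ (2 ^ g - 1) * v
  hz : z = a + (e0 + 3) * b + (d + c0 + 20)
  htl : tl = 7 + d + h' + b + c
  haw : 2 * D * B + J + z ≤ (a - 1 - c) * w
  hM : M = 2 ^ (J + 2 * z + 2 * tl + 6)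
  hτ : τ = 128 * ((D + 2) * (hc * B * w))
  hT0 : T0 = (J + 1) * τ
  hG : G = J + z + tl + 2

variable (K) in
/-- the simultaneous theorem at a prime for the parameters -/
theorem simulP_par : ∃ c0' : ℕ, ∀ {D hc e0 c0 B b g v a c w n J z d h' tl M S' G T0 τ : ℕ},
    Par D hc e0 c0 B b g v a c w n J z d h' tl M S' G T0 τ → c0' ≤ c0 →
    Module.finrank ℚ K ≤ D → ∀ (u : Pr K), pv u ≤ 2 ^ B →
    ∀ (κ : Type) [Fintype κ], Fintype.card κ = n → ∀ (q : κ → 𝓞 K) (r : Fin (2 ^ a) → 𝓞 K)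
    (v : Fin (2 ^ a) → ℕ) (c : Fin (2 ^ a) → κ → ℤ),
    (∀ j, fv u (q j : K) = 1) → (∀ i, fv u (r i : K) = 1) →
    (∀ i, house (r i : K) ≤ 2 ^ (hc * B)) →
    (∀ i, 0 < v i) → (∀ i, v i ≤ 2 ^ S') → (∀ i j, |c i j| ≤ 2 ^ S') →
    (∀ i, fv u ((r i : K) ^ (v i) * ∏ j, (q j : K) ^ (c i j) - 1) ≤
      fv u ((pv u : ℕ) : K) ^ M) →
    (Function.Injective fun A : Finset (Fin (2 ^ a)) => ∏ i ∈ A, r i) → False := by
  obtain ⟨c0', hsim⟩ := simulP K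
  refine ⟨c0', ?_⟩
  intro D hc e0 c0 B b g v a c w n J z d h' tl M S' G T0 τ hp hc0 hD u hu κ _ hκ q r vv cc hq1
    hr1 hr hv0 hv hcc hrel hinj
  have hn := par_nat hp.hB hp.hb hp.hg hp.hw1 hp.hwB hp.hwc hp.hca hp.hd hp.hh' hp.hhc hp.hS' hp.hJ
    hp.hJB hp.hgv hp.hz hp.htl hp.haw hp.hM hp.hτ hp.hT0 hp.hG
  obtain ⟨n1, n2, n3, n4, n5, n6, -, -⟩ := hn
  obtain ⟨e⟩ : Nonempty (κ ≃ Fin n) := ⟨Fintype.equivFinOfCardEq hκ⟩
  refine hsim u D n (2 ^ a) w (hc * B) B S' J (2 ^ z) (J + z) M (hc * B * w) τ T0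
    (2 * D * B + 2 ^ a * S') (2 ^ a * S' + w) hD hu (Nat.mul_pos hp.hhc hp.hB) hp.hw1 rfl hp.hτ
    hp.hT0 rfl rfl n1 n2 n3 n4 (by omega) n6 (fun j => q (e.symm j)) r vv (fun i j => cc i (e.symm j))
    (fun j => hq1 _) hr1 hr hv0 hv (fun i j => hcc _ _) ?_ hinj
  intro i
  rw [prod_equiv e (fun j => (q j : K)) (cc i)]
  exact hrel i

variable (K) in
/-- the simultaneous theorem at an infinite place for the parameters -/
theorem simulA_par : ∃ c0' : ℕ, ∀ {D hc e0 c0 B b g v a c w n J z d h' tl M S' G T0 τ : ℕ},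
    Par D hc e0 c0 B b g v a c w (n + 1) J z d h' tl M S' G T0 τ → c0' ≤ c0 →
    Module.finrank ℚ K ≤ D → ∀ (S s' : ℕ), S + s' = S' → (D + 4) * (hc * B) * (n + 2) ≤ 2 ^ s' →
    ∀ (w : InfinitePlace K)
    (κ : Type) [Fintype κ], Fintype.card κ = n → ∀ (q : κ → 𝓞 K) (r : Fin (2 ^ a) → 𝓞 K)
    (v : Fin (2 ^ a) → ℕ) (c : Fin (2 ^ a) → κ → ℤ),
    (∀ j, q j ≠ 0) → (∀ i, r i ≠ 0) → (∀ j, house (q j : K) ≤ 2 ^ (hc * B)) →
    (∀ i, house (r i : K) ≤ 2 ^ (hc * B)) →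
    (∀ i, 0 < v i) → (∀ i, v i ≤ 2 ^ S) → (∀ i j, |c i j| ≤ 2 ^ S) →
    (∀ i, w ((r i : K) ^ (v i) * ∏ j, (q j : K) ^ (c i j) - 1) ≤ (1 / 2) ^ M) →
    (Function.Injective fun A : Finset (Fin (2 ^ a)) => ∏ i ∈ A, r i) → False := by
  obtain ⟨c0', hsim⟩ := simulA K
  refine ⟨c0', ?_⟩
  intro D hc e0 c0 B b g v a c w n J z d h' tl M S' G T0 τ hp hc0 hD S s' hSs hs' wp κ _ hκ q r vv cc
    hq0 hr0 hq hr hv0 hv hcc hrel hinj
  have hn := par_nat hp.hB hp.hb hp.hg hp.hw1 hp.hwB hp.hwc hp.hca hp.hd hp.hh' hp.hhc hp.hS' hp.hJ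
    hp.hJB hp.hgv hp.hz hp.htl hp.haw hp.hM hp.hτ hp.hT0 hp.hG
  obtain ⟨n1, n2, n3, n4, n5, -, n7, n8⟩ := hn
  subst hSs
  obtain ⟨e⟩ : Nonempty (κ ≃ Fin n) := ⟨Fintype.equivFinOfCardEq hκ⟩
  refine hsim wp D n (2 ^ a) w (hc * B) S s' J (2 ^ z) (J + z) M (hc * B * w) τ T0
    (2 ^ a * (S + s') + w) G hD (Nat.mul_pos hp.hhc hp.hB) hp.hw1 rfl hp.hτ
    hp.hT0 hs' rfl ?_ n2 n3 n4 (by omega) n7 n8 (fun j => q (e.symm j)) r vv
    (fun i j => cc i (e.symm j)) (fun j => hq0 _) hr0 (fun j => hq _) hr hv0 hv (fun i j => hcc _ _)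
    ?_ hinj
  · refine le_trans ?_ n1
    exact Nat.le_mul_of_pos_left _ (by positivity)
  intro i
  rw [prod_equiv e (fun j => (q j : K)) (cc i)]
  exact hrel i

end Pool.Agent.Y728
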