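import Pool.Agent.Y728.PointRel
import Pool.Agent.Y812.WeakQ
import Pool.Agent.TH876.Light

/-!
Only boundedly many points of bounded radical have a very large height (helper728).
-/

set_option autoImplicit false

namespace Pool.Agent.Y728

open Finset NumberField IsDedekindDomain Pool.Agent.H691R3 Pool.Agent.TH876.Loc
open Pool.Agent.TH876.KR (fv_pos fv_pv_lt_one fv_pv_pos side mem_side side_uniq df_eq_zero qt qt_ne
  lg_qt lg_qt_sub df_arch InP aw log_Nv_pos' side_sub mem_sp_iff gd_eq)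

variable {K : Type} [Field K] [NumberField K] {h r : ℕ} {Cc : ℝ} {ε : Fin r → 𝓞 K} {g : Pr K → 𝓞 K}

/-- independence of units and generators -/
theorem GD.indepT (G : GD K h r Cc ε g) (T : Finset (Pr K)) (b : Fin r → ℤ) (a : Pr K → ℤ)
    (h1 : (∏ j, (ε j : K) ^ (b j)) * ∏ v ∈ T, (g v : K) ^ (a v) = 1) :
    (∀ v ∈ T, a v = 0) ∧ b = 0 := by
  classical
  have key : ∀ v ∈ T, a v = 0 := by
    intro u hu
    have h2 := congrArg (fv u) h1
    rw [map_mul, map_one, map_prod, map_prod] at h2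
    have h3 : ∏ j, fv u ((ε j : K) ^ (b j)) = 1 := by
      refine Finset.prod_eq_one fun j _ => ?_
      rw [map_zpow₀, G.eps_fv u j, one_zpow]
    have h4 : ∏ v ∈ T, fv u ((g v : K) ^ (a v)) = ((Nv u)⁻¹ ^ h) ^ (a u) := by
      rw [← Finset.mul_prod_erase T _ hu, map_zpow₀, G.self, Finset.prod_eq_one, mul_one]
      intro v hv
      rw [map_zpow₀, G.ne u v (Finset.ne_of_mem_erase hv).symm, one_zpow]
    rw [h3, h4, one_mul] at h2
    have h5 := congrArg Real.log h2
    rw [Real.log_zpow, Real.log_pow, Real.log_inv, Real.log_one] at h5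
    have h6 := log_Nv_pos' u
    have h7 : (1 : ℝ) ≤ h := by exact_mod_cast G.h1
    have h8 : (h : ℝ) * -Real.log (Nv u) ≠ 0 := by
      have : 0 < (h : ℝ) * Real.log (Nv u) := by positivity
      intro h9
      linarith
    have h9 : (a u : ℝ) = 0 := (mul_eq_zero.1 h5).resolve_right h8
    exact_mod_cast h9
  refine ⟨key, G.indep b ?_⟩
  rw [Finset.prod_eq_one (s := T) (fun v hv => by rw [key v hv, zpow_zero]), mul_one] at h1
  exact h1

/-- a trivial relation implies a bounded height -/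
theorem hgt_trivial {x : K} (hx : Pt x) {A B D : Fin 3} (hBD : B ≠ D)
    {h : ℕ} (hh : 1 ≤ h) (hB : side B x = ∅) (hD : side D x = ∅) (hy : (qt B D x) ^ h = 1) :
    hgt x ≤ dK K * Real.log 2 := by
  classical
  have h1 := sum_df hx (Finset.Subset.refl (sp x)) D
  rw [sum_Spl] at h1
  have h2 : ∑ v ∈ sp x, df (Sum.inr v : Pl K) D x = 0 := by
    refine Finset.sum_eq_zero fun v _ => df_eq_zero hx ?_
    rw [hD]
    exact Finset.notMem_empty _
  rw [h2, add_zero] at h1
  rw [← h1]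
  unfold dK
  rw [Finset.sum_mul]
  refine Finset.sum_le_sum fun w _ => ?_
  have h3 := lg_qt hx B D (Sum.inl w : Pl K)
  have h4 : lg (Sum.inl w : Pl K) (qt B D x) = w.mult * Real.log (w (qt B D x)) := rfl
  have h5 : w (qt B D x) = 1 := by
    have h6 := congrArg w hy
    rw [map_pow, map_one] at h6
    exact (pow_eq_one_iff_of_nonneg (apply_nonneg w _) (by omega)).1 h6
  rw [h4, h5, Real.log_one, mul_zero] at h3
  have h7 := df_arch hx hBD w
  rcases min_le_iff.1 h7 with h8 | h8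
  · linarith
  · exact h8

/-- the application of the estimate for a single form -/
theorem single_P (G : GD K h r Cc ε g) : ∃ κ : ℕ, ∀ {x : K} (_ : Pt x) {A B D : Fin 3}
    (_ : A ≠ B) (_ : B ≠ D) (_ : A ≠ D) {u : Pr K} (_ : u ∈ side A x) {B0 E M : ℕ}
    (_ : 1 ≤ B0) (_ : Cc ≤ 2 ^ B0) (_ : ∀ v ∈ sp x, Nv v ≤ 2 ^ B0) (_ : 1 ≤ E)
    (_ : Cc * (2 * hgt x + 1) ≤ 2 ^ E) (_ : dK K * Real.log 2 < hgt x)
    (_ : M * ((Module.finrank ℚ K : ℝ) * Real.log (Nv u)) ≤ df (Sum.inr u : Pl K) A x),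
    M ≤ 2 ^ (κ * ((r + (sp x).card) * ((h + 1) * B0)) ^ 3) * (E + 1) ^ (κ * (r + (sp x).card)) := by
  classical
  obtain ⟨κ, hκ⟩ := Pool.Agent.Y812.weakQ K
  refine ⟨κ, ?_⟩
  intro x hx A B D hAB hBD hAD u hu B0 E M hB01 hB0 hNv hE1 hE hbig hM
  obtain ⟨T, hT⟩ : ∃ T : Finset (Pr K), T = side B x ∪ side D x := ⟨_, rfl⟩
  obtain ⟨a, b, ha, haE, hbE, hrel⟩ := point_rel G hx (B := B) (C := D) (T := T)
    (by rw [hT]; exact Finset.subset_union_left) (by rw [hT]; exact Finset.subset_union_right)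
  have hTsp : T ⊆ sp x := by
    rw [hT]
    exact Finset.union_subset (side_sub B x) (side_sub D x)
  have huT : ∀ v ∈ T, u ≠ v := by
    rintro v hv rfl
    rw [hT, Finset.mem_union] at hv
    rcases hv with hv | hv
    · exact hAB (side_uniq hu hv)
    · exact hAD (side_uniq hu hv)
  obtain ⟨n, hn⟩ : ∃ n, n = r + T.card := ⟨_, rfl⟩
  have hnn : n ≤ r + (sp x).card := by
    rw [hn]
    exact Nat.add_le_add_left (Finset.card_le_card hTsp) _
  have hcard : Fintype.card (Fin r ⊕ {w // w ∈ T}) = n := by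
    rw [Fintype.card_sum, Fintype.card_fin, Fintype.card_coe, hn]
  obtain ⟨e⟩ : Nonempty ((Fin r ⊕ {w // w ∈ T}) ≃ Fin n) := ⟨Fintype.equivFinOfCardEq hcard⟩
  obtain ⟨q, hq⟩ : ∃ q : (Fin r ⊕ {w // w ∈ T}) → 𝓞 K, q = Sum.elim ε fun w => g w.1 := ⟨_, rfl⟩
  obtain ⟨c, hc⟩ : ∃ c : (Fin r ⊕ {w // w ∈ T}) → ℤ, c = Sum.elim b fun w => a w.1 := ⟨_, rfl⟩
  have hprod : ∀ (b' : Fin r → ℤ) (a' : Pr K → ℤ),
      ∏ j : Fin r ⊕ {w // w ∈ T}, (q j : K) ^ (Sum.elim b' (fun w => a' w.1) j) =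
        (∏ j, (ε j : K) ^ (b' j)) * ∏ v ∈ T, (g v : K) ^ (a' v) := by
    intro b' a'
    rw [Fintype.prod_sum_type, hq]
    simp only [Sum.elim_inl, Sum.elim_inr]
    congr 1
    rw [← Finset.prod_coe_sort T (fun w => (g w : K) ^ (a' w))]
  have hcne : c ≠ 0 := by
    intro h0
    have hb0 : b = 0 := by
      funext j
      have := congrFun h0 (Sum.inl j)
      rw [hc] at this
      exact this
    have ha0 : ∀ v ∈ T, a v = 0 := by
      intro v hv
      have := congrFun h0 (Sum.inr ⟨v, hv⟩)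
      rw [hc] at this
      exact this
    have hy : (qt B D x) ^ h = 1 := by
      rw [hrel, hb0]
      rw [Finset.prod_eq_one (s := T) (fun v hv => by rw [ha0 v hv, zpow_zero])]
      simp
    have hside : ∀ v ∈ T, df (Sum.inr v : Pl K) B x = df (Sum.inr v : Pl K) D x := by
      intro v hv
      have h1 := ha v
      rw [ha0 v hv] at h1
      push_cast at h1
      linarith
    have hB0' : side B x = ∅ := by
      rw [Finset.eq_empty_iff_forall_notMem]
      intro v hv
      have h1 := hside v (by rw [hT]; exact Finset.mem_union_left _ hv)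
      rw [df_eq_zero hx (i := D) (fun hc' => hBD (side_uniq hv hc'))] at h1
      have h2 := (mem_side hx).1 hv
      linarith
    have hD0' : side D x = ∅ := by
      rw [Finset.eq_empty_iff_forall_notMem]
      intro v hv
      have h1 := hside v (by rw [hT]; exact Finset.mem_union_right _ hv)
      rw [df_eq_zero hx (i := B) (fun hc' => hBD (side_uniq hc' hv))] at h1
      have h2 := (mem_side hx).1 hv
      linarith
    have := hgt_trivial hx (A := A) hBD G.h1 hB0' hD0' hy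
    linarith
  obtain ⟨j0, hj0⟩ : ∃ j0, c j0 ≠ 0 := by
    by_contra hcon
    push Not at hcon
    exact hcne (funext hcon)
  have hn1 : 1 ≤ n := by
    have : 0 < Fintype.card (Fin r ⊕ {w // w ∈ T}) := Fintype.card_pos_iff.2 ⟨j0⟩
    omega
  have hpu : pv u ≤ 2 ^ ((h + 1) * B0) := by
    have h1 : ((pv u : ℕ) : ℝ) ≤ 2 ^ B0 := (pv_le_Nv u).trans (hNv u (side_sub A x hu))
    have h2 : pv u ≤ 2 ^ B0 := by exact_mod_cast h1
    refine h2.trans (Nat.pow_le_pow_right (by norm_num) ?_)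
    exact Nat.le_mul_of_pos_left _ (by omega)
  have h2E : 2 * hgt x ≤ 2 ^ E := by
    have := G.C1
    have := hgt_nonneg x
    nlinarith
  have hmain := hκ u n ((h + 1) * B0) E M (fun j => q (e.symm j)) (fun j => c (e.symm j)) hn1
    (Nat.mul_pos (by omega) hB01) hE1 hpu ?_ ?_ ?_ ?_ ?_ ?_
  · refine hmain.trans (Nat.mul_le_mul ?_ ?_)
    · refine Nat.pow_le_pow_right (by norm_num) (Nat.mul_le_mul_left _ ?_)
      exact Nat.pow_le_pow_left (Nat.mul_le_mul_right _ hnn) _
    · exact Nat.pow_le_pow_right (by omega) (Nat.mul_le_mul_left _ hnn)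
  · intro j
    obtain ⟨i, hi⟩ : ∃ i, i = e.symm j := ⟨_, rfl⟩
    rw [← hi, hq]
    rcases i with i | i
    · exact G.house_eps (by omega) hB0 i
    · exact G.house_g le_rfl hB0 (hNv _ (hTsp i.2))
  · intro j
    obtain ⟨i, hi⟩ : ∃ i, i = e.symm j := ⟨_, rfl⟩
    rw [← hi, hq]
    rcases i with i | i
    · exact G.eps_fv u i
    · exact G.ne _ _ (huT _ i.2)
  · intro b1 hb1
    obtain ⟨f, hf⟩ : ∃ f : (Fin r ⊕ {w // w ∈ T}) → ℤ, f = fun i => b1 (e i) := ⟨_, rfl⟩
    have h1 : ∏ j, (q j : K) ^ (f j) = 1 := by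
      rw [← hb1, ← Equiv.prod_comp e]
      refine Finset.prod_congr rfl fun i _ => ?_
      rw [Equiv.symm_apply_apply, hf]
    have h2 := hprod (fun j => f (Sum.inl j)) (fun v => if hv : v ∈ T then f (Sum.inr ⟨v, hv⟩) else 0)
    have h3 : ∏ j : Fin r ⊕ {w // w ∈ T}, (q j : K) ^ (Sum.elim (fun j => f (Sum.inl j))
        (fun w : {w // w ∈ T} => (if hv : w.1 ∈ T then f (Sum.inr ⟨w.1, hv⟩) else 0)) j) = 1 := by
      rw [← h1]
      refine Finset.prod_congr rfl fun i _ => ?_
      rcases i with i | i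
      · rfl
      · simp only [Sum.elim_inr]
        rw [dif_pos i.2]
    rw [h3] at h2
    obtain ⟨h4, h5⟩ := G.indepT T _ _ h2.symm
    have h6 : ∀ i, f i = 0 := by
      intro i
      rcases i with i | i
      · exact congrFun h5 i
      · have := h4 i.1 i.2
        rw [dif_pos i.2] at this
        exact this
    funext j
    have := h6 (e.symm j)
    rw [hf] at this
    simpa using this
  · intro h0
    apply hj0
    have := congrFun h0 (e j0)
    simpa using this
  · intro j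
    obtain ⟨i, hi⟩ : ∃ i, i = e.symm j := ⟨_, rfl⟩
    show |c (e.symm j)| ≤ 2 ^ E
    rw [← hi, hc]
    rcases i with i | i
    · have h1 := (hbE i).trans hE
      exact_mod_cast h1
    · have h1 := (haE i.1).trans h2E
      exact_mod_cast h1
  · have h1 : ∏ j, ((q (e.symm j) : 𝓞 K) : K) ^ (c (e.symm j)) = (qt B D x) ^ h := by
      rw [Equiv.prod_comp e.symm (fun i => (q i : K) ^ (c i)), hrel, hc]
      exact hprod b a
    rw [h1]
    exact near_P hx hAB hBD hAD hu hM

end Pool.Agent.Y728
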