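import Pool.Agent.Y728.ExtraR
import Pool.Agent.TH876.Glob

/-!
Siegel's lemma, the Liouville inequality and the iteration over a number field
(helper728, after helper867).
-/

set_option autoImplicit false

namespace Pool.Agent.Y728

open Finset NumberField IsDedekindDomain Pool.Agent.H691R3 Pool.Agent.TH876.Loc

/-- the exponents of the monomials of total degree `< T` in `n` variables -/
abbrev Mon (n T : ℕ) : Type := {m : Fin n → Fin T // ∑ i, (m i : ℕ) < T}

/-- Siegel's lemma over the ring of integers, in a convenient form (from H297R2). -/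
theorem siegelK (K : Type*) [Field K] [NumberField K] : ∃ C : ℝ, 1 ≤ C ∧
    ∀ (α β : Type) [Fintype α] [Fintype β] (a : Matrix α β (𝓞 K)), a ≠ 0 →
      0 < Fintype.card α → 2 * Fintype.card α ≤ Fintype.card β → ∀ A : ℝ, 1 ≤ A →
      (∀ k l, house (a k l : K) ≤ A) →
      ∃ ξ : β → 𝓞 K, ξ ≠ 0 ∧ a.mulVec ξ = 0 ∧
        ∀ l, house (ξ l : K) ≤ C * (C * Fintype.card β * A) := by
  classical
  obtain ⟨c, hc⟩ : ∃ c : ℝ, ∀ (α β : Type) [Fintype α] [Fintype β] (a : Matrix α β (𝓞 K)), a ≠ 0 →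
      0 < Fintype.card α → Fintype.card α < Fintype.card β → ∀ A : ℝ,
      (∀ k l, house (a k l : K) ≤ A) →
      ∃ ξ : β → 𝓞 K, ξ ≠ 0 ∧ a.mulVec ξ = 0 ∧
        ∀ l, house (ξ l : K) ≤ c * ((c * (Fintype.card β : ℕ) * A) ^
          (((Fintype.card α : ℕ) : ℝ) / ((Fintype.card β : ℕ) - (Fintype.card α : ℕ)))) :=
    ⟨_, fun α β _ _ a ha h0 hpq A habs =>
      NumberField.house.exists_ne_zero_int_vec_house_le K a ha h0 hpq rfl habs rfl⟩
  refine ⟨max 1 |c|, le_max_left _ _, ?_⟩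
  intro α β _ _ a ha h0 hpq A hA habs
  obtain ⟨ξ, h1, h2, h3⟩ := hc α β a ha h0 (by omega) A habs
  refine ⟨ξ, h1, h2, fun l => (h3 l).trans ?_⟩
  set C := max 1 |c| with hC
  have hC1 : 1 ≤ C := le_max_left _ _
  have hcC : |c| ≤ C := le_max_right _ _
  set q : ℝ := ((Fintype.card β : ℕ) : ℝ) with hq
  set p : ℝ := ((Fintype.card α : ℕ) : ℝ) with hp
  have hp1 : (1 : ℝ) ≤ p := by rw [hp]; exact_mod_cast h0
  have hpq' : 2 * p ≤ q := by rw [hp, hq]; exact_mod_cast hpq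
  have hq1 : 1 ≤ q := by linarith
  set e : ℝ := p / (q - p) with he
  have he0 : 0 ≤ e := by rw [he]; apply div_nonneg <;> linarith
  have he1 : e ≤ 1 := by rw [he, div_le_one (by linarith)]; linarith
  have hbig : 1 ≤ C * q * A := by
    calc (1 : ℝ) = 1 * 1 * 1 := by ring
      _ ≤ C * q * A := by gcongr
  calc c * (c * q * A) ^ e ≤ |c * (c * q * A) ^ e| := le_abs_self _
    _ = |c| * |(c * q * A) ^ e| := abs_mul _ _
    _ ≤ C * |c * q * A| ^ e := by
        gcongr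
        exact Real.abs_rpow_le_abs_rpow _ _
    _ ≤ C * (C * q * A) ^ e := by
        gcongr
        rw [abs_mul, abs_mul, abs_of_nonneg (by linarith : (0 : ℝ) ≤ q),
          abs_of_nonneg (by linarith : (0 : ℝ) ≤ A)]
        gcongr
    _ ≤ C * (C * q * A) ^ (1 : ℝ) := by
        gcongr
    _ = C * (C * q * A) := by rw [Real.rpow_one]

variable {K : Type} [Field K] [NumberField K]

theorem av_inl_le_house (w : InfinitePlace K) (z : K) : av (Sum.inl w : Pl K) z ≤ house z := by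
  show w.1 z ≤ house z
  have h1 : w z = ‖w.embedding z‖ := (InfinitePlace.norm_embedding_eq w z).symm
  have h2 : w.1 z = w z := rfl
  rw [h2, h1]
  exact norm_embedding_le_house z w.embedding

theorem fv_int_le (v : Pr K) (ξ : 𝓞 K) : fv v (ξ : K) ≤ 1 :=
  NumberField.FinitePlace.norm_le_one K v ξ

theorem sum_mult : ∑ w : InfinitePlace K, (w.mult : ℝ) = Module.finrank ℚ K := by
  have := InfinitePlace.sum_mult_eq (K := K)
  exact_mod_cast this

/-- the Liouville inequality -/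
theorem liouville (v : Pl K) {ξ : 𝓞 K} (hξ : ξ ≠ 0) {B : ℝ} (hB : 1 ≤ B)
    (hh : house (ξ : K) ≤ B) : -((Module.finrank ℚ K : ℝ) * Real.log B) ≤ lg v (ξ : K) := by
  classical
  have hξ' : (ξ : K) ≠ 0 := by
    intro h
    apply hξ
    exact RingOfIntegers.coe_eq_zero_iff.1 h
  have hlB : 0 ≤ Real.log B := Real.log_nonneg hB
  obtain ⟨V0, hV0⟩ : ∃ V0 : Finset (Pr K), ∀ u, u ∉ V0 → fv u (ξ : K) = 1 := by
    refine ⟨(fv_support_finite hξ').toFinset, fun u hu => ?_⟩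
    by_contra hne
    exact hu ((Set.Finite.mem_toFinset _).2 hne)
  obtain ⟨V, hV, hvV⟩ : ∃ V : Finset (Pr K), (∀ u, u ∉ V → fv u (ξ : K) = 1) ∧ v ∈ Spl V := by
    rcases v with w | v
    · exact ⟨V0, hV0, inl_mem_Spl _ _⟩
    · refine ⟨insert v V0, fun u hu => hV0 u fun h => hu (Finset.mem_insert_of_mem h), ?_⟩
      rw [inr_mem_Spl]
      exact Finset.mem_insert_self _ _
  have h0 := sum_lg hξ' hV
  have h1 := Finset.add_sum_erase (Spl V) (fun u => lg u (ξ : K)) hvV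
  have hub : ∀ u : Pl K, lg u (ξ : K) ≤ Sum.elim (fun w : InfinitePlace K => (w.mult : ℝ) * Real.log B)
      (fun _ => 0) u := by
    intro u
    rcases u with w | u
    · show (w.mult : ℝ) * Real.log (av (Sum.inl w : Pl K) (ξ : K)) ≤ (w.mult : ℝ) * Real.log B
      refine mul_le_mul_of_nonneg_left ?_ (Nat.cast_nonneg _)
      refine Real.log_le_log ((av _).pos hξ') ((av_inl_le_house w _).trans hh)
    · show 1 * Real.log (fv u (ξ : K)) ≤ 0
      rw [one_mul]
      exact Real.log_nonpos ((fv u).nonneg _) (fv_int_le u ξ)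
  have hub0 : ∀ u : Pl K, 0 ≤ Sum.elim (fun w : InfinitePlace K => (w.mult : ℝ) * Real.log B)
      (fun _ : Pr K => 0) u := by
    intro u
    rcases u with w | u
    · show 0 ≤ (w.mult : ℝ) * Real.log B
      positivity
    · exact le_rfl
  have h2 : ∑ u ∈ (Spl V).erase v, lg u (ξ : K) ≤ (Module.finrank ℚ K : ℝ) * Real.log B := by
    calc ∑ u ∈ (Spl V).erase v, lg u (ξ : K) ≤ ∑ u ∈ (Spl V).erase v,
          Sum.elim (fun w : InfinitePlace K => (w.mult : ℝ) * Real.log B) (fun _ : Pr K => 0) u :=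
          Finset.sum_le_sum fun u _ => hub u
      _ ≤ ∑ u ∈ Spl V,
          Sum.elim (fun w : InfinitePlace K => (w.mult : ℝ) * Real.log B) (fun _ : Pr K => 0) u :=
          Finset.sum_le_sum_of_subset_of_nonneg (Finset.erase_subset _ _) fun u _ _ => hub0 u
      _ = _ := by
          rw [sum_Spl]
          simp only [Sum.elim_inl, Sum.elim_inr, Finset.sum_const_zero, add_zero]
          rw [← Finset.sum_mul, sum_mult]
  linarith

theorem house_one : house (1 : K) = 1 := by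
  have := house_intCast (K := K) 1
  simpa using this

theorem house_intCast_le {z : ℤ} {M : ℕ} (h : |z| ≤ 2 ^ M) : house ((z : ℤ) : K) ≤ 2 ^ M := by
  rw [house_intCast]
  exact_mod_cast h

theorem house_prod_le' {ι : Type*} (s : Finset ι) (f : ι → K) (B : ι → ℝ)
    (h : ∀ i ∈ s, house (f i) ≤ B i) : house (∏ i ∈ s, f i) ≤ ∏ i ∈ s, B i := by
  classical
  induction s using Finset.induction_on with
  | empty => simp only [Finset.prod_empty]; exact house_one.le
  | insert i s hi ih =>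
    rw [Finset.prod_insert hi, Finset.prod_insert hi]
    refine (house_mul_le _ _).trans ?_
    exact mul_le_mul (h i (Finset.mem_insert_self _ _))
      (ih fun j hj => h j (Finset.mem_insert_of_mem hj)) (house_nonneg _)
      ((house_nonneg _).trans (h i (Finset.mem_insert_self _ _)))

variable {ι : Type} [Fintype ι] {n : ℕ}

theorem house_term_le (δ : ι → Fin n → ℤ) (x : ι → 𝓞 K) {Δ Xs T : ℕ}
    (hδ : ∀ l i, |δ l i| ≤ 2 ^ Δ) (hxs : ∀ l, house (x l : K) ≤ 2 ^ Xs) (m : Fin n → ℕ)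
    (hm : ∑ j, m j ≤ T) (z : ℕ) (l : ι) :
    house ((((∏ j, (δ l j : 𝓞 K) ^ m j) * x l ^ z : 𝓞 K)) : K) ≤ 2 ^ (Δ * T + Xs * z) := by
  show house (algebraMap (𝓞 K) K ((∏ j, (δ l j : 𝓞 K) ^ m j) * x l ^ z)) ≤ _
  rw [map_mul, map_prod, map_pow, pow_add]
  refine (house_mul_le _ _).trans (mul_le_mul ?_ ?_ (house_nonneg _) (by positivity))
  · calc house (∏ j, algebraMap (𝓞 K) K ((δ l j : 𝓞 K) ^ m j)) ≤ ∏ j : Fin n, (2 : ℝ) ^ (Δ * m j) := by
          refine house_prod_le' _ _ _ fun j _ => ?_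
          rw [map_pow, map_intCast, pow_mul]
          refine (house_pow_le _ _).trans ?_
          exact pow_le_pow_left₀ (house_nonneg _) (house_intCast_le (hδ l j)) _
      _ = 2 ^ (Δ * ∑ j, m j) := by rw [Finset.prod_pow_eq_pow_sum, Finset.mul_sum]
      _ ≤ 2 ^ (Δ * T) := pow_le_pow_right₀ (by norm_num) (Nat.mul_le_mul_left _ hm)
  · rw [pow_mul]
    refine (house_pow_le _ _).trans ?_
    exact pow_le_pow_left₀ (house_nonneg _) (hxs l) _

theorem house_GG_le (P : ι → 𝓞 K) (δ : ι → Fin n → ℤ) (x : ι → 𝓞 K) {N π Δ Xs T : ℕ}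
    (hN : Fintype.card ι ≤ 2 ^ N) (hP : ∀ l, house (P l : K) ≤ 2 ^ π)
    (hδ : ∀ l i, |δ l i| ≤ 2 ^ Δ) (hxs : ∀ l, house (x l : K) ≤ 2 ^ Xs) (m : Fin n → ℕ)
    (hm : ∑ j, m j ≤ T) (z : ℕ) :
    house ((GG P δ x m z : 𝓞 K) : K) ≤ 2 ^ (N + π + Δ * T + Xs * z) := by
  show house (algebraMap (𝓞 K) K (GG P δ x m z)) ≤ _
  rw [GG, map_sum]
  refine (house_sum_le_sum_house _ _).trans ?_
  have h1 : ∀ l ∈ (univ : Finset ι),
      house (algebraMap (𝓞 K) K (P l * (∏ j, (δ l j : 𝓞 K) ^ m j) * x l ^ z)) ≤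
        2 ^ (π + Δ * T + Xs * z) := by
    intro l _
    rw [mul_assoc, map_mul, add_assoc, pow_add]
    refine (house_mul_le _ _).trans ?_
    exact mul_le_mul (hP l) (house_term_le δ x hδ hxs m hm z l) (house_nonneg _) (by positivity)
  refine (Finset.sum_le_sum h1).trans ?_
  rw [Finset.sum_const, nsmul_eq_mul, Finset.card_univ]
  have e : N + π + Δ * T + Xs * z = N + (π + Δ * T + Xs * z) := by ring
  rw [e, pow_add 2 N]
  apply mul_le_mul_of_nonneg_right _ (by positivity)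
  exact_mod_cast hN

theorem vandermondeK (P : ι → 𝓞 K) (x : ι → 𝓞 K) (hx : Function.Injective x)
    (h : ∀ z < Fintype.card ι, ∑ l, P l * x l ^ z = 0) : P = 0 := by
  classical
  set e := (Fintype.equivFin ι).symm with he
  have h1 : (P ∘ e) = 0 := by
    apply Matrix.eq_zero_of_forall_pow_sum_mul_pow_eq_zero (f := x ∘ e)
    · exact hx.comp e.injective
    · intro i
      rw [← h i i.2]
      exact Equiv.sum_comp e (fun l => P l * x l ^ (i : ℕ))
  funext l
  have h2 := congrFun h1 (e.symm l)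
  simpa using h2

/-- the gain at a place -/
def Gain (v : Pl K) (δ : ι → Fin n → ℤ) (x : ι → 𝓞 K) (N Δ T0 τ W : ℕ) : Prop :=
  ∀ (P : ι → 𝓞 K) (π : ℕ), (∀ l, house (P l : K) ≤ 2 ^ π) → ∀ T Z : ℕ, T ≤ T0 → 1 ≤ Z → Z ≤ W →
    (∀ m : Fin n → ℕ, ∑ j, m j < T + τ → ∀ z < Z, GG P δ x m z = 0) →
    ∀ m : Fin n → ℕ, ∑ j, m j < T → ∀ z < 2 * Z, GG P δ x m z ≠ 0 →
      lg v ((GG P δ x m z : 𝓞 K) : K) ≤
        (2 * ((N + π + Δ * T0 + 1 : ℕ) : ℝ) - ((τ * Z : ℕ) : ℝ)) * Real.log 2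

variable (K) in
/-- The iteration: the auxiliary function of an index set `ι` cannot exist. -/
theorem iterK : ∃ c0 : ℕ, ∀ (ι : Type) [Fintype ι] (v : Pl K) (D n J Z0 N Δ Xs τ T0 : ℕ),
    Module.finrank ℚ K ≤ D → 1 ≤ Xs → τ = 128 * ((D + 2) * Xs) → T0 = (J + 1) * τ →
    Fintype.card ι = 2 * (Fintype.card (Mon n T0) * Z0) →
    2 * Fintype.card (Mon n T0) ≤ 2 ^ J → 64 * ((D + 2) * (Δ * (J + 1))) ≤ Z0 →
    2 * (Fintype.card (Mon n T0) * Z0) ≤ 2 ^ N → 2 * N + c0 + 1 ≤ Z0 →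
    ∀ (δ : ι → Fin n → ℤ) (x : ι → 𝓞 K), Gain v δ x N Δ T0 τ (2 ^ J * Z0) →
    (∀ l i, |δ l i| ≤ 2 ^ Δ) → (∀ l, house (x l : K) ≤ 2 ^ Xs) → Function.Injective x →
    False := by
  classical
  obtain ⟨C, hC1, hS⟩ := siegelK K
  obtain ⟨c0, hc0⟩ : ∃ c0 : ℕ, C * C ≤ 2 ^ c0 := by
    obtain ⟨c0, hc0⟩ := pow_unbounded_of_one_lt (C * C) (by norm_num : (1 : ℝ) < 2)
    exact ⟨c0, hc0.le⟩
  refine ⟨c0, ?_⟩
  intro ι _ v D n J Z0 N Δ Xs τ T0 hD hXs hτ hT0 hcard h3 h4 h5 h6 δ x hgain hδ hxs hinj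
  have hZ0 : 0 < Z0 := by omega
  have hDX : 1 ≤ (D + 2) * Xs := Nat.mul_pos (by omega) hXs
  have hτ1 : 1 ≤ τ := by omega
  have hT01 : 1 ≤ T0 := by rw [hT0]; exact Nat.mul_pos (by omega) hτ1
  have hMon : 0 < Fintype.card (Mon n T0) := by
    rw [Fintype.card_pos_iff]
    exact ⟨⟨fun _ => ⟨0, hT01⟩, by simp; omega⟩⟩
  have hι : 0 < Fintype.card ι := by
    rw [hcard]
    positivity
  obtain ⟨l0⟩ := Fintype.card_pos_iff.1 hι
  -- Siegel
  obtain ⟨a, ha⟩ : ∃ a : Matrix (Mon n T0 × Fin Z0) ι (𝓞 K), a = fun mz l =>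
      (∏ i, (δ l i : 𝓞 K) ^ ((mz.1.1 i : ℕ))) * x l ^ (mz.2 : ℕ) := ⟨_, rfl⟩
  have ha0 : a ≠ 0 := by
    intro h
    have h1 := congrFun (congrFun h (⟨fun _ => ⟨0, hT01⟩, by simp; omega⟩, ⟨0, hZ0⟩)) l0
    rw [ha] at h1
    simp at h1
  obtain ⟨P, hP0, hPs, hPb⟩ := hS (Mon n T0 × Fin Z0) ι a ha0
    (by rw [Fintype.card_prod, Fintype.card_fin]; exact Nat.mul_pos hMon hZ0)
    (by rw [hcard, Fintype.card_prod, Fintype.card_fin])
    (2 ^ (Δ * T0 + Xs * Z0)) (one_le_pow₀ (by norm_num)) (by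
      rintro ⟨m, z⟩ l
      rw [ha]
      refine (house_term_le δ x hδ hxs (fun i => (m.1 i : ℕ)) (T := T0) m.2.le z l).trans ?_
      refine pow_le_pow_right₀ (by norm_num) (Nat.add_le_add_left (Nat.mul_le_mul_left _ z.2.le) _))
  obtain ⟨π, hπ⟩ : ∃ π, π = c0 + N + Δ * T0 + Xs * Z0 := ⟨_, rfl⟩
  have hcardN : Fintype.card ι ≤ 2 ^ N := by rw [hcard]; exact h5
  have hPb' : ∀ l, house (P l : K) ≤ 2 ^ π := by
    intro l
    refine (hPb l).trans ?_
    have e1 : (Fintype.card ι : ℝ) ≤ 2 ^ N := by exact_mod_cast hcardN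
    calc C * (C * Fintype.card ι * 2 ^ (Δ * T0 + Xs * Z0)) =
          (C * C) * (Fintype.card ι * 2 ^ (Δ * T0 + Xs * Z0)) := by ring
      _ ≤ 2 ^ c0 * (2 ^ N * 2 ^ (Δ * T0 + Xs * Z0)) := by
          refine mul_le_mul hc0 ?_ (by positivity) (by positivity)
          exact mul_le_mul_of_nonneg_right e1 (by positivity)
      _ = 2 ^ π := by rw [hπ, ← pow_add, ← pow_add]; congr 1; ring
  have hPv : ∀ mz : Mon n T0 × Fin Z0, ∑ l, (∏ i, (δ l i : 𝓞 K) ^ ((mz.1.1 i : ℕ))) *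
      x l ^ (mz.2 : ℕ) * P l = 0 := by
    intro mz
    have h1 := congrFun hPs mz
    rw [ha] at h1
    exact h1
  have main : ∀ j ≤ J, ∀ m : Fin n → ℕ, ∑ i, m i < (J + 1 - j) * τ →
      ∀ y < 2 ^ j * Z0, GG P δ x m y = 0 := by
    intro j
    induction j with
    | zero =>
      intro _ m hm y hy
      rw [Nat.sub_zero, ← hT0] at hm
      rw [pow_zero, one_mul] at hy
      have hmi : ∀ i, m i < T0 := by
        intro i
        refine lt_of_le_of_lt ?_ hm
        exact Finset.single_le_sum (f := fun i => m i) (fun _ _ => Nat.zero_le _) (mem_univ i)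
      have h1 := hPv (⟨fun i => ⟨m i, hmi i⟩, hm⟩, ⟨y, hy⟩)
      rw [GG, ← h1]
      apply Finset.sum_congr rfl
      intro l _
      ring
    | succ j ih =>
      intro hj m hm y hy
      have ih' := ih (by omega)
      have e1 : (J + 1 - j) * τ = (J + 1 - (j + 1)) * τ + τ := by
        have : J + 1 - j = (J + 1 - (j + 1)) + 1 := by omega
        rw [this]; ring
      rw [e1] at ih'
      by_contra hne
      obtain ⟨T, hT⟩ : ∃ T, T = (J + 1 - (j + 1)) * τ := ⟨_, rfl⟩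
      obtain ⟨W, hW⟩ : ∃ W, W = 2 ^ j * Z0 := ⟨_, rfl⟩
      rw [← hT] at ih' hm
      rw [← hW] at ih'
      have hWZ : Z0 ≤ W := by rw [hW]; exact Nat.le_mul_of_pos_left _ (by positivity)
      have e2 : 2 ^ (j + 1) * Z0 = 2 * W := by rw [hW, pow_succ]; ring
      rw [e2] at hy
      have hTT : T ≤ T0 := by
        rw [hT, hT0]
        exact Nat.mul_le_mul_right _ (by omega)
      have hWJ : W ≤ 2 ^ J * Z0 := by
        rw [hW]
        exact Nat.mul_le_mul_right _ (Nat.pow_le_pow_right (by norm_num) (by omega))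
      have hg := hgain P π hPb' T W hTT (by omega) hWJ ih' m hm y hy hne
      have hh := house_GG_le P δ x hcardN hPb' hδ hxs m (T := T0) (by omega) y
      have hl := liouville v hne (B := 2 ^ (N + π + Δ * T0 + Xs * y)) (one_le_pow₀ (by norm_num)) hh
      rw [Real.log_pow] at hl
      have hlog2 : 0 < Real.log 2 := Real.log_pos (by norm_num)
      have h7 : -((D : ℝ) * ((N + π + Δ * T0 + Xs * y : ℕ) : ℝ)) * Real.log 2 ≤
          (2 * ((N + π + Δ * T0 + 1 : ℕ) : ℝ) - ((τ * W : ℕ) : ℝ)) * Real.log 2 := by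
        refine le_trans ?_ (hl.trans hg)
        have h8 : (Module.finrank ℚ K : ℝ) ≤ D := by exact_mod_cast hD
        have h9 : (Module.finrank ℚ K : ℝ) * (((N + π + Δ * T0 + Xs * y : ℕ) : ℝ) * Real.log 2) ≤
            D * (((N + π + Δ * T0 + Xs * y : ℕ) : ℝ) * Real.log 2) :=
          mul_le_mul_of_nonneg_right h8 (by positivity)
        linarith
      have h8 := le_of_mul_le_mul_right h7 hlog2
      have h9 : ((τ * W : ℕ) : ℝ) ≤ ((2 * (N + π + Δ * T0 + 1) + D * (N + π + Δ * T0 + Xs * y) : ℕ) : ℝ) := by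
        push_cast at h8 ⊢
        linarith
      have h10 : τ * W ≤ 2 * (N + π + Δ * T0 + 1) + D * (N + π + Δ * T0 + Xs * y) := by
        exact_mod_cast h9
      -- the size condition
      have hy' : Xs * y ≤ Xs * (2 * W) := Nat.mul_le_mul_left _ hy.le
      obtain ⟨G, hG⟩ : ∃ G, G = N + π + Δ * T0 + 1 := ⟨_, rfl⟩
      have h11 : τ * W ≤ (D + 2) * G + D * (2 * (Xs * W)) := by
        have g1 : D * (N + π + Δ * T0 + Xs * y) ≤ D * (G + 2 * (Xs * W)) := by
          refine Nat.mul_le_mul_left _ ?_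
          have : Xs * (2 * W) = 2 * (Xs * W) := by ring
          omega
        have g2 : (D + 2) * G + D * (2 * (Xs * W)) = 2 * G + D * (G + 2 * (Xs * W)) := by ring
        rw [g2, hG] at *
        omega
      have e3 : 2 * (Δ * T0) = (4 * Xs) * (64 * ((D + 2) * (Δ * (J + 1)))) := by
        rw [hT0, hτ]; ring
      have e4 : (4 * Xs) * (64 * ((D + 2) * (Δ * (J + 1)))) ≤ (4 * Xs) * Z0 :=
        Nat.mul_le_mul_left _ h4
      have e5 : Xs * Z0 ≤ Xs * W := Nat.mul_le_mul_left _ hWZ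
      have e6 : Z0 ≤ Xs * Z0 := Nat.le_mul_of_pos_left _ hXs
      have e7 : 4 * Xs * Z0 = 4 * (Xs * Z0) := by ring
      have hG6 : G ≤ 6 * (Xs * W) := by omega
      have h12 : (D + 2) * G ≤ (D + 2) * (6 * (Xs * W)) := Nat.mul_le_mul_left _ hG6
      have h13 : D * (2 * (Xs * W)) ≤ (D + 2) * (2 * (Xs * W)) := Nat.mul_le_mul_right _ (by omega)
      have h14 : τ * W = (D + 2) * (128 * (Xs * W)) := by rw [hτ]; ring
      have h15 : (D + 2) * (6 * (Xs * W)) + (D + 2) * (2 * (Xs * W)) = (D + 2) * (8 * (Xs * W)) := by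
        ring
      have h16 : (D + 2) * (128 * (Xs * W)) = (D + 2) * (8 * (Xs * W)) + (D + 2) * (120 * (Xs * W)) := by
        ring
      have h17 : 0 < (D + 2) * (120 * (Xs * W)) := by
        have : 0 < W := by omega
        positivity
      omega
  apply hP0
  apply vandermondeK P x hinj
  intro y hy
  have h1 : y < 2 ^ J * Z0 := by
    refine lt_of_lt_of_le hy ?_
    rw [hcard]
    calc 2 * (Fintype.card (Mon n T0) * Z0) = 2 * Fintype.card (Mon n T0) * Z0 := by ring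
      _ ≤ 2 ^ J * Z0 := Nat.mul_le_mul_right _ h3
  have h2 := main J le_rfl (fun _ => 0) (by
    have : J + 1 - J = 1 := by omega
    rw [this]; simp; omega) y h1
  rw [GG] at h2
  simpa using h2

end Pool.Agent.Y728
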