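import Pool.Agent.Y728.Res

/-!
Linear relations between logarithms in a local ring (helper728).
-/

set_option autoImplicit false

namespace Pool.Agent.Y728

open Finset

variable {R : Type*} [CommRing R] [IsDomain R] [CharZero R] {p : ℕ} {k n : ℕ}

theorem lin_rel (hR : RP R p) {K' E φ : ℕ} (hK2 : 2 ≤ K') (hKE : E + 2 ≤ K') {ur : Rˣ}
    {uq : Fin n → Rˣ} {ar : R} {aq : Fin n → R} (har : Lg p K' (E + 2) (ur ^ φ) ar)
    (haq : ∀ j, Lg p K' (E + 2) (uq j ^ φ) (aq j)) (v : ℕ) (c : Fin n → ℤ)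
    (hrel : (p : R) ^ (E + 2) ∣ ((ur ^ v * ∏ j, uq j ^ c j : Rˣ) : R) - 1) :
    (p : R) ^ E ∣ (v : R) * ar + ∑ j, (c j : R) * aq j := by
  have hK0 : 0 < K' := by omega
  have g1 := Lg.pow hR hKE hK0 har v
  have g2 := Lg.prod hR hKE hK0 univ (fun j => (uq j ^ φ) ^ (c j)) (fun j => (c j : R) * aq j)
    (fun j _ => Lg.zpow hR hKE hK0 (haq j) (c j))
  have g3 := Lg.mul hR hKE g1 g2
  have e1 : (ur ^ φ) ^ v * ∏ j, (uq j ^ φ) ^ c j = (ur ^ v * ∏ j, uq j ^ c j) ^ φ := by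
    rw [mul_pow, ← Finset.prod_pow]
    congr 1
    · rw [← pow_mul, ← pow_mul, mul_comm]
    · apply Finset.prod_congr rfl
      intro j _
      rw [← zpow_natCast, ← zpow_natCast, ← zpow_mul, ← zpow_mul, mul_comm]
  rw [e1] at g3
  refine Lg.dvd hR hK2 g3 ?_
  have g6 := sub_one_dvd_pow_sub_one ((ur ^ v * ∏ j, uq j ^ c j : Rˣ) : R) φ
  rw [Units.val_pow_eq_pow_val]
  exact hrel.trans g6

theorem lin_A (hR : RP R p) {K' E φ : ℕ} (hK2 : 2 ≤ K') (hKE : E + 2 ≤ K') {ur : Fin k → Rˣ}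
    {ar : Fin k → R} (har : ∀ i, Lg p K' (E + 2) (ur i ^ φ) (ar i)) (l l0 : Finset (Fin k))
    {A : R} (hA : Lg p K' (E + 2) ((∏ i ∈ l, ur i) * (∏ i ∈ l0, ur i)⁻¹) A) :
    (p : R) ^ E ∣ (φ : R) * A - (∑ i ∈ l, ar i - ∑ i ∈ l0, ar i) := by
  have hK0 : 0 < K' := by omega
  have g1 := Lg.pow hR hKE hK0 hA φ
  have g2 := Lg.prod hR hKE hK0 l (fun i => ur i ^ φ) ar (fun i _ => har i)
  have g3 := Lg.prod hR hKE hK0 l0 (fun i => ur i ^ φ) ar (fun i _ => har i)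
  have g4 := Lg.mul hR hKE g1 (Lg.inv hR hKE hK0 (Lg.mul hR hKE g2 (Lg.inv hR hKE hK0 g3)))
  have e1 : ((∏ i ∈ l, ur i) * (∏ i ∈ l0, ur i)⁻¹) ^ φ *
      (((∏ i ∈ l, ur i ^ φ) * (∏ i ∈ l0, ur i ^ φ)⁻¹)⁻¹) = 1 := by
    rw [Finset.prod_pow, Finset.prod_pow, mul_pow, inv_pow, mul_inv_cancel]
  rw [e1] at g4
  have g5 := Lg.dvd hR hK2 g4 (by rw [Units.val_one, sub_self]; exact dvd_zero _)
  have e2 : (φ : R) * A - (∑ i ∈ l, ar i - ∑ i ∈ l0, ar i) =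
      (φ : R) * A + -(∑ i ∈ l, ar i + -∑ i ∈ l0, ar i) := by ring
  rw [e2]
  exact g5

theorem lin_beta {p : ℕ} {E φ : ℕ} (v : Fin k → ℕ) (c : Fin k → Fin n → ℤ) {ar : Fin k → R}
    {aq : Fin n → R} (hrel : ∀ i, (p : R) ^ E ∣ (v i : R) * ar i + ∑ j, (c i j : R) * aq j)
    (l l0 : Finset (Fin k)) {A : R}
    (hA : (p : R) ^ E ∣ (φ : R) * A - (∑ i ∈ l, ar i - ∑ i ∈ l0, ar i)) :
    (p : R) ^ E ∣ ((φ * VV v : ℕ) : R) * A -
      (-((VV v : R) * ∑ i ∈ l0, ar i) + ∑ j, aq j * (dd v c l j : R)) := by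
  have h8 := dd_rel (C := R) v c l ar aq
  have e1 : ((φ * VV v : ℕ) : R) * A -
      (-((VV v : R) * ∑ i ∈ l0, ar i) + ∑ j, aq j * (dd v c l j : R)) =
      (VV v : R) * ((φ : R) * A - (∑ i ∈ l, ar i - ∑ i ∈ l0, ar i)) +
      ∑ i ∈ l, (WW v i : R) * ((v i : R) * ar i + ∑ j, (c i j : R) * aq j) := by
    rw [← h8]
    push_cast
    ring
  rw [e1]
  apply dvd_add
  · exact Dvd.dvd.mul_left hA _
  · apply Finset.dvd_sum
    intro i _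
    exact Dvd.dvd.mul_left (hrel i) _

theorem val_le_of_le (hp : p.Prime) {β ν : ℕ} (hβ : 0 < β) (h : β ≤ 2 ^ ν) :
    padicValNat p β ≤ ν := by
  have hp2 := hp.two_le
  have h1 : p ^ padicValNat p β ∣ β := pow_padicValNat_dvd
  have h3' : p ^ padicValNat p β ≤ β := Nat.le_of_dvd hβ h1
  have h4' : 2 ^ padicValNat p β ≤ 2 ^ ν := (Nat.pow_le_pow_left hp2 _).trans (h3'.trans h)
  exact (Nat.pow_le_pow_iff_right (by norm_num)).1 h4'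

end Pool.Agent.Y728
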