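import Pool.Agent.Y728.Iter
import Pool.Agent.TH876.KR.Lte

/-!
The valuation ring at a prime, the logarithms, the gain at a prime (helper728).
-/

set_option autoImplicit false

namespace Pool.Agent.Y728

open Finset NumberField IsDedekindDomain Pool.Agent.H691R3 Pool.Agent.TH876.Loc
open Pool.Agent.TH876.KR (fv_pos fv_pv_lt_one fv_pv_pos fv_natCast_eq_one fv_natCast_ge)

variable {K : Type} [Field K] [NumberField K]

/-- the valuation ring of a prime -/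
noncomputable def Rv (u : Pr K) : Subring K where
  carrier := {x | fv u x ≤ 1}
  mul_mem' := by
    intro a b ha hb
    rw [Set.mem_ofPred_eq] at *
    rw [map_mul]
    exact mul_le_one₀ ha ((fv u).nonneg _) hb
  one_mem' := by
    rw [Set.mem_ofPred_eq, map_one]
  add_mem' := by
    intro a b ha hb
    rw [Set.mem_ofPred_eq] at *
    exact (fv_na u a b).trans (max_le ha hb)
  zero_mem' := by
    rw [Set.mem_ofPred_eq, map_zero]
    exact zero_le_one
  neg_mem' := by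
    intro a ha
    rw [Set.mem_ofPred_eq] at *
    rw [(fv u).map_neg]
    exact ha

theorem mem_Rv (u : Pr K) (x : K) : x ∈ Rv u ↔ fv u x ≤ 1 := Iff.rfl

theorem Rv_le (u : Pr K) (x : Rv u) : fv u (x : K) ≤ 1 := x.2

theorem Rv_isUnit (u : Pr K) {x : Rv u} (h : fv u (x : K) = 1) : IsUnit x := by
  have hx0 : (x : K) ≠ 0 := by
    intro h0
    rw [h0, map_zero] at h
    exact zero_ne_one h
  have hinv : (x : K)⁻¹ ∈ Rv u := by
    rw [mem_Rv, map_inv₀, h, inv_one]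
  refine IsUnit.of_mul_eq_one ⟨(x : K)⁻¹, hinv⟩ ?_
  apply Subtype.ext
  show (x : K) * (x : K)⁻¹ = 1
  exact mul_inv_cancel₀ hx0

theorem fv_of_isUnit (u : Pr K) {x : Rv u} (h : IsUnit x) : fv u (x : K) = 1 := by
  obtain ⟨y, hy⟩ := h.exists_right_inv
  have h1 : (x : K) * (y : K) = 1 := by
    have := congrArg (Subtype.val) hy
    exact this
  have h2 := congrArg (fv u) h1
  rw [map_mul, map_one] at h2
  have hx := Rv_le u x
  have hy := Rv_le u y
  have hx0 := (fv u).nonneg (x : K)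
  have hy0 := (fv u).nonneg (y : K)
  refine le_antisymm hx ?_
  nlinarith

theorem Rv_dvd (u : Pr K) {a b : Rv u} (ha : (a : K) ≠ 0) : a ∣ b ↔ fv u (b : K) ≤ fv u (a : K) := by
  have hpa : 0 < fv u (a : K) := fv_pos u ha
  constructor
  · rintro ⟨c, rfl⟩
    show fv u ((a : K) * (c : K)) ≤ _
    rw [map_mul]
    exact mul_le_of_le_one_right hpa.le (Rv_le u c)
  · intro h
    refine ⟨⟨(b : K) / a, ?_⟩, ?_⟩
    · rw [mem_Rv, map_div₀, div_le_one hpa]
      exact h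
    · apply Subtype.ext
      show (b : K) = (a : K) * ((b : K) / a)
      field_simp

theorem Rv_ppow_ne (u : Pr K) (n : ℕ) : ((((pv u : ℕ) : Rv u) ^ n : Rv u) : K) ≠ 0 := by
  push_cast
  exact pow_ne_zero _ (Nat.cast_ne_zero.2 (pv_prime u).ne_zero)

theorem Rv_pdvd (u : Pr K) (n : ℕ) (b : Rv u) :
    ((pv u : ℕ) : Rv u) ^ n ∣ b ↔ fv u (b : K) ≤ fv u ((pv u : ℕ) : K) ^ n := by
  rw [Rv_dvd u (Rv_ppow_ne u n)]
  push_cast
  rw [map_pow]

theorem Rv_RP (u : Pr K) : RP (Rv u) (pv u) where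
  pp := pv_prime u
  nat := by
    intro m hm
    apply Rv_isUnit
    push_cast
    exact fv_natCast_eq_one u ((Nat.Prime.coprime_iff_not_dvd (pv_prime u)).2 hm)
  one := by
    intro x
    apply Rv_isUnit
    push_cast
    have h1 : fv u (((pv u : ℕ) : K) * (x : K)) < 1 := by
      rw [map_mul]
      calc fv u ((pv u : ℕ) : K) * fv u (x : K) ≤ fv u ((pv u : ℕ) : K) * 1 :=
            mul_le_mul_of_nonneg_left (Rv_le u x) ((fv u).nonneg _)
        _ < 1 := by rw [mul_one]; exact fv_pv_lt_one u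
    refine le_antisymm ?_ ?_
    · refine (fv_na u _ _).trans (max_le ?_ h1.le)
      rw [map_one]
    · have h2 := fv_na u (1 + ((pv u : ℕ) : K) * (x : K)) (-(((pv u : ℕ) : K) * (x : K)))
      rw [add_neg_cancel_right, map_one, (fv u).map_neg] at h2
      rcases le_max_iff.1 h2 with h3 | h3
      · exact h3
      · exact absurd h3 (not_le.2 h1)

/-- integers in the valuation ring -/
noncomputable def toR (u : Pr K) : 𝓞 K →+* Rv u :=
  (algebraMap (𝓞 K) K).codRestrict (Rv u) (fun x => fv_int_le u x)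

theorem toR_coe (u : Pr K) (x : 𝓞 K) : ((toR u x : Rv u) : K) = (x : K) := rfl

theorem fv_pv_le_half (u : Pr K) : fv u ((pv u : ℕ) : K) ≤ 1 / 2 := by
  obtain ⟨n, hn⟩ := fv_zpow u (x := ((pv u : ℕ) : K)) (Nat.cast_ne_zero.2 (pv_prime u).ne_zero)
  have h1 := fv_pv_lt_one u
  have hN := two_le_Nv u
  rw [hn] at h1 ⊢
  have hn0 : n < 0 := by
    by_contra hcon
    rw [not_lt] at hcon
    have := one_le_zpow₀ (by linarith : (1 : ℝ) ≤ Nv u) hcon
    linarith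
  calc (Nv u) ^ n ≤ (Nv u) ^ (-1 : ℤ) := zpow_le_zpow_right₀ (by linarith) (by omega)
    _ = (Nv u)⁻¹ := zpow_neg_one _
    _ ≤ 1 / 2 := by
        rw [one_div]
        exact inv_anti₀ (by norm_num) hN

variable {ι : Type} [Fintype ι] {n : ℕ}

theorem gainP (u : Pr K) {E K' ν τ N Δ T0 W : ℕ} (δ : ι → Fin n → ℤ) (x : ι → 𝓞 K) (x0 : 𝓞 K)
    (hx0 : fv u (x0 : K) = 1) (y : ι → Rv u) (hxy : ∀ l, toR u (x l) = toR u x0 * y l)
    (A : ι → Rv u) (a0 : Rv u) (a : Fin n → Rv u) (β : ℕ) (hβ0 : β ≠ 0)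
    (hβ : padicValNat (pv u) β ≤ ν) (hK : E ≤ K') (hK0 : 0 < K')
    (hyA : ∀ l, ((pv u : ℕ) : Rv u) ^ E ∣ y l - EE (pv u) K' (A l))
    (hA : ∀ l, ((pv u : ℕ) : Rv u) ^ E ∣ (β : Rv u) * A l - (a0 + ∑ i, a i * (δ l i : Rv u)))
    (hE : τ * W + τ ^ 2 * W + ν * τ ≤ E) : Gain (Sum.inr u : Pl K) δ x N Δ T0 τ W := by
  intro P π _ T Z _ hZ1 hZW H m hm z _ hne
  have hR := Rv_RP u
  have hZτ : τ * Z ≤ τ * W := Nat.mul_le_mul_left _ hZW
  have hZτ2 : τ ^ 2 * Z ≤ τ ^ 2 * W := Nat.mul_le_mul_left _ hZW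
  have hx0u : IsUnit (toR u x0) := Rv_isUnit u hx0
  have h1 : ∀ m' : Fin n → ℕ, ∀ z' : ℕ, toR u (GG P δ x m' z') =
      toR u x0 ^ z' * GG (fun l => toR u (P l)) δ y m' z' := by
    intro m' z'
    rw [GG_map]
    exact GG_scale _ δ _ y (toR u x0) hxy m' z'
  have H' : ∀ m : Fin n → ℕ, ∑ j, m j < T + τ → ∀ z < Z,
      GG (fun l => toR u (P l)) δ y m z = 0 := by
    intro m' hm' z' hz'
    have h2 := H m' hm' z' hz'
    have h3 := h1 m' z'
    rw [h2, map_zero] at h3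
    exact ((hx0u.pow z').mul_right_eq_zero).1 h3.symm
  have h4 := extraR hR (fun l => toR u (P l)) δ y A a0 a β hβ0 hβ hK hK0 hyA hA H' le_rfl
    (show τ * Z + τ ^ 2 * Z + ν * τ ≤ E by omega) m hm z
  have h5 : ((pv u : ℕ) : Rv u) ^ (τ * Z) ∣ toR u (GG P δ x m z) := by
    rw [h1]
    exact Dvd.dvd.mul_left h4 _
  rw [Rv_pdvd, toR_coe] at h5
  have hne' : ((GG P δ x m z : 𝓞 K) : K) ≠ 0 := fun h => hne (RingOfIntegers.coe_eq_zero_iff.1 h)
  have h6 : fv u ((GG P δ x m z : 𝓞 K) : K) ≤ (1 / 2 : ℝ) ^ (τ * Z) :=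
    h5.trans (pow_le_pow_left₀ ((fv u).nonneg _) (fv_pv_le_half u) _)
  have h7 := Real.log_le_log (fv_pos u hne') h6
  have h8 : Real.log ((1 / 2 : ℝ) ^ (τ * Z)) = -(((τ * Z : ℕ) : ℝ) * Real.log 2) := by
    rw [Real.log_pow, one_div, Real.log_inv]
    ring
  rw [h8] at h7
  show 1 * Real.log (fv u ((GG P δ x m z : 𝓞 K) : K)) ≤ _
  have h9 : 0 ≤ 2 * ((N + π + Δ * T0 + 1 : ℕ) : ℝ) * Real.log 2 := by
    have := Real.log_pos (show (1 : ℝ) < 2 by norm_num)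
    positivity
  linarith

section Logs

variable {R : Type*} [CommRing R] [IsDomain R] [CharZero R] {p : ℕ}

/-- `a` is a logarithm of `α` modulo `p ^ M` -/
def Lg (p K' M : ℕ) (α : Rˣ) (a : R) : Prop := (p : R) ^ M ∣ (α : R) - EE p K' a

theorem Lg.one (hR : RP R p) {K' M : ℕ} (hK0 : 0 < K') : Lg p K' M (1 : Rˣ) (0 : R) := by
  unfold Lg
  rw [EE_zero hR hK0, Units.val_one, sub_self]
  exact dvd_zero _

theorem Lg.mul (hR : RP R p) {K' M : ℕ} (hM : M ≤ K') {α β : Rˣ} {a b : R}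
    (h1 : Lg p K' M α a) (h2 : Lg p K' M β b) : Lg p K' M (α * β) (a + b) := by
  unfold Lg at *
  have h3 := (pow_dvd_pow (p : R) hM).trans (EE_add hR K' a b)
  have e : ((α * β : Rˣ) : R) - EE p K' (a + b) = ((α : R) - EE p K' a) * β +
      EE p K' a * ((β : R) - EE p K' b) + (EE p K' a * EE p K' b - EE p K' (a + b)) := by
    rw [Units.val_mul]; ring
  rw [e]
  exact dvd_add (dvd_add (Dvd.dvd.mul_right h1 _) (Dvd.dvd.mul_left h2 _)) h3

theorem Lg.inv (hR : RP R p) {K' M : ℕ} (hM : M ≤ K') (hK0 : 0 < K') {α : Rˣ} {a : R}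
    (h1 : Lg p K' M α a) : Lg p K' M α⁻¹ (-a) := by
  unfold Lg at *
  have h3 := (pow_dvd_pow (p : R) hM).trans (EE_add hR K' a (-a))
  rw [add_neg_cancel, EE_zero hR hK0] at h3
  have e : ((α⁻¹ : Rˣ) : R) - EE p K' (-a) = ((α⁻¹ : Rˣ) : R) *
      (-((α : R) - EE p K' a) * EE p K' (-a) - (EE p K' a * EE p K' (-a) - 1)) := by
    have h4 : ((α⁻¹ : Rˣ) : R) * (α : R) = 1 := Units.inv_mul α
    linear_combination (EE p K' (-a)) * h4
  rw [e]
  exact Dvd.dvd.mul_left (dvd_sub (Dvd.dvd.mul_right ((dvd_neg).2 h1) _) h3) _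

theorem Lg.pow (hR : RP R p) {K' M : ℕ} (hM : M ≤ K') (hK0 : 0 < K') {α : Rˣ} {a : R}
    (h1 : Lg p K' M α a) (n : ℕ) : Lg p K' M (α ^ n) ((n : R) * a) := by
  induction n with
  | zero =>
    have e : ((0 : ℕ) : R) * a = 0 := by simp
    rw [pow_zero, e]
    exact Lg.one hR hK0
  | succ n ih =>
    have e : ((n + 1 : ℕ) : R) * a = (n : R) * a + a := by push_cast; ring
    rw [pow_succ, e]
    exact Lg.mul hR hM ih h1

theorem Lg.zpow (hR : RP R p) {K' M : ℕ} (hM : M ≤ K') (hK0 : 0 < K') {α : Rˣ} {a : R}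
    (h1 : Lg p K' M α a) (n : ℤ) : Lg p K' M (α ^ n) ((n : R) * a) := by
  rcases n with n | n
  · have := Lg.pow hR hM hK0 h1 n
    simpa using this
  · have h2 := Lg.inv hR hM hK0 (Lg.pow hR hM hK0 h1 (n + 1))
    rw [zpow_negSucc]
    have e : ((Int.negSucc n : ℤ) : R) * a = -(((n + 1 : ℕ) : R) * a) := by
      rw [Int.cast_negSucc]; ring
    rw [e]
    exact h2

theorem Lg.prod (hR : RP R p) {K' M : ℕ} (hM : M ≤ K') (hK0 : 0 < K') {κ : Type*} (s : Finset κ)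
    (α : κ → Rˣ) (a : κ → R) (h : ∀ i ∈ s, Lg p K' M (α i) (a i)) :
    Lg p K' M (∏ i ∈ s, α i) (∑ i ∈ s, a i) := by
  classical
  induction s using Finset.induction_on with
  | empty =>
    rw [Finset.prod_empty, Finset.sum_empty]
    exact Lg.one hR hK0
  | insert i s hi ih =>
    rw [Finset.prod_insert hi, Finset.sum_insert hi]
    exact Lg.mul hR hM (h i (Finset.mem_insert_self _ _))
      (ih fun j hj => h j (Finset.mem_insert_of_mem hj))

theorem Lg.dvd (hR : RP R p) {K' E : ℕ} (hK2 : 2 ≤ K') {α : Rˣ} {a : R}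
    (h1 : Lg p K' (E + 2) α a) (h2 : (p : R) ^ (E + 2) ∣ (α : R) - 1) : (p : R) ^ E ∣ a := by
  apply dvd_of_EE hR hK2
  have e : EE p K' a - 1 = ((α : R) - 1) - ((α : R) - EE p K' a) := by ring
  rw [e]
  exact dvd_sub h2 h1

theorem Lg.exists (hR : RP R p) {K' : ℕ} (hK2 : 2 ≤ K') {α : Rˣ} (h : (p : R) ^ 2 ∣ (α : R) - 1)
    (M : ℕ) : ∃ a : R, Lg p K' M α a := exists_log hR hK2 h M

end Logs

end Pool.Agent.Y728
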