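import Pool.Agent.Y728.PointRel

/-!
Numerical facts about the parameters (helper728, after helper867).
-/

set_option autoImplicit false

namespace Pool.Agent.Y728

open Finset

/-- the conditions on `L = log X` -/
theorem large_L {η1 : ℝ} (hη : 0 < η1) (Q : ℕ) : ∃ L0 : ℝ, 100 ≤ L0 ∧ ∀ L : ℝ, L0 ≤ L →
    (Q : ℝ) + 1 ≤ Real.log L ∧ Real.log L ^ 2 ≤ η1 * L := by
  refine ⟨max (max (Real.exp (Q + 1)) ((16 / η1) ^ 2)) 100, le_max_right _ _, fun L hL => ?_⟩
  have h1 : Real.exp (Q + 1) ≤ L := ((le_max_left _ _).trans (le_max_left _ _)).trans hL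
  have h2 : (16 / η1) ^ 2 ≤ L := ((le_max_right _ _).trans (le_max_left _ _)).trans hL
  have h3 : 100 ≤ L := (le_max_right _ _).trans hL
  have hL0 : 0 < L := by linarith
  refine ⟨?_, ?_⟩
  · rw [Real.le_log_iff_exp_le hL0]
    exact h1
  · -- `log L = 4 log (L ^ (1/4)) ≤ 4 L ^ (1/4)`
    have s0 : 0 < Real.sqrt L := Real.sqrt_pos.2 hL0
    have s1 : 0 < Real.sqrt (Real.sqrt L) := Real.sqrt_pos.2 s0
    have e1 : Real.log L = 4 * Real.log (Real.sqrt (Real.sqrt L)) := by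
      rw [Real.log_sqrt s0.le, Real.log_sqrt hL0.le]; ring
    have e2 := Real.log_le_sub_one_of_pos s1
    have e0 : 0 ≤ Real.log (Real.sqrt (Real.sqrt L)) := by
      have : 0 ≤ Real.log L := Real.log_nonneg (by linarith)
      linarith
    have e3 : 16 / η1 ≤ Real.sqrt L := Real.le_sqrt_of_sq_le h2
    have e4 : 16 ≤ η1 * Real.sqrt L := by
      rw [div_le_iff₀ hη] at e3
      linarith
    have e5 : Real.sqrt L * Real.sqrt L = L := Real.mul_self_sqrt hL0.le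
    have e6 : Real.sqrt (Real.sqrt L) * Real.sqrt (Real.sqrt L) = Real.sqrt L :=
      Real.mul_self_sqrt s0.le
    have e7 : Real.log (Real.sqrt (Real.sqrt L)) ^ 2 ≤
        Real.sqrt (Real.sqrt L) * Real.sqrt (Real.sqrt L) := by
      rw [sq]
      exact mul_le_mul (by linarith) (by linarith) e0 s1.le
    rw [e6] at e7
    rw [e1, mul_pow]
    have e8 : 16 * Real.sqrt L ≤ η1 * Real.sqrt L * Real.sqrt L :=
      mul_le_mul_of_nonneg_right e4 s0.le
    rw [mul_assoc, e5] at e8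
    linarith

theorem clog_le_self {w : ℕ} (hw : 1 ≤ w) : w ≤ 2 ^ Nat.clog 2 w := Nat.le_pow_clog (by norm_num) _

/-- the numerical facts about the parameters -/
theorem num_par {D hc r κ w c N0 Q B : ℕ} {L lam : ℝ} (hκ : 10 ≤ κ) (hw : w = (4 * D + 20) * κ)
    (hN0 : N0 = 1024 * ((D + 2) * hc * w * κ) + 1) (hB1 : 1 ≤ B)
    (hlam : lam = Real.log L) (hL : 100 ≤ L) (hBlow : 1.44 * L ≤ B) (hBup : (B : ℝ) ≤ 2 * L)
    (hQ : (Q : ℝ) ≤ lam) (hlamL : 10000 * lam ^ 2 ≤ L) (hQc : 100 * ((4 * D + 20) * κ * (c + 2)) ≤ Q)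
    (hN : 10 * Real.log (4 * N0) ≤ Q) (hQr : r + 1 ≤ Q)
    {b g v a n J z e0 d c0 : ℕ} (hb : b = Nat.clog 2 B) (hg : g = Nat.clog 2 (N0 * B))
    (hv : v = B / κ + 1) (ha : a = B / κ + 1) (hz : z = a + (e0 + 3) * b + (d + c0 + 20))
    (hQz : 10 * (e0 + 3) ≤ Q) (hQd : d + c0 + 20 ≤ Q)
    (hJ : J = 1 + (2 * v + g * n)) (hn : (n : ℝ) * lam ≤ 3 * L + (r + 1) * lam) :
    (b : ℝ) ≤ 3 * lam ∧ (2 : ℝ) ^ g ≤ 4 * N0 * L ∧ 1 ≤ g ∧ c + 1 ≤ a ∧ J + 1 ≤ 8 * B ∧
      1024 * ((D + 2) * hc * w * B ^ 2) ≤ (2 ^ g - 1) * v ∧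
      2 * D * B + J + z ≤ (a - 1 - c) * w ∧ w ≤ B ∧ (g : ℝ) * Real.log 2 ≤ 1.1 * lam := by
  have g1 : (0.6931 : ℝ) < Real.log 2 := by linarith [Real.log_two_gt_d9]
  have g2 : Real.log 2 < 0.6932 := by linarith [Real.log_two_lt_d9]
  have hLpos : 0 < L := by linarith
  have hN01 : 1 ≤ N0 := by omega
  have hκr : (10 : ℝ) ≤ κ := by exact_mod_cast hκ
  have hD0 : (0 : ℝ) ≤ D := Nat.cast_nonneg _
  have hc0 : (0 : ℝ) ≤ c := Nat.cast_nonneg _
  have hQlam : ((100 * ((4 * D + 20) * κ * (c + 2)) : ℕ) : ℝ) ≤ lam := by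
    have : ((100 * ((4 * D + 20) * κ * (c + 2)) : ℕ) : ℝ) ≤ Q := by exact_mod_cast hQc
    linarith
  have hlam1000 : 1000 ≤ lam := by
    have h1 : 1000 ≤ 100 * ((4 * D + 20) * κ * (c + 2)) := by
      have e1 : 20 * 10 * 2 ≤ (4 * D + 20) * κ * (c + 2) :=
        Nat.mul_le_mul (Nat.mul_le_mul (by omega) hκ) (by omega)
      omega
    have h2 : ((1000 : ℕ) : ℝ) ≤ ((100 * ((4 * D + 20) * κ * (c + 2)) : ℕ) : ℝ) := by
      exact_mod_cast h1
    push_cast at h2 hQlam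
    linarith
  have hlamsq : lam ≤ lam ^ 2 := by
    rw [sq]
    exact le_mul_of_one_le_left (by linarith) (by linarith)
  have hlamlin : 10000 * lam ≤ L := by linarith
  have hlog4 : Real.log (4 * N0) ≤ lam / 10 := by linarith
  have hNB : 1 ≤ N0 * B := Nat.mul_pos hN01 hB1
  have hκB : B < κ * (B / κ + 1) := Nat.lt_mul_div_succ B (by omega)
  have hκB2 : κ * (B / κ) ≤ B := Nat.mul_div_le B κ
  -- `b`
  have hB1' : 1 < B := by
    have : (1 : ℝ) < B := by linarith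
    exact_mod_cast this
  have r1 : (b : ℝ) ≤ 3 * lam := by
    have h2 := Nat.pow_pred_clog_lt_self (b := 2) (by norm_num) hB1'
    have h3 : 0 < Nat.clog 2 B := Nat.clog_pos (by norm_num) hB1'
    rw [← hb] at h2 h3
    have h4 : ((2 : ℝ)) ^ (b - 1) ≤ B := by
      have : 2 ^ (b - 1) ≤ B := h2.le
      exact_mod_cast this
    have h5 := Real.log_le_log (by positivity) (h4.trans hBup)
    rw [Real.log_pow, Real.log_mul (by norm_num) hLpos.ne', ← hlam,
      Nat.cast_sub (by omega)] at h5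
    push_cast at h5
    by_contra hcon
    rw [not_le] at hcon
    have h6 : (3 * lam - 1) * Real.log 2 ≤ ((b : ℝ) - 1) * Real.log 2 :=
      mul_le_mul_of_nonneg_right (by linarith) (by linarith)
    have h7 : (3 * lam - 1) * 0.6931 ≤ (3 * lam - 1) * Real.log 2 :=
      mul_le_mul_of_nonneg_left g1.le (by linarith)
    linarith
  -- `g`
  have hNB1 : 1 < N0 * B := lt_of_lt_of_le hB1' (Nat.le_mul_of_pos_left _ hN01)
  have hg1 : 1 ≤ g := by rw [hg]; exact Nat.clog_pos (by norm_num) hNB1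
  have r2 : (2 : ℝ) ^ g ≤ 4 * N0 * L := by
    have h2 := Nat.pow_pred_clog_lt_self (b := 2) (by norm_num) hNB1
    rw [← hg] at h2
    have h3 : (2 : ℝ) ^ (g - 1) ≤ N0 * B := by
      have : 2 ^ (g - 1) ≤ N0 * B := h2.le
      exact_mod_cast this
    have h4 : (2 : ℝ) ^ g = 2 * 2 ^ (g - 1) := by
      rw [← pow_succ']; congr 1; omega
    have h5 : (N0 : ℝ) * B ≤ N0 * (2 * L) := mul_le_mul_of_nonneg_left hBup (Nat.cast_nonneg _)
    rw [h4]
    linarith
  have hglog : (g : ℝ) * Real.log 2 ≤ 1.1 * lam := by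
    have h1 := Real.log_le_log (by positivity) r2
    have hN0r : (0 : ℝ) < N0 := by exact_mod_cast hN01
    rw [Real.log_pow, Real.log_mul (by positivity) hLpos.ne', ← hlam] at h1
    linarith
  have hn0 : (0 : ℝ) ≤ n := Nat.cast_nonneg _
  have hrlam : ((r : ℝ) + 1) * lam ≤ 0.01 * L := by
    have h1 : (r : ℝ) + 1 ≤ lam := by
      have : ((r + 1 : ℕ) : ℝ) ≤ Q := by exact_mod_cast hQr
      push_cast at this
      linarith
    have h2 : ((r : ℝ) + 1) * lam ≤ lam * lam := mul_le_mul_of_nonneg_right h1 (by linarith)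
    rw [← sq] at h2
    linarith
  have hgn : (g : ℝ) * n ≤ 4.9 * L := by
    have h1 : (g : ℝ) * n * Real.log 2 ≤ 3.32 * L := by
      calc (g : ℝ) * n * Real.log 2 = (g * Real.log 2) * n := by ring
        _ ≤ (1.1 * lam) * n := mul_le_mul_of_nonneg_right hglog hn0
        _ = 1.1 * (n * lam) := by ring
        _ ≤ 1.1 * (3 * L + (r + 1) * lam) := mul_le_mul_of_nonneg_left hn (by norm_num)
        _ ≤ 3.32 * L := by linarith
    by_contra hcon
    rw [not_le] at hcon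
    have h2 : 4.9 * L * Real.log 2 ≤ g * n * Real.log 2 :=
      mul_le_mul_of_nonneg_right hcon.le (by linarith)
    have h3 : 4.9 * L * 0.6931 ≤ 4.9 * L * Real.log 2 :=
      mul_le_mul_of_nonneg_left g1.le (by linarith)
    linarith
  have h10 : 10 * (B / κ) ≤ B := (Nat.mul_le_mul_right _ hκ).trans hκB2
  have h10r : (10 : ℝ) * ((B / κ : ℕ) : ℝ) ≤ B := by exact_mod_cast h10
  have hLB : L ≤ B := by linarith
  have r5 : J + 1 ≤ 8 * B := by
    have h1 : ((J + 1 : ℕ) : ℝ) ≤ ((8 * B : ℕ) : ℝ) := by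
      rw [hJ, hv]
      push_cast
      linarith
    exact_mod_cast h1
  have hcB : 100 * ((4 * D + 20) * κ * (c + 2)) ≤ B := by
    have : ((100 * ((4 * D + 20) * κ * (c + 2)) : ℕ) : ℝ) ≤ B := by linarith
    exact_mod_cast this
  have hκc1 : κ * (c + 2) ≤ (4 * D + 20) * κ * (c + 2) :=
    Nat.mul_le_mul_right _ (Nat.le_mul_of_pos_left _ (by omega))
  have hκcB : 100 * (κ * (c + 2)) ≤ B := (Nat.mul_le_mul_left _ hκc1).trans hcB
  have hzB : z ≤ B := by
    have h1 : ((e0 + 3 : ℕ) : ℝ) * b ≤ 0.001 * L := by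
      have f1 : ((10 * (e0 + 3) : ℕ) : ℝ) ≤ lam := by
        have : ((10 * (e0 + 3) : ℕ) : ℝ) ≤ Q := by exact_mod_cast hQz
        linarith
      push_cast at f1 ⊢
      have f3 : (0 : ℝ) ≤ b := Nat.cast_nonneg _
      have f4 : ((e0 : ℝ) + 3) * b ≤ (lam / 10) * (3 * lam) :=
        mul_le_mul (by linarith) r1 f3 (by linarith)
      have f5 : (lam / 10) * (3 * lam) = 0.3 * lam ^ 2 := by ring
      linarith
    have h2 : ((d + c0 + 20 : ℕ) : ℝ) ≤ lam := by
      have : ((d + c0 + 20 : ℕ) : ℝ) ≤ Q := by exact_mod_cast hQd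
      linarith
    have h3 : ((z : ℕ) : ℝ) ≤ ((B : ℕ) : ℝ) := by
      rw [hz, ha]
      push_cast
      push_cast at h1 h2
      linarith
    exact_mod_cast h3
  have hκc : κ * (c + 1) ≤ κ * (B / κ) := by
    have e1 : κ * (B / κ + 1) = κ * (B / κ) + κ := by ring
    have e2 : κ * (c + 2) = κ * (c + 1) + κ := by ring
    rw [e1] at hκB
    omega
  have hcdiv : c + 1 ≤ B / κ := Nat.le_of_mul_le_mul_left hκc (by omega)
  refine ⟨r1, r2, hg1, by omega, r5, ?_, ?_, ?_, hglog⟩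
  · have h1 : N0 * B ≤ 2 ^ g := by rw [hg]; exact Nat.le_pow_clog (by norm_num) _
    have h2 : 1024 * ((D + 2) * hc * w * κ) * B ≤ 2 ^ g - 1 := by
      have h3 : N0 * B = 1024 * ((D + 2) * hc * w * κ) * B + B := by rw [hN0]; ring
      omega
    calc 1024 * ((D + 2) * hc * w * B ^ 2) = 1024 * ((D + 2) * hc * w * B) * B := by ring
      _ ≤ 1024 * ((D + 2) * hc * w * B) * (κ * (B / κ + 1)) := Nat.mul_le_mul_left _ hκB.le
      _ = 1024 * ((D + 2) * hc * w * κ) * B * v := by rw [hv]; ring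
      _ ≤ (2 ^ g - 1) * v := Nat.mul_le_mul_right _ h2
  · have h1 : 2 * D * B + J + z ≤ (2 * D + 9) * B := by
      have e1 : (2 * D + 9) * B = 2 * D * B + 9 * B := by ring
      omega
    have h2 : a - 1 - c = B / κ - c := by omega
    rw [h2, hw]
    obtain ⟨d', hd'⟩ : ∃ d', B / κ = c + d' := ⟨B / κ - c, by omega⟩
    rw [hd'] at hκB ⊢
    have h3 : (c + d' - c) * ((4 * D + 20) * κ) = (4 * D + 20) * (κ * d') := by
      rw [Nat.add_sub_cancel_left]; ring
    have h4 : κ * (c + d' + 1) = κ * c + κ * d' + κ := by ring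
    rw [h3]
    rw [h4] at hκB
    have h5 : B ≤ 2 * (κ * d') := by
      have : κ * (c + 2) = κ * c + 2 * κ := by ring
      omega
    calc 2 * D * B + J + z ≤ (2 * D + 9) * B := h1
      _ ≤ (2 * D + 9) * (2 * (κ * d')) := Nat.mul_le_mul_left _ h5
      _ = (4 * D + 18) * (κ * d') := by ring
      _ ≤ (4 * D + 20) * (κ * d') := Nat.mul_le_mul_right _ (by omega)
  · rw [hw]
    have h1 : (4 * D + 20) * κ ≤ (4 * D + 20) * κ * (c + 2) := Nat.le_mul_of_pos_right _ (by omega)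
    omega

end Pool.Agent.Y728
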