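import Pool.Agent.Y728.SimulA

/-!
Simultaneous linear forms in logarithms at an infinite place of a number field (helper728).
-/

set_option autoImplicit false

namespace Pool.Agent.Y728

open Finset NumberField IsDedekindDomain Pool.Agent.H691R3 Pool.Agent.TH876.Loc

variable {K : Type} [Field K] [NumberField K]

/-- the numerical condition of the gain -/
theorem small_cond {kS ww G τ W M V : ℕ} {α ε : ℝ} (hε0 : 0 ≤ ε)
    (hε : ε ≤ 2 ^ (ww + kS + 1) * (1 / 2) ^ M)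
    (hα0 : 0 ≤ α) (hτ : 64 * α ≤ τ) (hV : V ≤ 2 ^ kS) (hW : 1 ≤ W)
    (hG : (τ + 1) * (2 * W) ≤ 2 ^ G)
    (hM : ww + kS + 2 + G + τ * (kS + G + 1) + (G + 4) * (τ * W) ≤ M) :
    ε * ((τ * W : ℕ) * ((τ + 1 : ℝ) * (2 * W : ℕ)) ^ (τ * W) * (V * α + 1) ^ τ *
      Real.exp (α * (2 * W : ℕ))) * 2 ^ (3 * (τ * W)) ≤ 1 := by
  have hGr : ((τ : ℝ) + 1) * ((2 * W : ℕ) : ℝ) ≤ 2 ^ G := by exact_mod_cast hG
  have hτ0 : (0 : ℝ) ≤ τ := Nat.cast_nonneg _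
  have hW1 : (1 : ℝ) ≤ W := by exact_mod_cast hW
  have h1 : ((τ * W : ℕ) : ℝ) ≤ 2 ^ G := by
    refine le_trans ?_ hGr
    push_cast
    nlinarith
  have h2 : (((τ : ℝ) + 1) * ((2 * W : ℕ) : ℝ)) ^ (τ * W) ≤ 2 ^ (G * (τ * W)) := by
    rw [pow_mul (2 : ℝ) G (τ * W)]
    exact pow_le_pow_left₀ (by positivity) hGr _
  have hατ : α ≤ 2 ^ G := by
    refine le_trans ?_ hGr
    push_cast
    nlinarith
  have hVr : (V : ℝ) ≤ 2 ^ kS := by exact_mod_cast hV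
  have h3 : ((V : ℝ) * α + 1) ^ τ ≤ 2 ^ (τ * (kS + G + 1)) := by
    rw [mul_comm τ, pow_mul]
    refine pow_le_pow_left₀ (by positivity) ?_ _
    have g1 : (V : ℝ) * α ≤ 2 ^ (kS + G) := by
      rw [pow_add]
      exact mul_le_mul hVr hατ hα0 (by positivity)
    have g2 : (1 : ℝ) ≤ 2 ^ (kS + G) := one_le_pow₀ (by norm_num)
    rw [pow_succ]
    linarith
  have h4 : Real.exp (α * ((2 * W : ℕ) : ℝ)) ≤ 2 ^ (τ * W) := by
    have g1 : α * ((2 * W : ℕ) : ℝ) ≤ ((τ * W : ℕ) : ℝ) * Real.log 2 := by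
      have := Real.log_two_gt_d9
      have g2 : (α : ℝ) * (2 * W) ≤ τ * W * (1 / 32) := by nlinarith
      have g3 : (τ : ℝ) * W * (1 / 32) ≤ τ * W * Real.log 2 :=
        mul_le_mul_of_nonneg_left (by linarith) (by positivity)
      push_cast
      linarith
    calc Real.exp (α * ((2 * W : ℕ) : ℝ)) ≤ Real.exp (((τ * W : ℕ) : ℝ) * Real.log 2) :=
          Real.exp_le_exp.2 g1
      _ = 2 ^ (τ * W) := by rw [Real.exp_nat_mul, Real.exp_log (by norm_num)]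
  have h5 : ε * ((τ * W : ℕ) * ((τ + 1 : ℝ) * (2 * W : ℕ)) ^ (τ * W) * (V * α + 1) ^ τ *
      Real.exp (α * (2 * W : ℕ))) * 2 ^ (3 * (τ * W)) ≤
      (2 ^ (ww + kS + 1) * (1 / 2) ^ M) * (2 ^ G * 2 ^ (G * (τ * W)) * 2 ^ (τ * (kS + G + 1)) *
        2 ^ (τ * W)) * 2 ^ (3 * (τ * W)) := by
    refine mul_le_mul_of_nonneg_right ?_ (by positivity)
    refine mul_le_mul hε ?_ (by positivity) (by positivity)
    refine mul_le_mul ?_ h4 (by positivity) (by positivity)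
    refine mul_le_mul ?_ h3 (by positivity) (by positivity)
    exact mul_le_mul h1 h2 (by positivity) (by positivity)
  refine h5.trans ?_
  have e : (2 ^ (ww + kS + 1) * (1 / 2 : ℝ) ^ M) * (2 ^ G * 2 ^ (G * (τ * W)) *
      2 ^ (τ * (kS + G + 1)) * 2 ^ (τ * W)) * 2 ^ (3 * (τ * W)) =
      2 ^ (ww + kS + 1 + G + G * (τ * W) + τ * (kS + G + 1) + τ * W + 3 * (τ * W)) *
        (1 / 2 : ℝ) ^ M := by
    rw [pow_add, pow_add, pow_add, pow_add, pow_add, pow_add, pow_add, pow_add]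
    ring
  rw [e, one_div, inv_pow]
  rw [← div_eq_mul_inv, div_le_one (by positivity)]
  refine pow_le_pow_right₀ (by norm_num) ?_
  have e2 : (G + 4) * (τ * W) = G * (τ * W) + τ * W + 3 * (τ * W) := by ring
  omega

/-- the gain at an infinite place for the subset products of `r` -/
theorem gain_relA (w : InfinitePlace K) {D n k h S s' ww N Δ T0 τ W M G : ℕ}
    (hD : Module.finrank ℚ K ≤ D) (hh : 1 ≤ h) (hww : 1 ≤ ww)
    (hs' : (D + 4) * h * (n + 2) ≤ 2 ^ s') (hτ : τ = 128 * ((D + 2) * (h * ww))) (hW : 1 ≤ W)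
    (hG : (τ + 1) * (2 * W) ≤ 2 ^ G)
    (hM : ww + k * (S + s') + 2 + G + τ * (k * (S + s') + G + 1) + (G + 4) * (τ * W) ≤ M)
    (hΔ : Δ = k * (S + s') + ww) (q : Fin n → 𝓞 K) (r : Fin k → 𝓞 K)
    (v : Fin k → ℕ) (c : Fin k → Fin n → ℤ) (hq0 : ∀ j, q j ≠ 0) (hr0 : ∀ i, r i ≠ 0)
    (hq : ∀ j, house (q j : K) ≤ 2 ^ h) (hr : ∀ i, house (r i : K) ≤ 2 ^ h) (hv0 : ∀ i, 0 < v i)
    (hv : ∀ i, v i ≤ 2 ^ S) (hc : ∀ i j, |c i j| ≤ 2 ^ S)
    (hrel : ∀ i, w ((r i : K) ^ (v i) * ∏ j, (q j : K) ^ (c i j) - 1) ≤ (1 / 2) ^ M)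
    (I' : Finset (Finset (Fin k))) (hIw : ∀ l ∈ I', l.card = ww) (hN : I'.card ≤ 2 ^ N) :
    ∃ c' : Fin k → Fin (n + 1) → ℤ, (∀ i j, |c' i j| ≤ 2 ^ (S + s')) ∧
      Gain (Sum.inl w : Pl K) (fun l : {l // l ∈ I'} => dd v c' l.1)
        (fun l : {l // l ∈ I'} => ∏ i ∈ l.1, r i) N Δ T0 τ W := by
  classical
  have hM1 : 1 ≤ M := by omega
  choose m hm1 hm2 using fun i => log_rel w hD hh hs' hM1 hq0 (hr0 i) hq (hr i) (hv i) (hc i) (hrel i)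
  obtain ⟨c', hc'⟩ : ∃ c' : Fin k → Fin (n + 1) → ℤ, c' = fun i => Fin.snoc (c i) (-m i) := ⟨_, rfl⟩
  obtain ⟨a, ha⟩ : ∃ a : Fin (n + 1) → ℂ, a = Fin.snoc (fun j => Complex.log (w.embedding (q j : K)))
    (2 * Real.pi * Complex.I) := ⟨_, rfl⟩
  obtain ⟨ar, har⟩ : ∃ ar : Fin k → ℂ, ar = fun i => Complex.log (w.embedding (r i : K)) := ⟨_, rfl⟩
  have hc'b : ∀ i j, |c' i j| ≤ 2 ^ (S + s') := by
    intro i j
    rw [hc']
    refine Fin.lastCases ?_ (fun j => ?_) j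
    · show |(Fin.snoc (c i) (-m i) : Fin (n + 1) → ℤ) (Fin.last n)| ≤ _
      rw [Fin.snoc_last, abs_neg]
      exact hm1 i
    · show |(Fin.snoc (c i) (-m i) : Fin (n + 1) → ℤ) j.castSucc| ≤ _
      rw [Fin.snoc_castSucc]
      refine (hc i j).trans ?_
      exact pow_le_pow_right₀ (by norm_num) (by omega)
  have hrel' : ∀ i, ‖(v i : ℂ) * ar i + ∑ j, (c' i j : ℂ) * a j‖ ≤ 2 * (1 / 2) ^ M := by
    intro i
    refine le_trans (le_of_eq ?_) (hm2 i)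
    congr 1
    rw [har, hc', ha, Fin.sum_univ_castSucc]
    simp only [Fin.snoc_castSucc, Fin.snoc_last]
    push_cast
    ring
  have hv' : ∀ i, v i ≤ 2 ^ (S + s') := fun i =>
    (hv i).trans (Nat.pow_le_pow_right (by norm_num) (by omega))
  obtain ⟨kS, hkS⟩ : ∃ kS, kS = k * (S + s') := ⟨_, rfl⟩
  rw [← hkS] at hM hΔ
  have hlin : ∀ l ∈ I', ‖(VV v : ℂ) * ∑ i ∈ l, ar i - ∑ j, a j * (dd v c' l j : ℂ)‖ ≤
      2 ^ (ww + kS + 1) * (1 / 2) ^ M := by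
    intro l hl
    rw [dd_rel]
    refine (norm_sum_le _ _).trans ?_
    have h1 : ∀ i ∈ l, ‖(WW v i : ℂ) * ((v i : ℂ) * ar i + ∑ j, (c' i j : ℂ) * a j)‖ ≤
        2 ^ kS * (2 * (1 / 2) ^ M) := by
      intro i _
      rw [norm_mul, Complex.norm_natCast]
      refine mul_le_mul ?_ (hrel' i) (norm_nonneg _) (by positivity)
      have h2 := WW_le hv' i
      rw [← hkS] at h2
      have h3 : WW v i ≤ 2 ^ kS :=
        (Nat.le_mul_of_pos_right _ (by positivity)).trans h2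
      exact_mod_cast h3
    refine (Finset.sum_le_sum h1).trans ?_
    rw [Finset.sum_const, hIw l hl, nsmul_eq_mul, pow_succ, pow_add]
    have h2 : (ww : ℝ) ≤ 2 ^ ww := by exact_mod_cast Nat.lt_two_pow_self.le
    have h3 : (0 : ℝ) ≤ 2 ^ kS * (2 * (1 / 2) ^ M) := by positivity
    calc (ww : ℝ) * (2 ^ kS * (2 * (1 / 2) ^ M)) ≤ 2 ^ ww * (2 ^ kS * (2 * (1 / 2) ^ M)) :=
          mul_le_mul_of_nonneg_right h2 h3
      _ = _ := by ring
  obtain ⟨α, hα⟩ : ∃ α : ℝ, α = (((D + 4) * (h * ww) : ℕ) : ℝ) := ⟨_, rfl⟩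
  have hα1 : 1 ≤ α := by
    rw [hα]
    exact_mod_cast Nat.mul_pos (by omega) (Nat.mul_pos hh hww)
  have hτα : 64 * α ≤ τ := by
    rw [hα, hτ]
    have : 64 * ((D + 4) * (h * ww)) ≤ 128 * ((D + 2) * (h * ww)) := by
      have e1 : 64 * ((D + 4) * (h * ww)) = (64 * (D + 4)) * (h * ww) := by ring
      have e2 : 128 * ((D + 2) * (h * ww)) = (128 * (D + 2)) * (h * ww) := by ring
      rw [e1, e2]
      exact Nat.mul_le_mul_right _ (by omega)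
    exact_mod_cast this
  obtain ⟨ε, hε⟩ : ∃ ε : ℝ, ε = 2 ^ (ww + kS + 1) * (1 / 2) ^ M := ⟨_, rfl⟩
  have hε0 : 0 ≤ ε := by rw [hε]; positivity
  have hε1 : ε ≤ 1 := by
    rw [hε, one_div, inv_pow, ← div_eq_mul_inv, div_le_one (by positivity)]
    exact pow_le_pow_right₀ (by norm_num) (by omega)
  refine ⟨c', hc'b, gainA w (V := VV v) (α := α) (ε := ε) (fun l : {l // l ∈ I'} => dd v c' l.1)
    (fun l : {l // l ∈ I'} => ∏ i ∈ l.1, r i) (fun l => ∑ i ∈ l.1, ar i) a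
    (by rw [Fintype.card_coe]; exact hN) ?_ ?_ (VV_pos hv0) hα1 hε0 hε1 ?_ ?_ hτα ?_⟩
  · intro l j
    have := dd_le hv' hc'b (hIw l.1 l.2) j
    rw [← hkS, ← hΔ] at this
    exact this
  · intro l
    show w.embedding (algebraMap (𝓞 K) K (∏ i ∈ l.1, r i)) = _
    rw [map_prod, map_prod, Complex.exp_sum]
    refine Finset.prod_congr rfl fun i _ => ?_
    rw [har]
    exact (exp_log_emb w (hr0 i)).symm
  · intro l
    refine (norm_sum_le _ _).trans ?_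
    have h1 : ∀ i ∈ l.1, ‖ar i‖ ≤ (((D + 4) * h : ℕ) : ℝ) := by
      intro i _
      rw [har]
      exact log_bound w hD hh (hr0 i) (hr i)
    refine (Finset.sum_le_sum h1).trans (le_of_eq ?_)
    rw [Finset.sum_const, hIw l.1 l.2, nsmul_eq_mul, hα]
    push_cast
    ring
  · intro l
    rw [hε]
    exact hlin l.1 l.2
  · refine small_cond hε0 (by rw [hε]) (by linarith) hτα ?_ hW hG hM
    rw [hkS]
    exact VV_le hv'

variable (K) in
/-- **Simultaneous linear forms at an infinite place** -/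
theorem simulA : ∃ c0 : ℕ, ∀ (w : InfinitePlace K) (D n k ww h S s' J Z0 N M Xs τ T0 Δ G : ℕ),
    Module.finrank ℚ K ≤ D → 1 ≤ h → 1 ≤ ww → Xs = h * ww →
    τ = 128 * ((D + 2) * Xs) → T0 = (J + 1) * τ → (D + 4) * h * (n + 2) ≤ 2 ^ s' →
    Δ = k * (S + s') + ww →
    2 * (Fintype.card (Mon (n + 1) T0) * Z0) ≤ k.choose ww →
    2 * Fintype.card (Mon (n + 1) T0) ≤ 2 ^ J → 64 * ((D + 2) * (Δ * (J + 1))) ≤ Z0 →
    2 * (Fintype.card (Mon (n + 1) T0) * Z0) ≤ 2 ^ N → 2 * N + c0 + 1 ≤ Z0 →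
    (τ + 1) * (2 * (2 ^ J * Z0)) ≤ 2 ^ G →
    ww + k * (S + s') + 2 + G + τ * (k * (S + s') + G + 1) + (G + 4) * (τ * (2 ^ J * Z0)) ≤ M →
    ∀ (q : Fin n → 𝓞 K) (r : Fin k → 𝓞 K) (v : Fin k → ℕ) (c : Fin k → Fin n → ℤ),
    (∀ j, q j ≠ 0) → (∀ i, r i ≠ 0) → (∀ j, house (q j : K) ≤ 2 ^ h) →
    (∀ i, house (r i : K) ≤ 2 ^ h) →
    (∀ i, 0 < v i) → (∀ i, v i ≤ 2 ^ S) → (∀ i j, |c i j| ≤ 2 ^ S) →
    (∀ i, w ((r i : K) ^ (v i) * ∏ j, (q j : K) ^ (c i j) - 1) ≤ (1 / 2) ^ M) →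
    (Function.Injective fun A : Finset (Fin k) => ∏ i ∈ A, r i) → False := by
  classical
  obtain ⟨c0, hiter⟩ := iterK K
  refine ⟨c0, ?_⟩
  intro w D n k ww h S s' J Z0 N M Xs τ T0 Δ G hD hh hww hXs hτ hT0 hs' hΔ h2 h3 h4 h5 h6 hG h7
    q r v c hq0 hr0 hq hr hv0 hv hc hrel hinj
  have hZ0 : 0 < Z0 := by omega
  have hXs1 : 1 ≤ Xs := by rw [hXs]; exact Nat.mul_pos hh hww
  obtain ⟨I', hI'sub, hI'card⟩ := Finset.exists_subset_card_eq
    (s := Finset.powersetCard ww (univ : Finset (Fin k)))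
    (n := 2 * (Fintype.card (Mon (n + 1) T0) * Z0)) (by
      rw [Finset.card_powersetCard, Finset.card_univ, Fintype.card_fin]
      exact h2)
  have hIw : ∀ l ∈ I', l.card = ww := fun l hl => (Finset.mem_powersetCard.1 (hI'sub hl)).2
  have hW1 : 1 ≤ 2 ^ J * Z0 := Nat.mul_pos (by positivity) hZ0
  obtain ⟨c', hc'b, hgain⟩ := gain_relA w (T0 := T0) (N := N) hD hh hww hs' (by rw [hτ, hXs]) hW1 hG h7 hΔ
    q r v c hq0 hr0 hq hr hv0 hv hc hrel I' hIw (by rw [hI'card]; exact h5)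
  have hcard : Fintype.card {l // l ∈ I'} = 2 * (Fintype.card (Mon (n + 1) T0) * Z0) := by
    rw [Fintype.card_coe, hI'card]
  have hv' : ∀ i, v i ≤ 2 ^ (S + s') := fun i =>
    (hv i).trans (Nat.pow_le_pow_right (by norm_num) (by omega))
  refine hiter {l // l ∈ I'} (Sum.inl w) D (n + 1) J Z0 N Δ Xs τ T0 hD hXs1 hτ hT0 hcard h3 h4 h5 h6
    (fun l => dd v c' l.1) (fun l => ∏ i ∈ l.1, r i) hgain ?_ ?_ ?_
  · intro l j
    rw [hΔ]
    exact dd_le hv' hc'b (hIw l.1 l.2) j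
  · intro l
    rw [hXs]
    exact house_mon_le r hr (hIw l.1 l.2)
  · intro l l' hll
    apply Subtype.ext
    exact hinj hll

end Pool.Agent.Y728
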