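import Pool.Agent.Y728.MainK
import Pool.Agent.TH876.Proj

/-!
The number of points of the projective plane on the line `a + b + c = 0` with bounded radical
(helper728).
-/

set_option autoImplicit false

namespace Pool.Agent.Y728

open NumberField IsDedekindDomain Finset Pool.Agent.H691R3 Pool.Agent.TH876.Loc

variable {K : Type} [Field K] [NumberField K]

/-- the radical without the primes of `T` -/
noncomputable def radT (T : Set (HeightOneSpectrum (𝓞 K))) (x : Fin 3 → K) : ℝ :=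
  (∑ᶠ (v : HeightOneSpectrum (𝓞 K)) (_ : v ∉ T ∧
      ¬ (FinitePlace.mk v (x 0) = FinitePlace.mk v (x 1) ∧
        FinitePlace.mk v (x 1) = FinitePlace.mk v (x 2))),
    Real.log (Ideal.absNorm v.asIdeal : ℝ)) / (Module.finrank ℚ K : ℝ)

/-- the points with bounded radical -/
def PointsT (T : Set (HeightOneSpectrum (𝓞 K))) (X : ℝ) : Set (Projectivization K (Fin 3 → K)) :=
  {P | ∃ (x : Fin 3 → K) (hx : x ≠ 0), P = Projectivization.mk K x hx ∧ x 0 + x 1 + x 2 = 0 ∧
    x 0 * x 1 * x 2 ≠ 0 ∧ Real.exp (radT T x) ≤ X}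

open Classical in
theorem exp_radT (T : Finset (Pr K)) {x : Fin 3 → K} (hs : x 0 + x 1 + x 2 = 0)
    (hne : x 0 * x 1 * x 2 ≠ 0) :
    Real.exp ((Module.finrank ℚ K : ℝ) * radT (T : Set (Pr K)) x) = nn (sp (x 0 / x 1) \ T) := by
  have hd : (Module.finrank ℚ K : ℝ) ≠ 0 := by
    exact_mod_cast (Module.finrank_pos (R := ℚ) (M := K)).ne'
  have h1 : ∑ᶠ (v : HeightOneSpectrum (𝓞 K)) (_ : v ∉ (T : Set (Pr K)) ∧
      ¬ (FinitePlace.mk v (x 0) = FinitePlace.mk v (x 1) ∧
        FinitePlace.mk v (x 1) = FinitePlace.mk v (x 2))),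
      Real.log (Ideal.absNorm v.asIdeal : ℝ) =
      ∑ v ∈ sp (x 0 / x 1) \ T, Real.log (Ideal.absNorm v.asIdeal : ℝ) := by
    have h2 : ∀ v : Pr K, (v ∉ (T : Set (Pr K)) ∧
      ¬ (FinitePlace.mk v (x 0) = FinitePlace.mk v (x 1) ∧
        FinitePlace.mk v (x 1) = FinitePlace.mk v (x 2))) ↔
        v ∈ ((sp (x 0 / x 1) \ T : Finset (Pr K)) : Set (Pr K)) := by
      intro v
      have h3 : v ∈ ((sp (x 0 / x 1) \ T : Finset (Pr K)) : Set (Pr K)) ↔
          v ∈ sp (x 0 / x 1) ∧ v ∉ T := by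
        rw [Finset.mem_coe, Finset.mem_sdiff]
      rw [h3, sp_of_triple hs hne v]
      exact and_comm
    rw [finsum_congr fun v => finsum_congr_Prop (propext (h2 v)) fun _ => rfl]
    exact finsum_mem_coe_finset _ _
  unfold radT
  rw [h1, mul_div_cancel₀ _ hd, Real.exp_sum]
  unfold nn
  refine Finset.prod_congr rfl fun v _ => ?_
  rw [Real.exp_log]
  · rfl
  · exact_mod_cast Nat.pos_of_ne_zero (absNorm_ne_zero v)

open Classical in
theorem nn_le_mul (s T : Finset (Pr K)) : nn s ≤ nn T * nn (s \ T) := by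
  have h1 : nn s ≤ nn (T ∪ (s \ T)) := by
    refine nn_mono ?_
    rw [Finset.union_sdiff_self_eq_union]
    exact Finset.subset_union_right
  rwa [nn_union Finset.disjoint_sdiff] at h1

/-- **points of all heights by their radical** -/
theorem radical_count (K : Type) [Field K] [NumberField K] (T : Set (HeightOneSpectrum (𝓞 K)))
    (hT : T.Finite) (ε : ℝ) (hε : 0 < ε) : ∃ C : ℝ, ∀ X : ℝ, 1 ≤ X → (PointsT T X).Finite ∧
      ((PointsT T X).ncard : ℝ) ≤ C * X ^ ((Module.finrank ℚ K : ℝ) * (2 / 3) + ε) := by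
  classical
  obtain ⟨T', rfl⟩ : ∃ T' : Finset (Pr K), T = (T' : Set (Pr K)) := ⟨hT.toFinset, by simp⟩
  obtain ⟨d, hd⟩ : ∃ d : ℝ, d = (Module.finrank ℚ K : ℝ) := ⟨_, rfl⟩
  have hdpos : 0 < d := by
    rw [hd]
    exact_mod_cast Module.finrank_pos
  rw [← hd]
  obtain ⟨D, hD, hmain⟩ := mainK K (ε / d) (div_pos hε hdpos)
  have hT1 : 1 ≤ nn T' := one_le_nn T'
  refine ⟨D * nn T' ^ (2 / 3 + ε / d), fun X hX => ?_⟩
  have hX0 : 0 < X := by linarith
  refine transfer (PointsT (T' : Set (Pr K)) X) (fun x => nn (sp x) ≤ nn T' * X ^ d) _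
    (by positivity) ?_ ?_
  · rintro P ⟨x, hx, h1, h2, h3, h4⟩
    refine ⟨x, hx, h1, h2, h3, (nn_le_mul _ T').trans ?_⟩
    refine mul_le_mul_of_nonneg_left ?_ (by linarith)
    rw [← exp_radT T' h2 h3, ← hd, mul_comm d, Real.exp_mul]
    exact Real.rpow_le_rpow (Real.exp_pos _).le h4 hdpos.le
  · intro E hE
    have hXd : 1 ≤ X ^ d := Real.one_le_rpow hX hdpos.le
    have h1 := hmain (nn T' * X ^ d) (by nlinarith) E hE
    refine h1.trans (le_of_eq ?_)
    rw [Real.mul_rpow (by linarith) (by positivity), ← Real.rpow_mul hX0.le]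
    have e1 : d * (2 / 3 + ε / d) = d * (2 / 3) + ε := by field_simp
    rw [e1]
    ring

end Pool.Agent.Y728
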