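import Pool.Agent.Y728.GainA

/-!
Simultaneous linear forms in logarithms at an infinite place of a number field (helper728).
-/

set_option autoImplicit false

namespace Pool.Agent.Y728

open Finset NumberField IsDedekindDomain Pool.Agent.H691R3 Pool.Agent.TH876.Loc

variable {K : Type} [Field K] [NumberField K]

theorem log_bound (w : InfinitePlace K) {D h : ℕ} (hD : Module.finrank ℚ K ≤ D) (hh : 1 ≤ h)
    {z : 𝓞 K} (hz : z ≠ 0) (hzh : house (z : K) ≤ 2 ^ h) :
    ‖Complex.log (w.embedding (z : K))‖ ≤ ((D + 4) * h : ℕ) := by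
  have hz' : (z : K) ≠ 0 := fun h => hz (RingOfIntegers.coe_eq_zero_iff.1 h)
  have hpos : 0 < ‖w.embedding (z : K)‖ := by
    rw [norm_pos_iff]
    intro h
    exact hz' ((map_eq_zero w.embedding).1 h)
  have hlog2 : 0 < Real.log 2 := Real.log_pos (by norm_num)
  have hlog21 : Real.log 2 ≤ 1 := by
    have := Real.log_two_lt_d9
    linarith
  have h1 := liouville (Sum.inl w : Pl K) hz (B := 2 ^ h) (one_le_pow₀ (by norm_num)) hzh
  have h2 : Real.log ‖w.embedding (z : K)‖ ≤ h * Real.log 2 := by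
    rw [← Real.log_pow]
    exact Real.log_le_log hpos ((norm_embedding_le_house _ _).trans hzh)
  unfold lg at h1
  rw [inl_av, Real.log_pow] at h1
  have hmt : mt (Sum.inl w : Pl K) = (w.mult : ℝ) := rfl
  rw [hmt] at h1
  have hm1 : (1 : ℝ) ≤ w.mult := by
    have : 0 < w.mult := InfinitePlace.mult_pos
    exact_mod_cast this
  have hDr : (Module.finrank ℚ K : ℝ) ≤ D := by exact_mod_cast hD
  have hD1 : (1 : ℝ) ≤ D := by
    have : 0 < Module.finrank ℚ K := Module.finrank_pos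
    exact_mod_cast (show 1 ≤ D by omega)
  have hh0 : (1 : ℝ) ≤ h := by exact_mod_cast hh
  have h3 : (Module.finrank ℚ K : ℝ) * (h * Real.log 2) ≤ D * h := by
    calc (Module.finrank ℚ K : ℝ) * (h * Real.log 2) ≤ D * (h * 1) := by
          refine mul_le_mul hDr ?_ (by positivity) (by positivity)
          exact mul_le_mul_of_nonneg_left hlog21 (by positivity)
      _ = D * h := by ring
  have h4 : |Real.log ‖w.embedding (z : K)‖| ≤ D * h := by
    rw [abs_le]
    constructor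
    · by_contra hcon
      rw [not_le] at hcon
      have h5 : Real.log ‖w.embedding (z : K)‖ < 0 := by
        have : 0 ≤ (D : ℝ) * h := by positivity
        linarith
      nlinarith
    · have : (h : ℝ) * Real.log 2 ≤ D * h := by
        calc (h : ℝ) * Real.log 2 ≤ h * 1 := mul_le_mul_of_nonneg_left hlog21 (by positivity)
          _ ≤ D * h := by nlinarith
      linarith
  have h5 : ‖Complex.log (w.embedding (z : K))‖ ≤
      |Real.log ‖w.embedding (z : K)‖| + |Complex.arg (w.embedding (z : K))| := by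
    unfold Complex.log
    refine (norm_add_le _ _).trans ?_
    rw [norm_mul, Complex.norm_I, mul_one, Complex.norm_real, Complex.norm_real, Real.norm_eq_abs,
      Real.norm_eq_abs]
  have h6 := Complex.abs_arg_le_pi (w.embedding (z : K))
  have h7 := Real.pi_lt_four
  push_cast
  nlinarith

theorem exp_log_emb (w : InfinitePlace K) {z : 𝓞 K} (hz : z ≠ 0) :
    Complex.exp (Complex.log (w.embedding (z : K))) = w.embedding (z : K) := by
  have hz' : (z : K) ≠ 0 := fun h => hz (RingOfIntegers.coe_eq_zero_iff.1 h)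
  exact Complex.exp_log fun h => hz' ((map_eq_zero w.embedding).1 h)

/-- the relation between logarithms -/
theorem log_rel (w : InfinitePlace K) {D n h S s' M : ℕ} (hD : Module.finrank ℚ K ≤ D)
    (hh : 1 ≤ h) (hs' : (D + 4) * h * (n + 2) ≤ 2 ^ s') (hM : 1 ≤ M) {q : Fin n → 𝓞 K} {r : 𝓞 K}
    (hq0 : ∀ j, q j ≠ 0) (hr0 : r ≠ 0) (hq : ∀ j, house (q j : K) ≤ 2 ^ h)
    (hr : house (r : K) ≤ 2 ^ h) {v : ℕ} {c : Fin n → ℤ} (hv : v ≤ 2 ^ S) (hc : ∀ j, |c j| ≤ 2 ^ S)
    (hrel : w ((r : K) ^ v * ∏ j, (q j : K) ^ (c j) - 1) ≤ (1 / 2) ^ M) :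
    ∃ m : ℤ, |m| ≤ 2 ^ (S + s') ∧ ‖(v : ℂ) * Complex.log (w.embedding (r : K)) +
      (∑ j, (c j : ℂ) * Complex.log (w.embedding (q j : K)) - m * (2 * Real.pi * Complex.I))‖ ≤
        2 * (1 / 2) ^ M := by
  obtain ⟨y, hy⟩ : ∃ y : ℂ, y = w.embedding ((r : K) ^ v * ∏ j, (q j : K) ^ (c j)) := ⟨_, rfl⟩
  obtain ⟨Λ, hΛ⟩ : ∃ Λ : ℂ, Λ = (v : ℂ) * Complex.log (w.embedding (r : K)) +
      ∑ j, (c j : ℂ) * Complex.log (w.embedding (q j : K)) := ⟨_, rfl⟩
  have hexp : Complex.exp Λ = y := by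
    rw [hΛ, hy, Complex.exp_add, Complex.exp_sum, Complex.exp_nat_mul, exp_log_emb w hr0,
      map_mul, map_pow, map_prod]
    congr 1
    refine Finset.prod_congr rfl fun j _ => ?_
    rw [Complex.exp_int_mul, exp_log_emb w (hq0 j), map_zpow₀]
  have hy1 : ‖y - 1‖ ≤ (1 / 2) ^ M := by
    refine le_trans (le_of_eq ?_) hrel
    rw [← InfinitePlace.norm_embedding_eq, map_sub, map_one, hy]
  have hM2 : ((1 : ℝ) / 2) ^ M ≤ 1 / 2 := by
    calc ((1 : ℝ) / 2) ^ M ≤ (1 / 2) ^ 1 := pow_le_pow_of_le_one (by norm_num) (by norm_num) hM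
      _ = 1 / 2 := pow_one _
  have hlog : ‖Complex.log y‖ ≤ 2 * (1 / 2) ^ M := by
    have h1 := Complex.norm_log_one_add_half_le_self (z := y - 1) (hy1.trans hM2)
    rw [add_sub_cancel] at h1
    have h0 : 0 ≤ ‖y - 1‖ := norm_nonneg _
    linarith
  have hy0 : y ≠ 0 := by rw [← hexp]; exact Complex.exp_ne_zero _
  obtain ⟨m, hm⟩ := Complex.exp_eq_exp_iff_exists_int.1 (hexp.trans (Complex.exp_log hy0).symm)
  have e : (v : ℂ) * Complex.log (w.embedding (r : K)) +
      (∑ j, (c j : ℂ) * Complex.log (w.embedding (q j : K)) - m * (2 * Real.pi * Complex.I)) =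
      Complex.log y := by
    rw [← add_sub_assoc, ← hΛ, hm]
    ring
  refine ⟨m, ?_, by rw [e]; exact hlog⟩
  -- the size of `m`
  have h1 : ‖(m : ℂ) * (2 * Real.pi * Complex.I)‖ = 2 * Real.pi * |(m : ℝ)| := by
    rw [norm_mul, norm_mul, norm_mul, Complex.norm_I, Complex.norm_real, Complex.norm_intCast,
      Real.norm_eq_abs, abs_of_pos Real.pi_pos]
    norm_num
    ring
  have hΛb : ‖Λ‖ ≤ 2 ^ S * (((D + 4) * h : ℕ) : ℝ) * (n + 1) := by
    rw [hΛ]
    refine (norm_add_le _ _).trans ?_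
    have g1 : ‖(v : ℂ) * Complex.log (w.embedding (r : K))‖ ≤ 2 ^ S * (((D + 4) * h : ℕ) : ℝ) := by
      rw [norm_mul, Complex.norm_natCast]
      refine mul_le_mul (by exact_mod_cast hv) (log_bound w hD hh hr0 hr) (norm_nonneg _)
        (by positivity)
    have g2 : ‖∑ j, (c j : ℂ) * Complex.log (w.embedding (q j : K))‖ ≤
        n * (2 ^ S * (((D + 4) * h : ℕ) : ℝ)) := by
      refine (norm_sum_le _ _).trans ?_
      have g3 : ∀ j ∈ (univ : Finset (Fin n)), ‖(c j : ℂ) * Complex.log (w.embedding (q j : K))‖ ≤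
          2 ^ S * (((D + 4) * h : ℕ) : ℝ) := by
        intro j _
        rw [norm_mul, Complex.norm_intCast]
        refine mul_le_mul (by exact_mod_cast hc j) (log_bound w hD hh (hq0 j) (hq j))
          (norm_nonneg _) (by positivity)
      refine (Finset.sum_le_sum g3).trans ?_
      rw [Finset.sum_const, nsmul_eq_mul, Finset.card_univ, Fintype.card_fin]
    nlinarith
  have h2 : 2 * Real.pi * |(m : ℝ)| ≤ 2 ^ S * (((D + 4) * h : ℕ) : ℝ) * (n + 1) + 1 := by
    rw [← h1]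
    have e2 : (m : ℂ) * (2 * Real.pi * Complex.I) = Λ - Complex.log y := by rw [hm]; ring
    rw [e2]
    refine (norm_sub_le _ _).trans ?_
    linarith
  have h3 : (1 : ℝ) ≤ 2 ^ S * (((D + 4) * h : ℕ) : ℝ) := by
    have g1 : (1 : ℝ) ≤ 2 ^ S := one_le_pow₀ (by norm_num)
    have g2 : (1 : ℝ) ≤ (((D + 4) * h : ℕ) : ℝ) := by
      exact_mod_cast Nat.mul_pos (by omega) hh
    nlinarith
  have h4 : (1 : ℝ) ≤ 2 * Real.pi := by linarith [Real.pi_gt_three]
  have h5 : |(m : ℝ)| ≤ 2 ^ S * (((D + 4) * h * (n + 2) : ℕ) : ℝ) := by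
    have g1 : |(m : ℝ)| ≤ 2 * Real.pi * |(m : ℝ)| := by
      have := abs_nonneg (m : ℝ)
      nlinarith
    refine (g1.trans h2).trans ?_
    push_cast
    push_cast at h3
    nlinarith
  have h6 : (((D + 4) * h * (n + 2) : ℕ) : ℝ) ≤ 2 ^ s' := by exact_mod_cast hs'
  have h7 : |(m : ℝ)| ≤ 2 ^ (S + s') := by
    refine h5.trans ?_
    rw [pow_add]
    exact mul_le_mul_of_nonneg_left h6 (by positivity)
  exact_mod_cast h7

end Pool.Agent.Y728
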